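import Pool.Agent.MP_257582_lc.E99.Defs

set_option autoImplicit false

namespace Pool.Agent.MP_257582_lc.E99

open Finset SimpleGraph

theorem jn_res_le {W : Type} (K : SimpleGraph W) (A : Set W) : (res K A).support ⊆ K.support :=
  support_mono fun _ _ h => h.1

theorem jn_good {W : Type} {T : Set (SimpleGraph W)} (h : Good T) : Good (jn T) := by
  refine ⟨⟨∅, h.down _ _ (fun _ _ k => k.1) h.bot, h.down _ _ (fun _ _ k => k.1) h.bot⟩, ?_, ?_⟩
  · rintro K K' hK ⟨A, h1, h2⟩
    exact ⟨A, h.down _ (res K' A) (fun _ _ k => ⟨hK k.1, k.2⟩) h1,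
      h.down _ (res K' Aᶜ) (fun _ _ k => ⟨hK k.1, k.2⟩) h2⟩
  · rintro K K' ⟨A, h1, h2⟩ ⟨A', h3, h4⟩ hd
    have n : ∀ u v, K'.Adj u v → u ∉ K.support := fun u v k k' =>
      Set.disjoint_left.1 hd k' ⟨v, k⟩
    refine ⟨{w | (w ∈ K.support ∧ w ∈ A) ∨ (w ∉ K.support ∧ w ∈ A')},
      h.down _ _ ?_ (h.sup _ _ h1 h3 (hd.mono (jn_res_le K A) (jn_res_le K' A'))),
      h.down _ _ ?_ (h.sup _ _ h2 h4 (hd.mono (jn_res_le K Aᶜ) (jn_res_le K' A'ᶜ)))⟩
    · rintro u v ⟨k | k, hu, hv⟩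
      · exact Or.inl ⟨k, (hu.resolve_right fun z => z.1 ⟨v, k⟩).2,
          (hv.resolve_right fun z => z.1 ⟨u, k.symm⟩).2⟩
      · exact Or.inr ⟨k, (hu.resolve_left fun z => n u v k z.1).2,
          (hv.resolve_left fun z => n v u k.symm z.1).2⟩
    · rintro u v ⟨k | k, hu, hv⟩
      · exact Or.inl ⟨k, fun z => hu (Or.inl ⟨⟨v, k⟩, z⟩), fun z => hv (Or.inl ⟨⟨u, k.symm⟩, z⟩)⟩
      · exact Or.inr ⟨k, fun z => hu (Or.inr ⟨n u v k, z⟩), fun z => hv (Or.inr ⟨n v u k.symm, z⟩)⟩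

theorem jn_part {W : Type} {T : Set (SimpleGraph W)} (h : Good T) (d : ℕ) :
    ∀ (K : SimpleGraph W) (c : W → ℕ), (∀ w, c w < 2 ^ d) → (∀ i, res K (c ⁻¹' {i}) ∈ T) →
      K ∈ jn^[d] T := by
  induction d with
  | zero =>
    intro K c hc hK
    have z : ∀ w, c w = 0 := fun w => by have := hc w; omega
    exact h.down _ (res K (c ⁻¹' {0})) (fun u v k => ⟨k, z u, z v⟩) (hK 0)
  | succ d ih =>
    intro K c hc hK
    have hc' : ∀ w, c w / 2 < 2 ^ d := fun w => by have := hc w; rw [pow_succ] at this; omega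
    rw [Function.iterate_succ_apply']
    refine ⟨{w | c w % 2 = 0}, ih _ (fun w => c w / 2) hc' fun i => h.down _ _ ?_ (hK (2 * i)),
      ih _ (fun w => c w / 2) hc' fun i => h.down _ _ ?_ (hK (2 * i + 1))⟩
    · rintro u v ⟨⟨k, a1, a2⟩, b1, b2⟩
      have a1' : c u % 2 = 0 := a1
      have a2' : c v % 2 = 0 := a2
      have b1' : c u / 2 = i := b1
      have b2' : c v / 2 = i := b2
      exact ⟨k, show c u = 2 * i by omega, show c v = 2 * i by omega⟩
    · rintro u v ⟨⟨k, a1, a2⟩, b1, b2⟩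
      have a1' : ¬ c u % 2 = 0 := a1
      have a2' : ¬ c v % 2 = 0 := a2
      have b1' : c u / 2 = i := b1
      have b2' : c v / 2 = i := b2
      exact ⟨k, show c u = 2 * i + 1 by omega, show c v = 2 * i + 1 by omega⟩

theorem jn_col {W : Type} (d : ℕ) :
    ∀ K : SimpleGraph W, K ∈ jn^[d] {⊥} → K.Colorable (2 ^ d) := by
  classical
  induction d with
  | zero =>
    intro K hK
    obtain rfl : K = ⊥ := hK
    exact ⟨Coloring.mk (fun _ => 0) fun k => k.elim⟩
  | succ d ih =>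
    intro K hK
    rw [Function.iterate_succ_apply'] at hK
    obtain ⟨A, h1, h2⟩ := hK
    obtain ⟨c1⟩ := ih _ h1
    obtain ⟨c2⟩ := ih _ h2
    have hc := (Coloring.mk (G := K)
      (fun w => if w ∈ A then (Sum.inl (c1 w) : Fin (2 ^ d) ⊕ Fin (2 ^ d)) else Sum.inr (c2 w))
      fun {u v} k => by
        by_cases hu : u ∈ A <;> by_cases hv : v ∈ A
        · rw [if_pos hu, if_pos hv]
          exact fun e => c1.valid ⟨k, hu, hv⟩ (Sum.inl.inj e)
        · rw [if_pos hu, if_neg hv]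
          exact Sum.inl_ne_inr
        · rw [if_neg hu, if_pos hv]
          exact Sum.inr_ne_inl
        · rw [if_neg hu, if_neg hv]
          exact fun e => c2.valid ⟨k, hu, hv⟩ (Sum.inr.inj e)).colorable
    rwa [Fintype.card_sum, Fintype.card_fin, ← mul_two, ← pow_succ] at hc

theorem jnrow : JN := by
  refine fun W => ⟨fun _ => jn_good, ⟨rfl, fun K K' h k => ?_, fun K K' h k _ => ?_⟩,
    fun d T K c h => jn_part h d K c, jn_col⟩
  · obtain rfl : K' = ⊥ := k
    exact le_bot_iff.1 h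
  · obtain rfl : K = ⊥ := h
    obtain rfl : K' = ⊥ := k
    exact sup_idem _

theorem tyrow : TY := by
  classical
  intro W Y _ _ _ h
  have := Fintype.ofFinite W
  have := Fintype.ofFinite Y
  rw [Nat.card_eq_fintype_card, Nat.card_eq_fintype_card] at h
  obtain ⟨e⟩ : Nonempty (W ↪ Y) := Function.Embedding.nonempty_of_card_le
    ((Nat.le_self_pow two_ne_zero _).trans h.le)
  have hb : ∀ S : SimpleGraph Y, (⊥ : SimpleGraph W) ⊑ S := fun S =>
    ⟨⟨⟨e, fun k => k.elim⟩, e.injective⟩⟩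
  refine ⟨fun S hS => ⟨hb S, fun K K' k k' => (IsContained.of_le k).trans k', ?_⟩, ?_, ?_⟩
  · rintro K K' ⟨f⟩ ⟨f'⟩ hd
    obtain ⟨a, -, ha⟩ := exists_mem_notMem_of_card_lt_card
      (s := univ.image fun p : W × W => f p.1 - f' p.2) (t := univ) (card_image_le.trans_lt (by
        rwa [card_univ, card_univ, Fintype.card_prod, ← sq]))
    have na : ∀ u v, f u ≠ f' v + a := fun u v k =>
      ha (mem_image.2 ⟨(u, v), mem_univ _, by rw [k, add_sub_cancel_left]⟩)
    have n : ∀ u v, K'.Adj u v → u ∉ K.support := fun u v k k' =>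
      Set.disjoint_left.1 hd k' ⟨v, k⟩
    refine ⟨⟨⟨fun w => if w ∈ K.support then f w else f' w + a, ?_⟩, ?_⟩⟩
    · rintro u v (k | k)
      · rw [if_pos ⟨v, k⟩, if_pos ⟨u, k.symm⟩]
        exact f.toHom.map_rel k
      · rw [if_neg (n u v k), if_neg (n v u k.symm)]
        exact hS a _ _ (f'.toHom.map_rel k)
    · intro u v k
      change (if u ∈ K.support then f u else f' u + a) =
        (if v ∈ K.support then f v else f' v + a) at k
      by_cases hu : u ∈ K.support <;> by_cases hv : v ∈ K.support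
      · rw [if_pos hu, if_pos hv] at k
        exact f.injective k
      · rw [if_pos hu, if_neg hv] at k
        exact absurd k (na u v)
      · rw [if_neg hu, if_pos hv] at k
        exact absurd k.symm (na v u)
      · rw [if_neg hu, if_neg hv] at k
        exact f'.injective (add_right_cancel k)
  · ext K
    refine ⟨?_, fun k => ?_⟩
    · rintro ⟨f⟩
      exact le_bot_iff.1 fun u v k => f.toHom.map_rel k
    · obtain rfl : K = ⊥ := k
      exact hb ⊥
  · exact Set.eq_univ_of_forall fun K =>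
      ⟨⟨⟨e, fun k => e.injective.ne k.ne⟩, e.injective⟩⟩

end Pool.Agent.MP_257582_lc.E99
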