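import Pool.Agent.MP_257582_lc.E99.Defs

set_option autoImplicit false

namespace Pool.Agent.MP_257582_lc.E99

open Finset SimpleGraph

theorem main_arith (Q a n : ℕ) (hQ : Odd Q) : ∃ m < 2 ^ a, Q * m ≡ n [MOD 2 ^ a] := by
  have hc : Q.Coprime (2 ^ a) := (Nat.coprime_two_right.2 hQ).pow_right a
  refine ⟨(((ZMod.unitOfCoprime Q hc)⁻¹ : (ZMod (2 ^ a))ˣ) * n : ZMod (2 ^ a)).val, ZMod.val_lt _,
    (ZMod.natCast_eq_natCast_iff _ _ _).1 ?_⟩
  rw [Nat.cast_mul, ZMod.natCast_zmod_val, ← mul_assoc, ← ZMod.coe_unitOfCoprime Q hc,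
    Units.mul_inv, one_mul]

theorem main_one {W : Type} (F : Set (SimpleGraph W)) (T : Set (SimpleGraph W))
    (h : ∀ H ∈ F, H ∉ T) : cnt F (fun _ : Unit => T) = 1 := by
  have e : {E : SimpleGraph Unit | ∀ H ∈ F, ¬ Cont H E fun _ => T} = {⊥} := by
    ext E
    refine ⟨fun _ => Subsingleton.elim _ _, fun _ H hH ⟨ψ, _, h2⟩ => h H hH ?_⟩
    have e' : res H (ψ ⁻¹' {()}) = H := by
      ext u v
      exact ⟨fun k => k.1, fun k => ⟨k, rfl, rfl⟩⟩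
    exact e' ▸ h2 ()
  rw [cnt, e, Set.ncard_singleton, Nat.cast_one]

theorem main (hJ : JN) (hY : TY) (hR : RING) (hA : ALG) (hF : FER) (hE : EMB) (hZ : ZER) (hP : PIG)
    (hK : KEY) : MAIN := by
  intro W _ F s hcol H₀ hH c p hp hadj
  classical
  obtain ⟨B, _, y, l, ha⟩ := hR W F
  obtain ⟨j1, j2, j3, j4⟩ := hJ W
  obtain ⟨a1, a2, a3⟩ := hA B ha.two
  have jg : ∀ (d : ℕ) (T : Set (SimpleGraph W)), Good T → Good (jn^[d] T) := fun d T hT => by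
    induction d with
    | zero => exact hT
    | succ d ih => rw [Function.iterate_succ_apply']; exact j1 _ ih
  have yj : ∀ (d : ℕ) (T : Set (SimpleGraph W)), Good T → phi^[d] (y T) = y (jn^[d] T) :=
    fun d T hT => by
      induction d with
      | zero => rfl
      | succ d ih =>
        rw [Function.iterate_succ_apply', Function.iterate_succ_apply', ih, ha.join _ (jg d T hT)]
  obtain ⟨h, hh⟩ : ∃ h, h = Nat.card W := ⟨_, rfl⟩
  have y0 : ∀ T, Good T → phi^[2 ^ h] (y T) = 0 := fun T hT => by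
    rw [yj _ T hT]
    refine ha.zero _ (jg _ T hT) H₀ hH (j3 _ T H₀ (fun w => (Finite.equivFin W w : ℕ)) hT
      (fun w => ?_) fun i => hT.down _ _ ?_ hT.bot)
    · exact ((Finite.equivFin W w).2.trans_eq hh.symm).trans
        (Nat.lt_two_pow_self.trans Nat.lt_two_pow_self)
    · rintro u v ⟨k1, k2, k3⟩
      exact k1.ne ((Finite.equivFin W).injective (Fin.ext (Eq.trans k2 (Eq.symm k3))))
  obtain ⟨Q, hQ⟩ : ∃ Q, 2 ^ 2 ^ h = Q + 1 := ⟨2 ^ 2 ^ h - 1, (Nat.sub_add_cancel Nat.one_le_two_pow).symm⟩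
  have hQo : Odd Q := by
    have : Even (Q + 1) := hQ ▸ (Nat.even_pow.2 ⟨even_two, by positivity⟩)
    exact Nat.not_even_iff_odd.1 (Nat.even_add_one.1 this)
  have pw : ∀ w : B, phi^[2 ^ h] w = 0 → w ^ (Q + 1) = w := fun w hw => by
    rw [a2, hQ] at hw
    linear_combination hw - w * ha.two
  obtain ⟨D, hD⟩ := Finite.exists_le fun q : W × W =>
    (((p q.1).1 - (p q.2).1) ^ 2 + ((p q.1).2 - (p q.2).2) ^ 2).toNat
  obtain ⟨r, rinj, hr⟩ := hF (D + h ^ 2) (h ^ 2 + 1)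
  have ph : ∀ d j, (∀ (u : (ZMod (r j))ˣ) (I : ZMod (r j)) (S : SimpleGraph (ZMod (r j))),
      I * I = -1 → (∀ (x y : ℤ) (e : ℕ), x ^ 2 + y ^ 2 = 2 ^ e →
        ∃ c : ℕ, (x : ZMod (r j)) + y * I = (u : ZMod (r j)) ^ c) → TI S → S ≠ ⊥ →
      (∀ a b, S.Adj a b → S.Adj (u * a) (u * b)) → Good (ty W S) → phi^[d] (y (ty W S)) = 0) →
      phi^[d] (zz y (r j)) = 0 := fun d j hd => by
    obtain ⟨r1, r2, -, u, b, I, u1, u2, u3⟩ := hr j
    have : NeZero (r j) := ⟨r1.ne_zero⟩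
    have e := (AddMonoidHom.mk' (phi^[d]) (a1 d)).map_finsum_mem (fun S => y (ty W S))
      (Set.toFinite {S : SimpleGraph (ZMod (r j)) | TI S ∧ S ≠ ⊥})
    refine Eq.trans e (hZ W B (fun T => phi^[d] (y T)) (r j) u b ha.two r1.pos u1
      fun S s1 s2 s3 => hd u I S u2 u3 s1 s2 s3 ((hY W _ ?_).1 S s1))
    rw [Nat.card_zmod, ← hh]
    omega
  obtain ⟨z, hz⟩ := hP W B y r ha.two fun j => (hr j).1.pos
  obtain ⟨j0, hj0⟩ := hz.nonempty
  have z1 : phi^[2 ^ h] z = 0 := by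
    rw [← show zz y (r j0) = z from hj0]
    exact ph _ j0 fun _ _ S _ _ _ _ _ g => y0 _ g
  have z2 : phi^[s] z = 0 := by
    rw [← show zz y (r j0) = z from hj0]
    refine ph _ j0 fun u I S u2 u3 s1 s2 s3 g => ?_
    rw [yj _ _ g]
    refine ha.zero _ (jg _ _ g) H₀ hH (j3 _ _ H₀ (fun w => (c w : ℕ)) g (fun w => (c w).2)
      fun i => hE W _ p _ u I S (hr j0).1 hp (fun v w => ?_) ?_ u2 u3 s1 s2 s3)
    · have k1 := hD (v, w)
      have k2 := (hr j0).2.1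
      simp only at k1
      omega
    · rintro v w ⟨k1, k2, k3⟩
      exact hadj v w k1 (Fin.ext (Eq.trans k2 (Eq.symm k3)))
  have hu : l (phi^[s] (y {⊥})) = 1 := by
    have e := ha.ev Unit (fun _ => jn^[s] {⊥}) fun _ => jg _ _ j2
    rw [Fintype.prod_unique, main_one F _ fun H k1 k2 => hcol H k1 (j4 s H k2)] at e
    rw [yj _ _ j2, e]
  obtain ⟨J, hJ1, hJ2⟩ := hz.exists_subset_card_eq (Q * 2 ^ (h ^ 2 + 1))
  refine ⟨∑ j ∈ J, r j + 2 ^ (h ^ 2 + 1) * (2 * Q + 1) + h, by omega, fun n hn d f hf hd hfr => ?_⟩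
  obtain ⟨m, m1, m2⟩ := main_arith Q (h ^ 2 + 1) n hQo
  obtain ⟨L, L1, L2⟩ := exists_subset_card_eq (s := J) (n := Q * m)
    (hJ2 ▸ Nat.mul_le_mul_left _ m1.le)
  have s1 : ∑ j ∈ L, r j ≤ ∑ j ∈ J, r j := sum_le_sum_of_subset L1
  have s2 : ∑ j ∈ L, r j ≡ n [MOD 2 ^ (h ^ 2 + 1)] := by
    refine Nat.ModEq.trans ?_ m2
    rw [← L2, card_eq_sum_ones]
    exact Nat.ModEq.sum fun j _ => (hr j).2.2.1
  obtain ⟨k, hk⟩ := (Nat.modEq_iff_dvd' (by omega)).1 s2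
  have k1 : 2 * Q + 1 ≤ k :=
    Nat.le_of_mul_le_mul_left (c := 2 ^ (h ^ 2 + 1)) (by omega) (by positivity)
  obtain ⟨j, q1, q2⟩ := a3 l (y {⊥}) z s Q (Q * m) k hQo.pos (pw _ (y0 _ j2))
    (pw _ (by rw [a1, y0 _ j2, z1, add_zero])) z2 hu (dvd_mul_right _ _) (by omega)
  have q3 := hK W F B y l n d f (h ^ 2 + 1) (k - 2 * j) j (L.image r) ha ⟨H₀, hH⟩ hf hd hfr
    (by omega) (by rw [← hh]; exact (Nat.lt_succ_self _).trans Nat.lt_two_pow_self)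
    (fun q hq => by
      obtain ⟨i, _, rfl⟩ := mem_image.1 hq
      have := (hr i).2.1
      exact ⟨(hr i).1, by rw [← hh]; omega⟩)
    (by
      obtain ⟨i, rfl⟩ : ∃ i, k = i + 2 * j := ⟨k - 2 * j, by omega⟩
      rw [sum_image fun _ _ _ _ e => rinj e, Nat.add_sub_cancel, pow_succ 2 (h ^ 2 + 1)]
      have : 2 ^ (h ^ 2 + 1) * (i + 2 * j) = i * 2 ^ (h ^ 2 + 1) + j * (2 ^ (h ^ 2 + 1) * 2) := by ring
      omega)
  rw [prod_image fun _ _ _ _ e => rinj e, prod_congr rfl fun i hi => congrArg (y {⊥} + ·)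
    (show zz y (r i) = z from hJ1 (L1 hi)), prod_const, L2,
    show k - 2 * j + j = k - j by omega, q2] at q3
  exact one_ne_zero q3

end Pool.Agent.MP_257582_lc.E99
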