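import Pool.Agent.MP_257582_lc.E99.Defs

set_option autoImplicit false

namespace Pool.Agent.MP_257582_lc.E99

open Finset SimpleGraph

theorem ring_cont {W X X' : Type} (e : X ≃ X') {τ : X → Set (SimpleGraph W)}
    {τ' : X' → Set (SimpleGraph W)} (hτ : ∀ x, τ' (e x) = τ x) {E : SimpleGraph X}
    {E' : SimpleGraph X'} (hE : ∀ a b, E.Adj a b → E'.Adj (e a) (e b)) {H : SimpleGraph W}
    (h : Cont H E τ) : Cont H E' τ' := by
  obtain ⟨ψ, h1, h2⟩ := h
  refine ⟨fun w => e (ψ w), fun u v huv hne => hE _ _ (h1 u v huv fun h => hne (congrArg e h)),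
    fun t => ?_⟩
  obtain ⟨x, rfl⟩ := e.surjective t
  have : (fun w => e (ψ w)) ⁻¹' {e x} = ψ ⁻¹' {x} := by
    ext w
    simp
  rw [this, hτ]
  exact h2 x

theorem ring_cnt {W X X' : Type} (F : Set (SimpleGraph W)) (e : X ≃ X')
    {τ : X → Set (SimpleGraph W)} {τ' : X' → Set (SimpleGraph W)} (hτ : ∀ x, τ' (e x) = τ x) :
    cnt F τ = cnt F τ' := by
  have hτ' : ∀ x, τ (e.symm x) = τ' x := fun x => by rw [← hτ, e.apply_symm_apply]
  unfold cnt
  refine congrArg Nat.cast (Set.ncard_congr (fun E _ => E.comap e.symm) (fun E hE H hH hc => ?_)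
    (fun E E' _ _ h => ?_) fun E' hE' => ?_)
  · exact hE H hH (ring_cont e.symm hτ' (fun _ _ h => h) hc)
  · ext a b
    have := congrArg (fun G : SimpleGraph X' => G.Adj (e a) (e b)) h
    simpa using this
  · refine ⟨E'.comap e, fun H hH hc => hE' H hH (ring_cont e hτ (fun _ _ h => h) hc), ?_⟩
    ext a b
    simp

/-- the multiplicities of the types -/
noncomputable def ring_deg {σ X : Type} [Fintype X] (τ : X → σ) : σ →₀ ℕ :=
  ∑ t, Finsupp.single (τ t) 1

theorem ring_deg_apply {σ X : Type} [Fintype X] (τ : X → σ) (T : σ) :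
    ring_deg τ T = Nat.card {t // τ t = T} := by
  classical
  rw [ring_deg, Finsupp.finsetSum_apply, Nat.card_eq_fintype_card, Fintype.card_subtype,
    card_filter]
  exact sum_congr rfl fun t _ => Finsupp.single_apply

theorem ring_equiv {σ X X' : Type} [Fintype X] [Fintype X'] {τ : X → σ} {τ' : X' → σ}
    (h : ring_deg τ = ring_deg τ') : ∃ e : X ≃ X', ∀ x, τ' (e x) = τ x := by
  have k : ∀ T, Nonempty ({t // τ t = T} ≃ {t // τ' t = T}) := fun T =>
    Finite.card_eq.1 (by rw [← ring_deg_apply, ← ring_deg_apply, h])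
  exact ⟨Equiv.ofFiberEquiv fun T => (k T).some, fun x => Equiv.ofFiberEquiv_map _ x⟩

theorem ring_can {σ : Type} (d : σ →₀ ℕ) :
    ring_deg (fun x : Σ T : d.support, Fin (d T) => (x.1 : σ)) = d := by
  rw [ring_deg, Fintype.sum_sigma]
  simp only [sum_const, card_univ, Fintype.card_fin, Finsupp.smul_single, smul_eq_mul, mul_one]
  rw [sum_coe_sort d.support fun T => Finsupp.single T (d T)]
  exact d.sum_single

theorem ring_opt {σ X : Type} [Fintype X] (τ : X → σ) (T : σ) :
    ring_deg (fun o : Option X => o.elim T τ) = Finsupp.single T 1 + ring_deg τ := by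
  rw [ring_deg, Fintype.sum_option]
  rfl

theorem ring_c {W : Type} (F : Set (SimpleGraph W)) :
    ∃ c : (Set (SimpleGraph W) →₀ ℕ) → ZMod 2,
      (∀ (X : Type) [Fintype X] (τ : X → Set (SimpleGraph W)), (∀ t, Good (τ t)) →
        c (ring_deg τ) = cnt F τ) ∧ ∀ d T, d T ≠ 0 → ¬ Good T → c d = 0 := by
  classical
  refine ⟨fun d => if ∀ T, d T ≠ 0 → Good T then
    cnt F (fun x : Σ T : d.support, Fin (d T) => (x.1 : Set (SimpleGraph W))) else 0,
    fun X _ τ hτ => ?_, fun d T h1 h2 => if_neg fun h => h2 (h T h1)⟩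
  have h : ∀ T, ring_deg τ T ≠ 0 → Good T := fun T hT => by
    rw [ring_deg_apply] at hT
    obtain ⟨⟨t, ht⟩⟩ := (Nat.card_ne_zero.1 hT).1
    exact ht ▸ hτ t
  obtain ⟨e, he⟩ := ring_equiv (ring_can (ring_deg τ))
  exact (if_pos h).trans (ring_cnt F e he)

theorem ring_cases {W : Type} (d : Set (SimpleGraph W) →₀ ℕ) :
    (∃ (X : Type) (_ : Fintype X) (τ : X → Set (SimpleGraph W)), (∀ t, Good (τ t)) ∧
      d = ring_deg τ) ∨ ∃ T, d T ≠ 0 ∧ ¬ Good T := by
  by_cases h : ∀ T, d T ≠ 0 → Good T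
  · exact Or.inl ⟨_, inferInstance, _, fun t => h _ (Finsupp.mem_support_iff.1 t.1.2),
      (ring_can d).symm⟩
  · obtain ⟨T, hT⟩ := not_forall.1 h
    exact Or.inr ⟨T, Classical.not_imp.1 hT⟩

theorem ring_good {W X : Type} {τ : X → Set (SimpleGraph W)} {T : Set (SimpleGraph W)}
    (hτ : ∀ t, Good (τ t)) (hT : Good T) : ∀ o : Option X, Good (o.elim T τ)
  | none => hT
  | some t => hτ t

theorem ring_zero {W X : Type} {F : Set (SimpleGraph W)} {τ : X → Set (SimpleGraph W)}
    {T : Set (SimpleGraph W)} (hτ : ∀ t, Good (τ t)) (hT : Good T) {H : SimpleGraph W}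
    (hF : H ∈ F) (hH : H ∈ T) : cnt F (fun o : Option X => o.elim T τ) = 0 := by
  have : {E : SimpleGraph (Option X) | ∀ H ∈ F, ¬ Cont H E fun o : Option X => o.elim T τ} = ∅ := by
    refine Set.eq_empty_of_forall_notMem fun E hE => hE H hF ⟨fun _ => none,
      fun _ _ _ h => absurd rfl h, fun t => ?_⟩
    cases t with
    | none => exact hT.down _ _ (fun _ _ h => h.1) hH
    | some t => exact (hτ t).down _ _ (fun _ _ h => by simpa using h.2.1) (hτ t).bot
  rw [cnt, this]
  simp

theorem ring (hS : SWAP) (hJ : JN) : RING := by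
  intro W _ F
  obtain ⟨c, hc, hc0⟩ := ring_c F
  let l0 : MvPolynomial (Set (SimpleGraph W)) (ZMod 2) →ₗ[ZMod 2] ZMod 2 :=
    (MvPolynomial.basisMonomials (Set (SimpleGraph W)) (ZMod 2)).constr (ZMod 2) c
  have hl : ∀ d, l0 (MvPolynomial.monomial d 1) = c d := fun d =>
    (MvPolynomial.basisMonomials (Set (SimpleGraph W)) (ZMod 2)).constr_basis (ZMod 2) c d
  let I : Ideal (MvPolynomial (Set (SimpleGraph W)) (ZMod 2)) :=
    { carrier := {f | ∀ g, l0 (f * g) = 0}
      add_mem' := fun {a b} ha hb g => by rw [add_mul, map_add, ha g, hb g, add_zero]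
      zero_mem' := fun g => by rw [zero_mul, map_zero]
      smul_mem' := fun a f hf g => by rw [smul_eq_mul, mul_comm a f, mul_assoc]; exact hf _ }
  have hI : ∀ f, (∀ d, l0 (f * MvPolynomial.monomial d 1) = 0) → f ∈ I := fun f hf g => by
    induction g using MvPolynomial.induction_on' with
    | monomial d a =>
      have : (MvPolynomial.monomial d a : MvPolynomial (Set (SimpleGraph W)) (ZMod 2)) =
          a • MvPolynomial.monomial d 1 := by
        rw [MvPolynomial.smul_monomial, smul_eq_mul, mul_one]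
      rw [this, mul_smul_comm, map_smul, hf d, smul_zero]
    | add p q hp hq => rw [mul_add, map_add, hp, hq, add_zero]
  have hX : ∀ (T : Set (SimpleGraph W)) d, (MvPolynomial.X T * MvPolynomial.monomial d 1 :
      MvPolynomial (Set (SimpleGraph W)) (ZMod 2)) =
      MvPolynomial.monomial (Finsupp.single T 1 + d) 1 := fun T d => by
    rw [MvPolynomial.X, MvPolynomial.monomial_mul, mul_one]
  have hne : ∀ (T T' : Set (SimpleGraph W)) (d : Set (SimpleGraph W) →₀ ℕ), d T' ≠ 0 →
      (Finsupp.single T 1 + d : Set (SimpleGraph W) →₀ ℕ) T' ≠ 0 := fun T T' d h => by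
    rw [Finsupp.add_apply]
    omega
  let l : (MvPolynomial (Set (SimpleGraph W)) (ZMod 2) ⧸ I) →+ ZMod 2 :=
    QuotientAddGroup.lift I.toAddSubgroup l0.toAddMonoidHom fun f hf => by
      have := hf 1
      rwa [mul_one] at this
  have hlm : ∀ f, l (Ideal.Quotient.mk I f) = l0 f := fun f => rfl
  refine ⟨MvPolynomial (Set (SimpleGraph W)) (ZMod 2) ⧸ I, inferInstance,
    fun T => Ideal.Quotient.mk I (MvPolynomial.X T), l, ?_, fun T hT => ?_,
    fun T hT H hF hH => ?_, fun X _ τ hτ => ?_⟩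
  · have h2 : (2 : MvPolynomial (Set (SimpleGraph W)) (ZMod 2)) = 0 := CharTwo.two_eq_zero
    exact (map_ofNat (Ideal.Quotient.mk I) 2).symm.trans
      ((congrArg (Ideal.Quotient.mk I) h2).trans (map_zero _))
  · rw [phi, ← map_pow, ← map_add, Ideal.Quotient.eq]
    refine hI _ fun d => ?_
    rw [sub_mul, add_mul, sq, mul_assoc, hX, hX, hX, map_sub, map_add, hl, hl, hl]
    rcases ring_cases d with ⟨X, _, τ, hτ, rfl⟩ | ⟨T', h1, h2⟩
    · rw [← ring_opt, ← ring_opt, ← ring_opt, hc _ _ (ring_good hτ ((hJ W).1 T hT)),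
        hc _ _ (ring_good hτ hT), hc _ _ (ring_good (ring_good hτ hT) hT)]
      have := hS W X F τ T hτ hT
      have e : cnt F (fun o : Option (Option X) => o.elim T fun o' : Option X => o'.elim T τ) =
          cnt F (fun o : Option X => o.elim T τ) + cnt F (fun o : Option X => o.elim (jn T) τ) :=
        this
      rw [e]
      generalize cnt F (fun o : Option X => o.elim T τ) = a
      generalize cnt F (fun o : Option X => o.elim (jn T) τ) = b
      revert a b
      decide
    · rw [hc0 _ T' (hne _ _ _ h1) h2, hc0 _ T' (hne _ _ _ h1) h2,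
        hc0 _ T' (hne _ _ _ (hne _ _ _ h1)) h2]
      simp
  · refine Ideal.Quotient.eq_zero_iff_mem.2 (hI _ fun d => ?_)
    rw [hX, hl]
    rcases ring_cases d with ⟨X, _, τ, hτ, rfl⟩ | ⟨T', h1, h2⟩
    · rw [← ring_opt, hc _ _ (ring_good hτ hT)]
      exact ring_zero hτ hT hF hH
    · exact hc0 _ T' (hne _ _ _ h1) h2
  · rw [← map_prod, hlm, ← hc X τ hτ, ← hl, ring_deg, MvPolynomial.monomial_sum_one]
    rfl

end Pool.Agent.MP_257582_lc.E99
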