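import Pool.Agent.MP_257582_lc.E99.Defs

set_option autoImplicit false

namespace Pool.Agent.MP_257582_lc.E99

open Finset SimpleGraph

theorem cont : CONT := by
  intro W X _ B _ H E S hc
  constructor
  · rintro ⟨f⟩
    refine ⟨fun w => (f w).1, fun u v h hne => (glue_ne E S hne).1 (f.toHom.map_adj h), fun t => ?_⟩
    have h1 : ∀ w : {w : W | (f w).1 = t}, ∃ b : B t, f w.1 = ⟨t, b⟩ := by
      rintro ⟨w, rfl⟩
      exact ⟨(f w).2, rfl⟩
    choose p hp using h1
    have h2 : Function.Injective p := fun a b h =>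
      Subtype.ext (f.injective ((hp a).trans ((congrArg (Sigma.mk t) h).trans (hp b).symm)))
    have := Fintype.ofFinite W
    have := Fintype.ofFinite (B t)
    obtain ⟨e⟩ : Nonempty (W ↪ B t) :=
      Function.Embedding.nonempty_of_card_le (by simpa only [Nat.card_eq_fintype_card] using hc t)
    obtain ⟨σ, hg⟩ := Equiv.Perm.exists_extending_pair
      (fun w : {w : W | (f w).1 = t} => e w.1) p (e.injective.comp Subtype.val_injective) h2
    refine ⟨⟨⟨fun w => σ (e w), fun {u v} h => ?_⟩, σ.injective.comp e.injective⟩⟩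
    have h3 : (glue E S).Adj (f u) (f v) := f.toHom.map_adj h.1
    rw [hp ⟨u, h.2.1⟩, hp ⟨v, h.2.2⟩, glue_same] at h3
    have h4 : σ (e u) = p ⟨u, h.2.1⟩ := hg ⟨u, h.2.1⟩
    have h5 : σ (e v) = p ⟨v, h.2.2⟩ := hg ⟨v, h.2.2⟩
    rw [h4, h5]
    exact h3
  · rintro ⟨ψ, h1, h2⟩
    have g : ∀ t, (res H (ψ ⁻¹' {t})).Copy (S t) := fun t => Nonempty.some (h2 t)
    have key : ∀ t w, ψ w = t → (⟨ψ w, g (ψ w) w⟩ : Σ t, B t) = ⟨t, g t w⟩ := by
      rintro _ w rfl
      rfl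
    refine ⟨⟨⟨fun w => ⟨ψ w, g (ψ w) w⟩, fun {u v} h => ?_⟩, fun u v h => ?_⟩⟩
    · by_cases e : ψ u = ψ v
      · exact Or.inr ⟨ψ v, g (ψ v) u, g (ψ v) v, key _ u e, rfl,
          (g (ψ v)).toHom.map_adj ⟨h, e, rfl⟩⟩
      · exact Or.inl (h1 u v h e)
    · have e : ψ u = ψ v := congrArg Sigma.fst h
      exact (g (ψ v)).injective (sigma_mk_injective ((key _ u e).symm.trans h))

end Pool.Agent.MP_257582_lc.E99
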