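import Pool.Agent.MP_257582_lc.E99.Defs

set_option autoImplicit false

namespace Pool.Agent.MP_257582_lc.E99

open Finset SimpleGraph

lemma key_inG {W X : Type} [Finite X] {F : Set (SimpleGraph W)} {n d : ℕ}
    {f : SimpleGraph (Fin n) → Prop} (hf : Setup n d f) (hfG : ∀ G, f G ↔ ∀ H ∈ F, ¬ H ⊑ G)
    (hc : Nat.card X = n) (G : SimpleGraph X) : InG f G ↔ ∀ H ∈ F, ¬ H ⊑ G := by
  let e : X ≃ Fin n := Finite.equivFinOfCardEq hc
  rw [inG_iff hf G e, hfG]
  have i : G ≃g G.map e.toEmbedding := SimpleGraph.Iso.map e G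
  exact forall₂_congr fun H _ => not_congr
    ⟨fun h => h.trans ⟨i.symm.toCopy⟩, fun h => h.trans ⟨i.toCopy⟩⟩

lemma key_gen (hT : TOP) (hC : CONT) (hS : SUM) (hY : TY) {W : Type} [Finite W]
    {F : Set (SimpleGraph W)} {A : Type} [CommRing A] {y : Set (SimpleGraph W) → A}
    {l : A →+ ZMod 2} {n d : ℕ} {f : SimpleGraph (Fin n) → Prop} (X : Type) [Fintype X]
    (B : X → Type) [∀ t, Field (B t)] [∀ t, Finite (B t)] (big : X → Prop) (hA : Alg F y l)
    (hf : Setup n d f) (hd : d < n.choose 2) (hfG : ∀ G, f G ↔ ∀ H ∈ F, ¬ H ⊑ G)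
    (hn : ∑ t, Nat.card (B t) = n) (h2 : ∀ t, big t → (2 : B t) = 0)
    (h3 : ∀ t, ¬ big t → ∀ c : B t, ∃ k : ℕ, (k : B t) = c)
    (h4 : ∀ t t', ¬ big t → ¬ big t' → t ≠ t' → ∀ (c : B t) (c' : B t'),
      ∃ k : ℕ, (k : B t) = c ∧ (k : B t') = c')
    (hc : ∀ t, Nat.card W ^ 2 < Nat.card (B t)) :
    l (∏ t, ∑ᶠ S ∈ {S : SimpleGraph (B t) | TI S ∧ (big t → S = ⊥ ∨ S = ⊤)}, y (ty W S)) = 0 := by
  have hc' : ∀ t, Nat.card W ≤ Nat.card (B t) := fun t =>
    (Nat.le_self_pow two_ne_zero _).trans (hc t).le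
  have hx : Nat.card (Σ t, B t) = n := by rw [Nat.card_sigma, hn]
  rw [← hS W X B F A y l (fun t => {S : SimpleGraph (B t) | TI S ∧ (big t → S = ⊥ ∨ S = ⊤)}) hA
    (fun t S h => (hY W (B t) (hc t)).1 S h.1), ← hT n d f X B big hf hd hn h2 h3 h4]
  refine congrArg (fun s : Set (SimpleGraph X × ∀ t, SimpleGraph (B t)) => ((s.ncard : ℕ) : ZMod 2))
    (Set.ext fun p => and_congr Iff.rfl ?_)
  rw [key_inG hf hfG hx]
  exact forall₂_congr fun H _ => not_congr (hC W X B H p.1 p.2 hc').symm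

lemma key_big (hY : TY) {W : Type} [Finite W] {F : Set (SimpleGraph W)} {A : Type} [CommRing A]
    {y : Set (SimpleGraph W) → A} {l : A →+ ZMod 2} (hA : Alg F y l) (hF : F.Nonempty)
    (Y : Type) [Field Y] [Finite Y] (hc : Nat.card W ^ 2 < Nat.card Y) (P : Prop) (hP : P) :
    ∑ᶠ S ∈ {S : SimpleGraph Y | TI S ∧ (P → S = ⊥ ∨ S = ⊤)}, y (ty W S) = y {⊥} := by
  have e : {S : SimpleGraph Y | TI S ∧ (P → S = ⊥ ∨ S = ⊤)} = {⊥, ⊤} := by
    ext S
    refine ⟨fun h => h.2 hP, fun h => ⟨?_, fun _ => h⟩⟩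
    rcases h with rfl | rfl
    · exact fun _ _ _ h => h.elim
    · exact fun c a b h h' => h (add_right_cancel h')
  have hne : (⊥ : SimpleGraph Y) ≠ ⊤ := fun h => by
    have : (⊤ : SimpleGraph Y).Adj 0 1 := zero_ne_one
    rw [← h] at this
    exact this
  obtain ⟨H, hH⟩ := hF
  rw [e, finsum_mem_pair hne, (hY W Y hc).2.1, (hY W Y hc).2.2,
    hA.zero Set.univ ⟨trivial, fun _ _ _ _ => trivial, fun _ _ _ _ _ => trivial⟩ H hH trivial,
    add_zero]

lemma key_small (hY : TY) {W : Type} [Finite W] {A : Type} [CommRing A]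
    (y : Set (SimpleGraph W) → A) (Y : Type) [Field Y] [Finite Y]
    (hc : Nat.card W ^ 2 < Nat.card Y) (P : Prop) (hP : ¬ P) :
    ∑ᶠ S ∈ {S : SimpleGraph Y | TI S ∧ (P → S = ⊥ ∨ S = ⊤)}, y (ty W S) =
      y {⊥} + ∑ᶠ S ∈ {S : SimpleGraph Y | TI S ∧ S ≠ ⊥}, y (ty W S) := by
  have e : {S : SimpleGraph Y | TI S ∧ (P → S = ⊥ ∨ S = ⊤)} =
      insert ⊥ {S : SimpleGraph Y | TI S ∧ S ≠ ⊥} := by
    ext S
    refine ⟨fun h => (em (S = ⊥)).imp id fun h' => ⟨h.1, h'⟩, fun h => ⟨?_, fun h' => absurd h' hP⟩⟩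
    rcases h with rfl | h
    · exact fun _ _ _ h => h.elim
    · exact h.1
  rw [e, finsum_mem_insert _ (fun h => h.2 rfl) (Set.toFinite _), (hY W Y hc).2.1]

/-- the blocks -/
def keyB {Y : Type} (e : Y → ℕ) (R : Finset ℕ) : Y ⊕ R → Type
  | .inl t => GaloisField 2 (e t)
  | .inr r => ZMod r

noncomputable abbrev keyF {Y : Type} (e : Y → ℕ) (R : Finset ℕ)
    (hR : ∀ r : R, Fact (r : ℕ).Prime) : ∀ t, Field (keyB e R t)
  | .inl t => inferInstanceAs (Field (GaloisField 2 (e t)))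
  | .inr r => @ZMod.instField r (hR r)

lemma key_fin {Y : Type} (e : Y → ℕ) (R : Finset ℕ) (hR : ∀ r : R, Fact (r : ℕ).Prime) :
    ∀ t, Finite (keyB e R t)
  | .inl t => inferInstanceAs (Finite (GaloisField 2 (e t)))
  | .inr r => by
    have := hR r
    exact inferInstanceAs (Finite (ZMod r))

theorem key (hT : TOP) (hC : CONT) (hS : SUM) (hY : TY) : KEY := by
  intro W _ F A _ y l n d f a k₁ k₂ R hA hF hf hd hfG ha hW hR hn
  let e : Fin k₁ ⊕ Fin k₂ → ℕ := Sum.elim (fun _ => a) fun _ => a + 1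
  have hP : ∀ r : R, Fact (r : ℕ).Prime := fun r => ⟨(hR r r.2).1⟩
  have he : ∀ t, a ≤ e t := by
    rintro (t | t)
    · exact le_rfl
    · exact Nat.le_succ a
  have c1 : ∀ t, Nat.card (keyB e R (.inl t)) = 2 ^ e t := fun t =>
    GaloisField.card 2 (e t) (ha.trans_le (he t)).ne'
  have c2 : ∀ r : R, Nat.card (keyB e R (.inr r)) = r := fun r => Nat.card_zmod r
  have hc : ∀ t, Nat.card W ^ 2 < Nat.card (keyB e R t) := by
    rintro (t | r)
    · rw [c1]
      exact hW.trans_le (Nat.pow_le_pow_right two_pos (he t))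
    · rw [c2]
      exact (hR r r.2).2
  let _ := keyF e R hP
  have := key_fin e R hP
  have h := key_gen hT hC hS hY ((Fin k₁ ⊕ Fin k₂) ⊕ R) (keyB e R) (fun t => t.isLeft = true)
    hA hf hd hfG
    (by
      rw [Fintype.sum_sum_type, sum_congr rfl fun t _ => c1 t, sum_congr rfl fun t _ => c2 t,
        Fintype.sum_sum_type, hn, Finset.sum_coe_sort R fun r => r]
      simp [e])
    (by
      rintro (t | r) h
      · exact CharTwo.two_eq_zero (R := GaloisField 2 (e t))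
      · exact absurd h (by simp))
    (by
      rintro (t | r) h c
      · exact absurd rfl h
      · have := hP r
        exact ZMod.natCast_zmod_surjective (n := r) c)
    (by
      rintro (t | r) (t' | r') h h' hne c c'
      · exact absurd rfl h
      · exact absurd rfl h
      · exact absurd rfl h'
      · have := hP r
        have := hP r'
        have hco : (r : ℕ).Coprime r' := (Nat.coprime_primes (hP r).1 (hP r').1).2 fun h =>
          hne (congrArg Sum.inr (Subtype.ext h))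
        obtain ⟨i, rfl⟩ := ZMod.natCast_zmod_surjective (n := r) c
        obtain ⟨j, rfl⟩ := ZMod.natCast_zmod_surjective (n := r') c'
        obtain ⟨k, hk, hk'⟩ := Nat.chineseRemainder hco i j
        exact ⟨k, (ZMod.natCast_eq_natCast_iff _ _ _).2 hk, (ZMod.natCast_eq_natCast_iff _ _ _).2 hk'⟩)
    hc
  rw [Fintype.prod_sum_type,
    prod_congr rfl fun t _ => key_big hY hA hF (keyB e R (.inl t)) (hc _)
      ((Sum.inl t : (Fin k₁ ⊕ Fin k₂) ⊕ R).isLeft = true) rfl,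
    prod_congr rfl fun r _ => key_small hY y (keyB e R (.inr r)) (hc _)
      ((Sum.inr r : (Fin k₁ ⊕ Fin k₂) ⊕ R).isLeft = true) (by simp)] at h
  rw [← Finset.prod_coe_sort R fun r => y {⊥} + zz y r]
  rw [prod_const, card_univ, Fintype.card_sum, Fintype.card_fin, Fintype.card_fin] at h
  exact h

end Pool.Agent.MP_257582_lc.E99
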