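import Pool.Agent.MP_257582_lc.E99.Defs

set_option autoImplicit false

namespace Pool.Agent.MP_257582_lc.E99

open Finset SimpleGraph

theorem sum_fib {α β : Type} [Finite α] [Fintype β] (t : Finset β) (P : α → β → Prop) :
    {p : α × β | p.2 ∈ t ∧ P p.1 p.2}.ncard = ∑ b ∈ t, {a | P a b}.ncard := by
  classical
  have := Fintype.ofFinite α
  simp only [Set.ncard_eq_toFinset_card', Set.toFinset_ofPred]
  rw [card_eq_sum_card_fiberwise (f := Prod.snd) (t := t)
    (fun p hp => (mem_filter.1 (mem_coe.1 hp)).2.1)]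
  refine sum_congr rfl fun b hb => ?_
  refine card_bij (fun p _ => p.1) (fun p hp => ?_) (fun p hp q hq e => ?_) fun a ha => ?_
  · simp only [mem_filter, mem_univ, true_and] at hp ⊢
    exact hp.2 ▸ hp.1.2
  · exact Prod.ext e ((mem_filter.1 hp).2.trans (mem_filter.1 hq).2.symm)
  · refine ⟨(a, b), ?_, rfl⟩
    simp only [mem_filter, mem_univ, true_and, and_true] at ha ⊢
    exact ⟨hb, ha⟩

theorem sum : SUM := by
  intro W X _ B _ F A _ y l I hA hI
  classical
  have fB : ∀ t, Fintype (SimpleGraph (B t)) := fun t => Fintype.ofFinite _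
  have e1 : ∀ t, ∑ᶠ S ∈ I t, y (ty W S) = ∑ S ∈ (I t).toFinset, y (ty W S) := fun t =>
    finsum_mem_eq_toFinset_sum _ _
  have e2 := sum_fib (Fintype.piFinset fun t => (I t).toFinset)
    (fun (E : SimpleGraph X) (S : ∀ t, SimpleGraph (B t)) =>
      ∀ H ∈ F, ¬ Cont H E fun t => ty W (S t))
  simp only [Fintype.mem_piFinset, Set.mem_toFinset] at e2
  simp only [e1]
  rw [e2, prod_univ_sum, map_sum, Nat.cast_sum]
  refine sum_congr rfl fun S hS => ?_
  rw [hA.ev X _ fun t => hI t _ (Set.mem_toFinset.1 (Fintype.mem_piFinset.1 hS t))]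
  rfl

end Pool.Agent.MP_257582_lc.E99
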