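import Pool.Agent.MP_257582_lc.E99.Defs

set_option autoImplicit false

namespace Pool.Agent.MP_257582_lc.E99

open Finset SimpleGraph

theorem alg_frob {B : Type} [CommRing B] (h : (2 : B) = 0) (n : ℕ) (a b : B) :
    (a + b) ^ 2 ^ n = a ^ 2 ^ n + b ^ 2 ^ n := by
  induction n with
  | zero => simp
  | succ n ih =>
    rw [pow_succ, pow_mul, pow_mul, pow_mul, ih]
    linear_combination (a ^ 2 ^ n * b ^ 2 ^ n) * h

theorem alg_poly {B : Type} [CommRing B] (x : B) (s : ℕ) :
    ∃ p : Polynomial ℤ, phi^[s] x = x * Polynomial.aeval x p := by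
  induction s with
  | zero => exact ⟨1, by simp⟩
  | succ s ih =>
    obtain ⟨p, hp⟩ := ih
    refine ⟨Polynomial.X * p ^ 2 + p, ?_⟩
    rw [Function.iterate_succ_apply', hp, phi, map_add, map_mul, map_pow, Polynomial.aeval_X]
    ring

theorem alg_per {B : Type} [CommRing B] {w : B} {Q : ℕ} (h : w ^ (Q + 1) = w) (c : ℕ) :
    w ^ (Q * c + 1) = w := by
  induction c with
  | zero => simp
  | succ c ih => rw [show Q * (c + 1) + 1 = Q * c + (Q + 1) by ring, pow_add, h, ← pow_succ, ih]

theorem alg : ALG := by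
  intro B _ h2
  have hadd : ∀ (s : ℕ) (a b : B), phi^[s] (a + b) = phi^[s] a + phi^[s] b := fun s a b => by
    induction s with
    | zero => rfl
    | succ s ih =>
      rw [Function.iterate_succ_apply', Function.iterate_succ_apply', Function.iterate_succ_apply',
        ih, phi, phi, phi]
      linear_combination (phi^[s] a * phi^[s] b) * h2
  refine ⟨hadd, fun t => ?_, fun l x z s Q m k hQ hx hxz hz hl hm hk => ?_⟩
  · induction t with
    | zero => intro a; simp [phi]
    | succ t ih =>
      intro a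
      rw [pow_succ 2 t, mul_two, Function.iterate_add_apply, ih, ih, alg_frob h2, ← pow_mul,
        ← pow_add]
      linear_combination a ^ 2 ^ 2 ^ t * h2
  · by_contra hn
    have h0 : ∀ j < Q, l (x ^ (k - j) * (x + z) ^ m) = 0 := fun j hj => by
      have h : l (x ^ (k - j) * (x + z) ^ m) ≠ 1 := fun e => hn ⟨j, hj, e⟩
      revert h
      generalize l (x ^ (k - j) * (x + z) ^ m) = v
      revert v
      decide
    have h1 : ∀ i, l (x ^ (i + 1) * (x + z) ^ m) = 0 := fun i => by
      have e : ∀ a c : ℕ, x ^ (a + Q * c + 1) = x ^ (a + 1) := fun a c => by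
        rw [add_assoc, pow_add, alg_per hx, ← pow_succ]
      have a1 := Nat.mod_lt (k - 1 + (Q - 1) * i) hQ
      have a2 := Nat.mod_add_div (k - 1 + (Q - 1) * i) Q
      have a3 : Q * i = (Q - 1) * i + i := by
        obtain ⟨q, rfl⟩ := Nat.exists_eq_succ_of_ne_zero hQ.ne'
        rw [Nat.succ_sub_one, Nat.succ_mul]
      rw [← h0 _ a1]
      generalize (k - 1 + (Q - 1) * i) % Q = j at *
      generalize (k - 1 + (Q - 1) * i) / Q = c at *
      rw [← e i c, show k - j = k - j - 1 + 1 by omega, ← e (k - j - 1) i]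
      refine congrArg (fun n => l (x ^ n * (x + z) ^ m)) ?_
      omega
    obtain ⟨p, hp⟩ := alg_poly x s
    obtain ⟨p', hp'⟩ := alg_poly (x + z) s
    obtain ⟨c, rfl⟩ := hm
    have h3 : ∀ r : Polynomial ℤ, l (x * Polynomial.aeval x r * (x + z) ^ (Q * c)) = 0 := fun r => by
      induction r using Polynomial.induction_on' with
      | add r r' i1 i2 => rw [map_add, mul_add, add_mul, map_add, i1, i2, add_zero]
      | monomial n a =>
        rw [Polynomial.aeval_monomial, show x * (algebraMap ℤ B a * x ^ n) * (x + z) ^ (Q * c) =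
          a • (x ^ (n + 1) * (x + z) ^ (Q * c)) by rw [Algebra.smul_def]; ring, map_zsmul, h1,
          smul_zero]
    have h4 := h3 p
    rw [hadd, hz, add_zero] at hp'
    rw [← hp, hp', mul_right_comm, ← pow_succ', alg_per hxz, ← hp', hl] at h4
    exact one_ne_zero h4

end Pool.Agent.MP_257582_lc.E99
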