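import Pool.Agent.MP_257582_lc.E99.Cover

set_option autoImplicit false

namespace Pool.Agent.MP_257582_lc.E99

theorem cover_card_pts : ∃ q : Fin 5 → ℤ × ℤ, Function.Injective q ∧
    (∀ i, -1 ≤ (q i).1 ∧ (q i).1 ≤ 1) ∧ ∀ i j, i ≠ j →
      ∃ e : Fin 3, ((q i).1 - (q j).1) ^ 2 + ((q i).2 - (q j).2) ^ 2 = 2 ^ (e : ℕ) :=
  ⟨![(0, 0), (1, 0), (-1, 0), (0, 1), (0, -1)], by decide, by decide, by decide⟩

theorem cover_card : CoverCard := by
  intro W _ K k h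
  have := Fintype.ofFinite W
  obtain ⟨q, q1, q2, q3⟩ := cover_card_pts
  obtain ⟨e⟩ : Nonempty (W ↪ Fin 5 × Fin (2 ^ k)) := Function.Embedding.nonempty_of_card_le (by
    rwa [Fintype.card_prod, Fintype.card_fin, Fintype.card_fin, ← Nat.card_eq_fintype_card])
  refine ⟨fun w => (e w).2, fun w => ((q (e w).1).1 + 10 * (((e w).2 : ℕ) : ℤ), (q (e w).1).2),
    fun v w hp => ?_, fun v w ha hc => ?_⟩
  · obtain ⟨h1, h2⟩ := Prod.mk.inj hp
    have a1 := q2 (e v).1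
    have a2 := q2 (e w).1
    exact e.injective (Prod.ext (q1 (Prod.ext (by omega) h2)) (Fin.ext (by omega)))
  · have hc' : (e v).2 = (e w).2 := hc
    obtain ⟨i, hi⟩ := q3 (e v).1 (e w).1 fun z => ha.ne (e.injective (Prod.ext z hc'))
    refine ⟨i, ?_⟩
    dsimp only
    rw [← hi, hc', add_sub_add_right_eq_sub]

end Pool.Agent.MP_257582_lc.E99
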