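import Pool.Agent.MP_257582_lc.E99.Cover

set_option autoImplicit false

namespace Pool.Agent.MP_257582_lc.E99

open Finset

open Classical in
/-- exploring a graph of degree at most two layer by layer -/
theorem cover_deg_layer {W : Type} [Fintype W] (G : W → W → Prop) (hs : ∀ u v, G u v → G v u)
    (hd : ∀ v, (univ.filter (G v)).card ≤ 2) (n : ℕ) : ∀ B : Finset W, B.card ≤ n → ∀ F ⊆ B,
    F.card ≤ 2 → ((B \ F).filter fun u => ∃ v ∈ F, G v u).card ≤ 2 →
    ∃ p : W → ℕ × Bool, Set.InjOn p B ∧ (∀ v ∈ F, (p v).1 = 0) ∧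
      ∀ u ∈ B, ∀ v ∈ B, G u v → (p u).1 ≤ (p v).1 + 1 := by
  induction n with
  | zero =>
    intro B hB F _ _ _
    obtain rfl : B = ∅ := card_eq_zero.1 (by omega)
    exact ⟨fun _ => (0, true), by simp, fun _ _ => rfl, by simp⟩
  | succ n ih =>
    intro B hB
    have key : ∀ F ⊆ B, F.Nonempty → F.card ≤ 2 →
        ((B \ F).filter fun u => ∃ v ∈ F, G v u).card ≤ 2 →
        ∃ p : W → ℕ × Bool, Set.InjOn p B ∧ (∀ v ∈ F, (p v).1 = 0) ∧
          ∀ u ∈ B, ∀ v ∈ B, G u v → (p u).1 ≤ (p v).1 + 1 := by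
      rintro F hF ⟨a, ha⟩ h2 h3
      obtain ⟨F', hF'⟩ : ∃ F', F' = (B \ F).filter fun u => ∃ v ∈ F, G v u := ⟨_, rfl⟩
      rw [← hF'] at h3
      have h4 : (((B \ F) \ F').filter fun u => ∃ v ∈ F', G v u).card ≤ 2 := by
        refine (card_le_card (t := F'.biUnion fun v => (B \ F).filter (G v)) fun u hu => ?_).trans
          ((card_biUnion_le_card_mul _ _ 1 fun v hv => ?_).trans (by omega))
        · obtain ⟨h5, v, hv, h6⟩ := mem_filter.1 hu
          exact mem_biUnion.2 ⟨v, hv, mem_filter.2 ⟨(mem_sdiff.1 h5).1, h6⟩⟩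
        · obtain ⟨_, w, hw, h6⟩ := mem_filter.1 (hF' ▸ hv)
          have h7 : ((B \ F).filter (G v)).card < (univ.filter (G v)).card :=
            card_lt_card ⟨filter_subset_filter _ (subset_univ _), fun h =>
              (mem_sdiff.1 (mem_filter.1 (h (mem_filter.2 ⟨mem_univ w, hs _ _ h6⟩))).1).2 hw⟩
          have := hd v
          omega
      obtain ⟨p, p1, p2, p3⟩ := ih (B \ F) (by
        have := card_sdiff_add_card_eq_card hF
        have := card_pos.2 ⟨a, ha⟩
        omega) F' (hF' ▸ filter_subset _ _) h3 h4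
      refine ⟨fun v => if v ∈ F then (0, decide (v = a)) else ((p v).1 + 1, (p v).2),
        fun u hu v hv h => ?_, fun v hv => by simp [hv], fun u hu v hv h => ?_⟩
      · by_cases hu' : u ∈ F <;> by_cases hv' : v ∈ F <;> simp only [hu', hv', if_true, if_false,
          Prod.mk.injEq] at h
        · by_contra hne
          have h5 : (u = a ↔ v = a) := by simpa using h
          have h6 : u ≠ a := fun e => hne (e.trans (h5.1 e).symm)
          have h7 : v ≠ a := fun e => h6 (h5.2 e)
          have := two_lt_card.2 ⟨u, hu', v, hv', a, ha, hne, h6, h7⟩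
          omega
        · omega
        · omega
        · exact p1 (mem_sdiff.2 ⟨hu, hu'⟩) (mem_sdiff.2 ⟨hv, hv'⟩) (Prod.ext (by omega) h.2)
      · by_cases hu' : u ∈ F <;> by_cases hv' : v ∈ F <;> simp only [hu', hv', if_true, if_false]
        · omega
        · omega
        · have := p2 u (hF' ▸ mem_filter.2 ⟨mem_sdiff.2 ⟨hu, hu'⟩, v, hv', hs _ _ h⟩)
          omega
        · have := p3 u (mem_sdiff.2 ⟨hu, hu'⟩) v (mem_sdiff.2 ⟨hv, hv'⟩) h
          omega
    intro F hF h2 h3
    rcases F.eq_empty_or_nonempty with rfl | hne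
    · rcases B.eq_empty_or_nonempty with rfl | ⟨v, hv⟩
      · exact ⟨fun _ => (0, true), by simp, by simp, by simp⟩
      · obtain ⟨p, p1, _, p3⟩ := key {v} (singleton_subset_iff.2 hv) (singleton_nonempty v) (by simp)
          ((card_le_card fun u hu => mem_filter.2 ⟨mem_univ u, by
            simpa using (mem_filter.1 hu).2⟩).trans (hd v))
        exact ⟨p, p1, by simp, p3⟩
    · exact key F hF hne h2 h3

open Classical in
/-- a partition with the fewest edges inside the classes -/
theorem cover_deg_part {W : Type} [Fintype W] (K : SimpleGraph W) (m : ℕ) (hm : 0 < m)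
    (hd : ∀ v, (univ.filter (K.Adj v)).card < 3 * m) :
    ∃ c : W → Fin m, ∀ v, (univ.filter fun w => K.Adj v w ∧ c v = c w).card ≤ 2 := by
  obtain ⟨c, -, hc⟩ := exists_min_image (univ : Finset (W → Fin m))
    (fun c => ∑ x, ∑ y, if K.Adj x y ∧ c x = c y then (1 : ℤ) else 0) ⟨fun _ => ⟨0, hm⟩, mem_univ _⟩
  refine ⟨c, fun v => ?_⟩
  have h1 : ∀ i, (univ.filter fun w => K.Adj v w ∧ c v = c w).card ≤
      ((univ.filter (K.Adj v)).filter fun w => c w = i).card := fun i => by
    obtain ⟨t, ht⟩ : ∃ t : W → ℤ, t = fun y => (if K.Adj v y ∧ c y = i then 1 else 0) -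
      (if K.Adj v y ∧ c v = c y then 1 else 0) := ⟨_, rfl⟩
    have h : ∀ x y, (if K.Adj x y ∧ Function.update c v i x = Function.update c v i y then (1 : ℤ)
        else 0) = (if K.Adj x y ∧ c x = c y then 1 else 0) + (if x = v then t y else 0) +
          if y = v then t x else 0 := fun x y => by
      by_cases hx : x = v <;> by_cases hy : y = v
      · simp [hx, hy, ht]
      · simp [hx, hy, ht, eq_comm (a := i)]
      · simp [hx, hy, ht, K.adj_comm x v, eq_comm (a := c x) (b := c v)]
      · simp [hx, hy]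
    have h2 := hc (Function.update c v i) (mem_univ _)
    simp only [h, sum_add_distrib, sum_ite_eq', mem_univ, if_true] at h2
    rw [sum_comm (f := fun x y => if x = v then t y else 0)] at h2
    simp only [sum_ite_eq', mem_univ, if_true] at h2
    have h3 : 0 ≤ ∑ y, t y := by linarith
    rw [ht, sum_sub_distrib, sum_boole, sum_boole] at h3
    rw [filter_filter]
    exact_mod_cast sub_nonneg.1 h3
  have h2 := card_eq_sum_card_fiberwise (s := univ.filter (K.Adj v)) (t := univ) (f := c)
    fun _ _ => mem_univ _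
  have h3 := card_nsmul_le_sum univ _ _ fun i _ => h1 i
  rw [← h2, card_univ, Fintype.card_fin, smul_eq_mul] at h3
  have h4 := hd v
  by_contra h5
  have := Nat.mul_le_mul_left m (show 3 ≤ (univ.filter fun w => K.Adj v w ∧ c v = c w).card by omega)
  omega

theorem cover_deg : CoverDeg := by
  classical
  intro W _ K k hd
  have := Fintype.ofFinite W
  obtain ⟨c, hc⟩ := cover_deg_part K (2 ^ k) (by positivity) fun v => by
    have := hd v
    rwa [Set.ncard_eq_toFinset_card', show (K.neighborSet v).toFinset = univ.filter (K.Adj v) by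
      ext w; simp] at this
  obtain ⟨p, p1, -, p3⟩ := cover_deg_layer (fun v w => K.Adj v w ∧ c v = c w)
    (fun u v h => ⟨h.1.symm, h.2.symm⟩) (fun v => le_of_eq_of_le (congrArg card (by
      ext w; simp only [mem_filter])) (hc v)) _ univ le_rfl ∅
    (empty_subset _) (by simp) (by simp)
  have inj : ∀ u v, (p u).1 = (p v).1 → (p u).2 = (p v).2 → u = v := fun u v h1 h2 =>
    p1 (mem_univ u) (mem_univ v) (Prod.ext h1 h2)
  refine ⟨c, fun v => ((p v).1, if (p v).2 then 1 else 0), fun u v h => ?_, fun u v h e => ?_⟩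
  · simp only [Prod.mk.injEq, Nat.cast_inj] at h
    refine inj u v h.1 ?_
    have := h.2
    cases h1 : (p u).2 <;> cases h2 : (p v).2 <;> simp_all
  · have h1 := p3 u (mem_univ _) v (mem_univ _) ⟨h, e⟩
    have h2 := p3 v (mem_univ _) u (mem_univ _) ⟨h.symm, e.symm⟩
    have h3 := fun a b => h.ne (inj u v a b)
    have h4 : (p u).1 = (p v).1 ∨ (((p u).1 : ℤ) - (p v).1) ^ 2 = 1 := by
      rcases (by omega : (p u).1 = (p v).1 ∨ (p u).1 = (p v).1 + 1 ∨ (p v).1 = (p u).1 + 1) with
        h5 | h5 | h5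
      · exact Or.inl h5
      · exact Or.inr (by rw [h5]; push_cast; ring)
      · exact Or.inr (by rw [h5]; push_cast; ring)
    rcases h4 with h4 | h4
    · refine ⟨0, ?_⟩
      have := h3 h4
      cases h5 : (p u).2 <;> cases h6 : (p v).2 <;> simp_all
    · by_cases h5 : (p u).2 = (p v).2
      · exact ⟨0, by simp [h4, h5]⟩
      · refine ⟨1, ?_⟩
        simp only [h4]
        cases h6 : (p u).2 <;> cases h7 : (p v).2 <;> simp_all

end Pool.Agent.MP_257582_lc.E99
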