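import Pool.Agent.MP_257582_lc.E99.Defs

set_option autoImplicit false

namespace Pool.Agent.MP_257582_lc.E99

open Finset SimpleGraph

theorem FER_pow {R : Type} [CommRing R] {I : R} {M : ℕ} (hI : I * I = -1) (hM : (1 + I) ^ M = I)
    (e : ℕ) : ∀ x y : ℤ, x ^ 2 + y ^ 2 = 2 ^ e → ∃ c : ℕ, (x : R) + y * I = (1 + I) ^ c := by
  induction e with
  | zero =>
    intro x y h
    have h1 : x ≤ 1 := by nlinarith
    have h2 : -1 ≤ x := by nlinarith
    have h3 : y ≤ 1 := by nlinarith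
    have h4 : -1 ≤ y := by nlinarith
    interval_cases x <;> interval_cases y <;> try (norm_num at h)
    · exact ⟨M * 2, by rw [pow_mul, hM]; push_cast; linear_combination -hI⟩
    · exact ⟨M * 3, by rw [pow_mul, hM]; push_cast; linear_combination -I * hI⟩
    · exact ⟨M, by rw [hM]; push_cast; ring⟩
    · exact ⟨0, by push_cast; ring⟩
  | succ e ih =>
    intro x y h
    obtain ⟨t, ht⟩ : Even (x + y) :=
      (Int.even_pow' two_ne_zero).1 ⟨2 ^ e + x * y, by linear_combination h⟩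
    obtain rfl : x = t - (y - t) := by linarith
    obtain ⟨c, hc⟩ := ih t (y - t) (by nlinarith [pow_succ (2 : ℤ) e])
    exact ⟨c + 1, by rw [pow_succ, ← hc]; push_cast; linear_combination (t - y : R) * hI⟩

theorem FER_fer {r J : ℕ} (h : r ∣ Nat.fermatNumber (J + 3)) : Fer r := by
  have h0 : (2 : ZMod r) ^ 2 ^ (J + 3) = -1 := by
    rw [eq_neg_iff_add_eq_zero]
    exact_mod_cast (ZMod.natCast_eq_zero_iff (2 ^ 2 ^ (J + 3) + 1) r).2 h
  obtain ⟨I, hI⟩ : ∃ I : ZMod r, I = 2 ^ 2 ^ (J + 2) := ⟨_, rfl⟩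
  have h1 : I * I = -1 := by rw [hI, ← h0, ← pow_add, pow_succ 2 (J + 2), mul_two]
  have h2 : (1 + I) ^ 8 = 2 ^ 4 := by
    have : (1 + I) ^ 2 = 2 * I := by linear_combination h1
    rw [show 8 = 2 * 4 from rfl, pow_mul, this]
    linear_combination 16 * (I * I - 1) * h1
  have h3 : (1 + I) ^ (8 * 2 ^ J) = I := by
    rw [pow_mul, h2, ← pow_mul, hI, pow_add, mul_comm]
    rfl
  have h4 : (1 + I) ^ 2 ^ (J + 5) = 1 := by
    rw [show 2 ^ (J + 5) = 8 * 2 ^ J * 4 by ring, pow_mul, h3]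
    linear_combination (I * I - 1) * h1
  have hu : IsUnit (1 + I) := IsUnit.of_pow_eq_one h4 (by positivity)
  exact ⟨hu.unit, J + 5, I, Units.ext (by simpa using h4), h1, fun x y e hxy =>
    FER_pow h1 h3 e x y hxy⟩

theorem fer : FER := by
  intro D a
  have pr : ∀ n, (Nat.fermatNumber n).minFac.Prime := fun n =>
    Nat.minFac_prime (Nat.fermatNumber_ne_one n)
  refine ⟨fun j => (Nat.fermatNumber (j + a + D + 3)).minFac, fun i j hij => ?_, fun j => ?_⟩
  · by_contra hne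
    have hc := Nat.coprime_fermatNumber_fermatNumber
      (show i + a + D + 3 ≠ j + a + D + 3 by omega)
    have e : (Nat.fermatNumber (i + a + D + 3)).minFac =
      (Nat.fermatNumber (j + a + D + 3)).minFac := hij
    exact (pr _).one_lt.ne' (Nat.eq_one_of_dvd_coprimes hc (Nat.minFac_dvd _)
      (e ▸ Nat.minFac_dvd _))
  · obtain ⟨k, hk⟩ := Nat.fermat_primeFactors_one_lt (j + a + D + 3) _ (by omega) (pr _)
      (Nat.minFac_dvd _)
    have h1 := (pr (j + a + D + 3)).one_lt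
    refine ⟨pr _, ?_, ?_, FER_fer (Nat.minFac_dvd _)⟩
    · have h2 : j + a + D + 3 + 2 < 2 ^ (j + a + D + 3 + 2) := Nat.lt_two_pow_self
      have h3 : 0 < k := Nat.pos_of_ne_zero fun h => by rw [hk, h] at h1; omega
      have h4 := Nat.le_mul_of_pos_left (2 ^ (j + a + D + 3 + 2)) h3
      show D < (Nat.fermatNumber (j + a + D + 3)).minFac
      omega
    · show (Nat.fermatNumber (j + a + D + 3)).minFac ≡ 1 [MOD 2 ^ a]
      rw [hk]
      exact ((Nat.modEq_iff_dvd' (by omega)).2 ⟨k * 2 ^ (j + D + 5), by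
        rw [Nat.add_sub_cancel]; ring⟩).symm

theorem emb : EMB := by
  intro W K p r u I S hr hp hlt hK hI hu hT hS hm
  have : Fact r.Prime := ⟨hr⟩
  obtain ⟨a, b, hab⟩ : ∃ a b, S.Adj a b := by
    by_contra hc
    exact hS (by ext a b; exact ⟨fun h => hc ⟨a, b, h⟩, fun h => h.elim⟩)
  have h0 : S.Adj 0 (b - a) := by simpa [sub_eq_add_neg] using hT (-a) a b hab
  have hd : b - a ≠ 0 := h0.ne'
  have hc : ∀ c : ℕ, S.Adj 0 ((u : ZMod r) ^ c * (b - a)) := fun c => by
    induction c with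
    | zero => simpa using h0
    | succ c ih => simpa [pow_succ', mul_assoc] using hm _ _ ih
  refine ⟨⟨⟨fun w => (b - a) * (((p w).1 : ZMod r) + (p w).2 * I), fun {v w} h => ?_⟩,
    fun v w h => hp ?_⟩⟩
  · obtain ⟨e, he⟩ := hK v w h
    obtain ⟨c, hc'⟩ := hu _ _ e he
    have := hT ((b - a) * (((p w).1 : ZMod r) + (p w).2 * I)) _ _ (hc c)
    rw [zero_add, ← hc', show ((((p v).1 - (p w).1 : ℤ) : ZMod r) + ((p v).2 - (p w).2 : ℤ) * I) *
      (b - a) + (b - a) * (((p w).1 : ZMod r) + (p w).2 * I) =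
        (b - a) * (((p v).1 : ZMod r) + (p v).2 * I) by push_cast; ring] at this
    exact this.symm
  · have h1 : ((p v).1 : ZMod r) + (p v).2 * I = (p w).1 + (p w).2 * I := mul_left_cancel₀ hd h
    have h2 : ((((p v).1 - (p w).1) ^ 2 + ((p v).2 - (p w).2) ^ 2 : ℤ) : ZMod r) = 0 := by
      push_cast
      linear_combination (((p v).1 : ZMod r) - (p w).1 - ((p v).2 - (p w).2) * I) * h1 +
        (((p v).2 : ZMod r) - (p w).2) ^ 2 * hI
    have h3 := Int.eq_zero_of_dvd_of_nonneg_of_lt (by positivity) (hlt v w)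
      ((ZMod.intCast_zmod_eq_zero_iff_dvd _ r).1 h2)
    exact Prod.ext (by nlinarith [sq_nonneg ((p v).1 - (p w).1), sq_nonneg ((p v).2 - (p w).2)])
      (by nlinarith [sq_nonneg ((p v).1 - (p w).1), sq_nonneg ((p v).2 - (p w).2)])

end Pool.Agent.MP_257582_lc.E99
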