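import Pool.Agent.MP_257582_lc.E99.Par

set_option autoImplicit false

namespace Pool.Agent.MP_257582_lc.E99

open Finset SimpleGraph
open Pool.Agent.MP_257582_lc.H99 (aut)

lemma top_glue {X : Type} {B : X → Type} (e : ∀ t, Equiv.Perm (B t)) (E : SimpleGraph X)
    {S : ∀ t, SimpleGraph (B t)} (h : ∀ t x y, (S t).Adj x y → (S t).Adj (e t x) (e t y)) :
    Equiv.sigmaCongrRight e ∈ aut (glue E S) := by
  rintro x y (h' | ⟨t, a, b, rfl, rfl, h'⟩)
  · exact Or.inl h'
  · exact Or.inr ⟨t, e t a, e t b, rfl, rfl, h t a b h'⟩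

lemma top_pow {X : Type} {B : X → Type} {e : ∀ t, Equiv.Perm (B t)} {G : SimpleGraph (Σ t, B t)}
    (h : Equiv.sigmaCongrRight e ∈ aut G) (j : ℕ) {t t' : X} {a : B t} {b : B t'}
    (hab : G.Adj ⟨t, a⟩ ⟨t', b⟩) : G.Adj ⟨t, (e t ^ j) a⟩ ⟨t', (e t' ^ j) b⟩ := by
  induction j with
  | zero => exact hab
  | succ j ih =>
    rw [pow_succ', pow_succ']
    exact h _ _ ih

lemma top_val {K : Type} [Field K] (h : (2 : K) = 0) (z z' : ZMod 2) :
    (((z + z').val : ℕ) : K) = (z.val : ℕ) + (z'.val : ℕ) := by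
  have h1 : z.val + z'.val = (z + z').val + 2 * ((z.val + z'.val) / 2) := by
    rw [ZMod.val_add, Nat.mod_add_div]
  have h2 := congrArg (Nat.cast : ℕ → K) h1
  push_cast at h2
  rw [h2, h, zero_mul, add_zero]

theorem top : TOP := by
  intro n d f X _ B _ _ big hf hd hn h2 h3 h4
  classical
  have : Fact (Nat.Prime 2) := ⟨Nat.prime_two⟩
  have hB : ∀ t, Fintype (B t) := fun t => Fintype.ofFinite _
  choose w hw using fun t => IsCyclic.exists_monoid_generator (α := (B t)ˣ)
  obtain ⟨α, a1, a2, a3, a4⟩ : ∃ α : ((Σ t, B t) → ZMod 2) → ∀ t, B t, α 0 = 0 ∧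
      (∀ c c', α (c + c') = α c + α c') ∧ (∀ c t, ¬ big t → α c t = 0) ∧
      ∀ b : ∀ t, B t, (∀ t, ¬ big t → b t = 0) → ∃ c, α c = b := by
    refine ⟨fun c t => if big t then ∑ y, ((c ⟨t, y⟩).val : B t) * y else 0, ?_, fun c c' => ?_,
      fun c t ht => if_neg ht, fun b hb => ⟨fun v => if v.2 = b v.1 then 1 else 0, ?_⟩⟩
    · funext t
      simp
    · funext t
      rw [Pi.add_apply]
      beta_reduce
      split_ifs with ht
      · rw [← sum_add_distrib]
        exact sum_congr rfl fun y _ => by rw [Pi.add_apply, top_val (h2 t ht), add_mul]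
      · rw [add_zero]
    · funext t
      beta_reduce
      by_cases ht : big t
      · rw [if_pos ht, sum_eq_single (b t) (fun y _ hy => by simp [hy]) fun h => absurd (mem_univ _) h]
        simp [ZMod.val_one]
      · rw [if_neg ht, hb t ht]
  obtain ⟨γ, g1, g2⟩ : ∃ γ : ∀ t, Equiv.Perm (B t), (∀ t, big t → ∀ x, γ t x = w t * x) ∧
      ∀ t, ¬ big t → ∀ x, γ t x = x + 1 :=
    ⟨fun t => if big t then (w t).mulLeft else Equiv.addRight 1,
      fun t ht x => by simp only [if_pos ht]; rfl, fun t ht x => by simp only [if_neg ht]; rfl⟩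
  have g3 : ∀ t, big t → ∀ (j : ℕ) x, (γ t ^ j) x = (w t ^ j : (B t)ˣ) * x := fun t ht j x => by
    induction j with
    | zero => simp
    | succ j ih => rw [pow_succ', Equiv.Perm.mul_apply, ih, g1 t ht, pow_succ', Units.val_mul, mul_assoc]
  have g4 : ∀ t, ¬ big t → ∀ (j : ℕ) x, (γ t ^ j) x = x + j := fun t ht j x => by
    induction j with
    | zero => simp
    | succ j ih => rw [pow_succ', Equiv.Perm.mul_apply, ih, g2 t ht, Nat.cast_succ, add_assoc]
  have h1 := graph_even hf hd (X := Σ t, B t) (Nat.card_sigma.trans hn) (p := 2)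
    (φ := fun c => Equiv.sigmaCongrRight fun t => Equiv.addRight (α c t))
    (g := Equiv.sigmaCongrRight γ)
    (Equiv.ext fun ⟨t, x⟩ => congrArg (Sigma.mk t) (by simp [a1]))
    (fun c c' => Equiv.ext fun ⟨t, x⟩ => congrArg (Sigma.mk t) (by
      change x + α (c + c') t = x + α c' t + α c t
      rw [a2, Pi.add_apply]
      ring))
    (fun c => by
      obtain ⟨c', hc'⟩ := a4 (fun t => w t * α c t) fun t ht => by rw [a3 c t ht, mul_zero]
      refine ⟨c', Equiv.ext fun ⟨t, x⟩ => congrArg (Sigma.mk t) ?_⟩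
      change γ t (x + α c t) = γ t x + α c' t
      by_cases ht : big t
      · rw [g1 t ht, g1 t ht, hc', mul_add]
      · rw [a3 c t ht, a3 c' t ht, add_zero, add_zero])
  rw [← h1]
  refine congrArg _ (Set.ncard_congr (fun p _ => glue p.1 p.2) (fun p hp => ⟨⟨fun c =>
    top_glue _ _ fun t x y h => (hp.1 t).1 _ x y h, top_glue _ _ fun t x y h => ?_⟩, hp.2⟩)
    (fun p p' _ _ e => ?_) fun G hG => ?_)
  · by_cases ht : big t
    · rcases (hp.1 t).2 ht with e | e
      · rw [e] at h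
        exact h.elim
      · rw [e]
        exact (γ t).injective.ne h.ne
    · rw [g2 t ht, g2 t ht]
      exact (hp.1 t).1 1 x y h
  · have e1 : glue p.1 p.2 = glue p'.1 p'.2 := e
    refine Prod.ext ?_ (funext fun t => ?_)
    · ext t t'
      by_cases h : t = t'
      · rw [h]; simp
      · have k1 := glue_ne p.1 p.2 (x := ⟨t, 0⟩) (y := ⟨t', 0⟩) h
        have k2 := glue_ne p'.1 p'.2 (x := ⟨t, 0⟩) (y := ⟨t', 0⟩) h
        rw [e1] at k1
        exact k1.symm.trans k2
    · ext a b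
      rw [← glue_same p.1 p.2, e1, glue_same]
  · obtain ⟨⟨i1, i2⟩, i3⟩ := hG
    have tr : ∀ t, big t → ∀ (c : B t) t₁ t₂ a b, G.Adj ⟨t₁, a⟩ ⟨t₂, b⟩ →
        G.Adj ⟨t₁, a + (Pi.single t c : ∀ t, B t) t₁⟩ ⟨t₂, b + (Pi.single t c : ∀ t, B t) t₂⟩ :=
      fun t ht c t₁ t₂ a b h => by
        obtain ⟨c', hc'⟩ := a4 (Pi.single t c) fun t' ht' =>
          Pi.single_eq_of_ne (fun e : t' = t => ht' (e ▸ ht)) _
        rw [← hc']
        exact i1 c' _ _ h
    have l1 : ∀ t t' a a' b, big t → t ≠ t' → G.Adj ⟨t, a⟩ ⟨t', b⟩ → G.Adj ⟨t, a'⟩ ⟨t', b⟩ :=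
      fun t t' a a' b ht h hab => by
        have := tr t ht (a' - a) _ _ _ _ hab
        rwa [Pi.single_eq_same, Pi.single_eq_of_ne h.symm, add_zero, add_sub_cancel] at this
    have l2 : ∀ t t' a a' b, t ≠ t' → G.Adj ⟨t, a⟩ ⟨t', b⟩ → G.Adj ⟨t, a'⟩ ⟨t', b⟩ :=
      fun t t' a a' b h hab => by
        by_cases ht : big t
        · exact l1 t t' a a' b ht h hab
        · by_cases ht' : big t'
          · obtain ⟨k, hk⟩ := h3 t ht (a' - a)
            have := top_pow i2 k hab
            rw [g4 t ht, hk, add_sub_cancel] at this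
            exact (l1 t' t _ b a' ht' h.symm this.symm).symm
          · obtain ⟨k, k1, k2⟩ := h4 t t' ht ht' h (a' - a) 0
            have := top_pow i2 k hab
            rwa [g4 t ht, g4 t' ht', k1, k2, add_zero, add_sub_cancel] at this
    have ti : ∀ t, TI (G.comap (Sigma.mk t)) := fun t c x y h => by
      by_cases ht : big t
      · have := tr t ht c _ _ _ _ h
        rwa [Pi.single_eq_same] at this
      · obtain ⟨k, hk⟩ := h3 t ht c
        have := top_pow i2 k h
        rwa [g4 t ht, g4 t ht, hk] at this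
    let E : SimpleGraph X :=
      { Adj := fun t t' => t ≠ t' ∧ ∃ a b, G.Adj ⟨t, a⟩ ⟨t', b⟩
        symm := ⟨fun _ _ ⟨h, a, b, h'⟩ => ⟨h.symm, b, a, h'.symm⟩⟩
        loopless := ⟨fun _ h => h.1 rfl⟩ }
    have e : (glue E fun t => G.comap (Sigma.mk t)) = G := by
      ext ⟨t, a⟩ ⟨t', b⟩
      by_cases h : t = t'
      · subst h
        rw [glue_same, SimpleGraph.comap_adj]
      · rw [glue_ne _ _ h]
        exact ⟨fun ⟨_, a', b', h'⟩ =>
          (l2 t' t b' b a (Ne.symm h) (l2 t t' a' a b' h h').symm).symm, fun h' => ⟨h, a, b, h'⟩⟩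
    refine ⟨(E, fun t => G.comap (Sigma.mk t)), ⟨fun t => ⟨ti t, fun ht => ?_⟩, ?_⟩, e⟩
    · refine or_iff_not_imp_left.2 fun h0 => ?_
      obtain ⟨x, y, hxy⟩ := SimpleGraph.ne_bot_iff_exists_adj.1 h0
      have h5 : y - x ≠ 0 := sub_ne_zero.2 hxy.ne'
      refine top_unique fun a b hab => ?_
      obtain ⟨j, hj⟩ := hw t (Units.mk0 _ (div_ne_zero (sub_ne_zero.2 (Ne.symm hab)) h5))
      have h6 := top_pow i2 j hxy
      rw [g3 t ht, g3 t ht, show w t ^ j = _ from hj, Units.val_mk0] at h6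
      have h7 := ti t (a - (b - a) / (y - x) * x) _ _ h6
      rwa [add_sub_cancel, show (b - a) / (y - x) * y + (a - (b - a) / (y - x) * x) =
        a + (b - a) / (y - x) * (y - x) by ring, div_mul_cancel₀ _ h5, add_sub_cancel] at h7
    · change InG f (glue E fun t => G.comap (Sigma.mk t))
      rw [e]
      exact i3

end Pool.Agent.MP_257582_lc.E99
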