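import Pool.Agent.MP_257582_lc.E99.Defs

set_option autoImplicit false

namespace Pool.Agent.MP_257582_lc.E99

open Finset SimpleGraph

theorem zer_sum {α B : Type} [CommRing B] (h2 : (2 : B) = 0) (σ : α → α) (f : α → B)
    (hf : ∀ a, f (σ a) = f a) (b : ℕ) (s : Finset α) (h0 : ∀ a ∈ s, σ a = a → f a = 0)
    (h1 : ∀ a ∈ s, σ a ∈ s) (h3 : ∀ a ∈ s, σ^[2 ^ b] a = a) : ∑ a ∈ s, f a = 0 := by
  classical
  have it : ∀ n a, f (σ^[n] a) = f a := by
    intro n a
    induction n with
    | zero => rfl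
    | succ n ih => rw [Function.iterate_succ_apply', hf, ih]
  induction b generalizing s with
  | zero => exact sum_eq_zero fun a ha => h0 a ha (by simpa using h3 a ha)
  | succ b ih =>
    have mem : ∀ n, ∀ a ∈ s, σ^[n] a ∈ s := by
      intro n a ha
      induction n with
      | zero => exact ha
      | succ n ih => rw [Function.iterate_succ_apply']; exact h1 _ ih
    have tw : ∀ a ∈ s, σ^[2 ^ b] (σ^[2 ^ b] a) = a := by
      intro a ha
      rw [← Function.iterate_add_apply, ← two_mul, ← pow_succ']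
      exact h3 a ha
    rw [← sum_filter_add_sum_filter_not s fun a => σ^[2 ^ b] a = a,
      ih (s.filter fun a => σ^[2 ^ b] a = a) (fun a ha => h0 a (mem_filter.1 ha).1)
        (fun a ha => mem_filter.2 ⟨h1 a (mem_filter.1 ha).1, by
          rw [← Function.iterate_succ_apply, Function.iterate_succ_apply', (mem_filter.1 ha).2]⟩)
        fun a ha => (mem_filter.1 ha).2, zero_add]
    refine sum_involution (fun a _ => σ^[2 ^ b] a) (fun a _ => ?_)
      (fun a ha _ => (mem_filter.1 ha).2) (fun a ha => ?_) fun a ha => tw a (mem_filter.1 ha).1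
    · rw [it]
      linear_combination f a * h2
    · refine mem_filter.2 ⟨mem _ a (mem_filter.1 ha).1, fun e => (mem_filter.1 ha).2 ?_⟩
      rw [tw a (mem_filter.1 ha).1] at e
      exact e.symm

theorem zer : ZER := by
  intro W B _ g r u b h2 hr hu h
  have : NeZero r := ⟨hr.ne'⟩
  have fin : {S : SimpleGraph (ZMod r) | TI S ∧ S ≠ ⊥}.Finite := Set.toFinite _
  rw [zz, finsum_mem_eq_finite_toFinset_sum _ fin]
  have it : ∀ (n : ℕ) (S : SimpleGraph (ZMod r)) (x y : ZMod r),
      ((fun S : SimpleGraph (ZMod r) => S.comap fun x => (u : ZMod r) * x)^[n] S).Adj x y ↔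
        S.Adj ((u : ZMod r) ^ n * x) ((u : ZMod r) ^ n * y) := by
    intro n
    induction n with
    | zero => simp
    | succ n ih =>
      intro S x y
      rw [Function.iterate_succ_apply', comap_adj, ih, pow_succ, mul_assoc, mul_assoc]
  refine zer_sum h2 (fun S => S.comap fun x => (u : ZMod r) * x) (fun S => g (ty W S))
    (fun S => ?_) b _ (fun S hS e => ?_) (fun S hS => ?_) fun S _ => ?_
  · have i : (S.comap fun x => (u : ZMod r) * x) ≃g S := Iso.comap (Units.mulLeft u) S
    congr 1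
    ext K
    exact ⟨fun k => IsContained.trans k i.isContained, fun k => IsContained.trans k i.symm.isContained⟩
  · obtain ⟨a1, a2⟩ := fin.mem_toFinset.1 hS
    refine h S a1 a2 fun a b hab => ?_
    rw [← e] at hab
    exact hab
  · obtain ⟨a1, a2⟩ := fin.mem_toFinset.1 hS
    refine fin.mem_toFinset.2 ⟨fun c x y hxy => ?_, fun e => a2 ?_⟩
    · rw [comap_adj, mul_add, mul_add]
      exact a1 _ _ _ hxy
    · ext x y
      have := congrArg (fun G : SimpleGraph (ZMod r) =>
        G.Adj (((u⁻¹ : (ZMod r)ˣ) : ZMod r) * x) (((u⁻¹ : (ZMod r)ˣ) : ZMod r) * y)) e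
      simpa using this
  · ext x y
    rw [it, ← Units.val_pow_eq_pow_val, hu, Units.val_one, one_mul, one_mul]

theorem pig_toggle {ι T B : Type} [CommRing B] (h2 : (2 : B) = 0) (y : T → B) (t : ι → T)
    (s : Finset ι) : ∃ A : Finset T, ∑ i ∈ s, y (t i) = ∑ a ∈ A, y a := by
  classical
  induction s using Finset.induction_on with
  | empty => exact ⟨∅, rfl⟩
  | insert i s hi ih =>
    obtain ⟨A, hA⟩ := ih
    rw [sum_insert hi, hA]
    by_cases h : t i ∈ A
    · refine ⟨A.erase (t i), ?_⟩
      rw [← add_sum_erase A y h]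
      linear_combination y (t i) * h2
    · exact ⟨insert (t i) A, (sum_insert h).symm⟩

theorem pig : PIG := by
  intro W B _ _ y r h2 hr
  have ex : ∀ j, ∃ A : Finset (Set (SimpleGraph W)), zz y (r j) = ∑ a ∈ A, y a := by
    intro j
    have : NeZero (r j) := ⟨(hr j).ne'⟩
    have fin : {S : SimpleGraph (ZMod (r j)) | TI S ∧ S ≠ ⊥}.Finite := Set.toFinite _
    rw [zz, finsum_mem_eq_finite_toFinset_sum _ fin]
    exact pig_toggle h2 y (ty W) _
  choose A hA using ex
  obtain ⟨A0, h0⟩ := Finite.exists_infinite_fiber A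
  refine ⟨∑ a ∈ A0, y a, (Set.infinite_coe_iff.1 h0).mono fun j hj => ?_⟩
  have : A j = A0 := hj
  rw [Set.mem_ofPred_eq, hA, this]

end Pool.Agent.MP_257582_lc.E99
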