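import Pool.Agent.MP_257582_lc.E99.SWAP
import Pool.Agent.MP_257582_lc.E99.JN
import Pool.Agent.MP_257582_lc.E99.RING
import Pool.Agent.MP_257582_lc.E99.ALG
import Pool.Agent.MP_257582_lc.E99.FER
import Pool.Agent.MP_257582_lc.E99.ZER
import Pool.Agent.MP_257582_lc.E99.TOP
import Pool.Agent.MP_257582_lc.E99.CONT
import Pool.Agent.MP_257582_lc.E99.SUM
import Pool.Agent.MP_257582_lc.E99.KEY
import Pool.Agent.MP_257582_lc.E99.MAIN
import Pool.Agent.MP_257582_lc.E99.CoverCard
import Pool.Agent.MP_257582_lc.E99.CoverDegen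
import Pool.Agent.MP_257582_lc.E99.CoverDeg

set_option autoImplicit false

namespace Pool.Agent.MP_257582_lc.E99

theorem all : MAIN :=
  main jnrow tyrow (ring swap jnrow) alg fer emb zer pig (key top cont sum tyrow)

end Pool.Agent.MP_257582_lc.E99
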