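import Mathlib

/-! Classes of graphs that satisfy the drawing hypothesis. -/

set_option autoImplicit false

namespace Pool.Agent.MP_257582_lc.E99

/-- the drawing hypothesis of the main theorem -/
def Drawn {W : Type} (K : SimpleGraph W) (k : ℕ) : Prop :=
  ∃ (c : W → Fin (2 ^ k)) (p : W → ℤ × ℤ), Function.Injective p ∧ ∀ v w, K.Adj v w → c v = c w →
    ∃ e : ℕ, ((p v).1 - (p w).1) ^ 2 + ((p v).2 - (p w).2) ^ 2 = 2 ^ e

/-- few vertices -/
def CoverCard : Prop := ∀ (W : Type) [Finite W] (K : SimpleGraph W) (k : ℕ),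
  Nat.card W ≤ 5 * 2 ^ k → Drawn K k

/-- degenerate graphs -/
def CoverDegen : Prop := ∀ (W : Type) [Finite W] (K : SimpleGraph W) (k : ℕ) (r : W → ℕ),
  Function.Injective r → (∀ v, {w | K.Adj v w ∧ r w < r v}.ncard < 2 * 2 ^ k) → Drawn K k

/-- bounded degree -/
def CoverDeg : Prop := ∀ (W : Type) [Finite W] (K : SimpleGraph W) (k : ℕ),
  (∀ v, (K.neighborSet v).ncard < 3 * 2 ^ k) → Drawn K k

end Pool.Agent.MP_257582_lc.E99
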