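import Pool.Agent.MP_257582_lc.E99.Cover

/-! Classes of graphs that split into drawn parts and independent sets. -/

set_option autoImplicit false

namespace Pool.Agent.MP_257582_lc.E99

/-- the hypothesis of the second main theorem -/
def Drawn2 {W : Type} (K : SimpleGraph W) (k w : ℕ) : Prop :=
  ∃ (c : W → Fin (2 ^ k + w)) (p : W → ℤ × ℤ), Function.Injective p ∧ ∀ u v, K.Adj u v → c u = c v →
    (c u : ℕ) < 2 ^ k ∧ ∃ e : ℕ, ((p u).1 - (p v).1) ^ 2 + ((p u).2 - (p v).2) ^ 2 = 2 ^ e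

/-- the edges outside `I` -/
def cover2_off {W : Type} (K : SimpleGraph W) (I : Set W) : SimpleGraph W where
  Adj u v := K.Adj u v ∧ u ∉ I ∧ v ∉ I
  symm := ⟨fun _ _ h => ⟨h.1.symm, h.2.2, h.2.1⟩⟩
  loopless := ⟨fun _ h => h.1.ne rfl⟩

theorem cover2_zero {W : Type} {K : SimpleGraph W} {k : ℕ} (h : Drawn K k) : Drawn2 K k 0 := by
  obtain ⟨c, p, hp, h⟩ := h
  exact ⟨c, p, hp, fun u v ha hc => ⟨(c u).2, h u v ha hc⟩⟩

theorem cover2_step {W : Type} {K : SimpleGraph W} {k w : ℕ} (I : Set W)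
    (hI : ∀ u ∈ I, ∀ v ∈ I, ¬ K.Adj u v) (h : Drawn2 (cover2_off K I) k w) :
    Drawn2 K k (w + 1) := by
  classical
  obtain ⟨c, p, hp, h⟩ := h
  refine ⟨fun u => if u ∈ I then Fin.last (2 ^ k + w) else (c u).castSucc, p, hp,
    fun u v ha hc => ?_⟩
  by_cases hu : u ∈ I <;> by_cases hv : v ∈ I
  · exact absurd ha (hI u hu v hv)
  · simp only [hu, hv, if_true, if_false] at hc
    exact absurd hc.symm (Fin.castSucc_lt_last _).ne
  · simp only [hu, hv, if_true, if_false] at hc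
    exact absurd hc (Fin.castSucc_lt_last _).ne
  · simp only [hu, hv, if_false] at hc ⊢
    exact h u v ⟨ha, hu, hv⟩ (Fin.castSucc_injective _ hc)

theorem cover2_kernel {W : Type} (K : SimpleGraph W) (r : W → ℕ) (hr : Function.Injective r) :
    ∃ I : Set W, (∀ u ∈ I, ∀ v ∈ I, ¬ K.Adj u v) ∧ ∀ v ∉ I, ∃ u ∈ I, K.Adj v u ∧ r u < r v := by
  have wf : WellFounded fun u v : W => r u < r v := (measure r).wf
  obtain ⟨P, hP⟩ : ∃ P : W → Prop, ∀ v, P v ↔ ¬ ∃ u, r u < r v ∧ K.Adj v u ∧ P u := by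
    refine ⟨wf.fix fun v ih => ¬ ∃ u, ∃ h : r u < r v, K.Adj v u ∧ ih u h, fun v => ?_⟩
    rw [wf.fix_eq]
    simp only [exists_prop]
  refine ⟨{v | P v}, fun u hu v hv ha => ?_, fun v hv => ?_⟩
  · rcases lt_trichotomy (r u) (r v) with h | h | h
    · exact (hP v).1 hv ⟨u, h, ha.symm, hu⟩
    · exact ha.ne (hr h)
    · exact (hP u).1 hu ⟨v, h, ha, hv⟩
  · obtain ⟨u, h1, h2, h3⟩ := not_not.1 (mt (hP v).2 hv)
    exact ⟨u, h3, h2, h1⟩

/-- few vertices -/
theorem cover2_card (W : Type) [Finite W] (K : SimpleGraph W) (k w : ℕ)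
    (h : Nat.card W ≤ 5 * 2 ^ k + w) : Drawn2 K k w := by
  have := Fintype.ofFinite W
  obtain ⟨q, q1, q2, q3⟩ : ∃ q : Fin 5 → ℤ × ℤ, Function.Injective q ∧
      (∀ i, -1 ≤ (q i).1 ∧ (q i).1 ≤ 1 ∧ (q i).2 ≤ 1) ∧ ∀ i j, i ≠ j →
        ∃ e : Fin 3, ((q i).1 - (q j).1) ^ 2 + ((q i).2 - (q j).2) ^ 2 = 2 ^ (e : ℕ) :=
    ⟨![(0, 0), (1, 0), (-1, 0), (0, 1), (0, -1)], by decide, by decide, by decide⟩
  obtain ⟨e⟩ : Nonempty (W ↪ (Fin 5 × Fin (2 ^ k)) ⊕ Fin w) :=
    Function.Embedding.nonempty_of_card_le (by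
      rwa [Fintype.card_sum, Fintype.card_prod, Fintype.card_fin, Fintype.card_fin,
        Fintype.card_fin, ← Nat.card_eq_fintype_card])
  refine ⟨fun u => (e u).elim (fun x => Fin.castAdd w x.2) (fun j => Fin.natAdd (2 ^ k) j),
    fun u => (e u).elim
      (fun x : Fin 5 × Fin (2 ^ k) => ((q x.1).1 + 10 * (x.2.val : ℤ), (q x.1).2))
      (fun j : Fin w => ((j.val : ℤ), 5)), fun u v hp => e.injective ?_, fun u v ha hc => ?_⟩
  · dsimp only at hp
    generalize e u = a at hp ⊢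
    generalize e v = b at hp ⊢
    rcases a with a | a <;> rcases b with b | b <;>
      simp only [Sum.elim_inl, Sum.elim_inr, Prod.mk.injEq] at hp
    · have a1 := q2 a.1
      have a2 := q2 b.1
      rw [Prod.ext (q1 (Prod.ext (by omega) hp.2)) (Fin.ext (by omega) : a.2 = b.2)]
    · have a1 := q2 a.1
      omega
    · have a1 := q2 b.1
      omega
    · rw [(Fin.ext (by omega) : a = b)]
  · have hne : e u ≠ e v := fun z => ha.ne (e.injective z)
    dsimp only at hc ⊢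
    generalize e u = a at hc hne ⊢
    generalize e v = b at hc hne ⊢
    have hc' := congrArg Fin.val hc
    rcases a with a | a <;> rcases b with b | b <;>
      simp only [Sum.elim_inl, Sum.elim_inr, Fin.val_castAdd, Fin.val_natAdd] at hc' ⊢
    · have hab : a.2 = b.2 := Fin.ext hc'
      obtain ⟨i, hi⟩ := q3 a.1 b.1 fun z => hne (by rw [Prod.ext z hab])
      exact ⟨a.2.2, i, by rw [← hi, hab, add_sub_add_right_eq_sub]⟩
    · have := a.2.2
      omega
    · have := b.2.2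
      omega
    · exact absurd (by rw [(Fin.ext (by omega) : a = b)]) hne

/-- a small set whose removal leaves a colourable graph -/
theorem cover2_small (W : Type) [Finite W] (K : SimpleGraph W) (k w : ℕ) (A : Set W)
    (hA : A.ncard ≤ 2 ^ k) (h : (K.induce Aᶜ).Colorable (2 ^ k + w)) : Drawn2 K k w := by
  classical
  have := Fintype.ofFinite A
  obtain ⟨col⟩ := h
  obtain ⟨n, hn⟩ := Countable.exists_injective_nat W
  obtain ⟨e⟩ : Nonempty (A ↪ Fin (2 ^ k)) := Function.Embedding.nonempty_of_card_le (by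
    rwa [Fintype.card_fin, ← Nat.card_eq_fintype_card, Nat.card_coe_set_eq])
  obtain ⟨c, c1, c2⟩ : ∃ c : W → Fin (2 ^ k + w), (∀ u (hu : u ∈ A), c u = Fin.castAdd w (e ⟨u, hu⟩)) ∧
      ∀ u (hu : u ∉ A), c u = col ⟨u, hu⟩ :=
    ⟨fun u => if hu : u ∈ A then Fin.castAdd w (e ⟨u, hu⟩) else col ⟨u, hu⟩,
      fun u hu => dif_pos hu, fun u hu => dif_neg hu⟩
  have inj : ∀ u ∈ A, ∀ v ∈ A, c u = c v → u = v := fun u hu v hv hc => by
    rw [c1 u hu, c1 v hv] at hc
    exact congrArg Subtype.val (e.injective (Fin.castAdd_injective _ _ hc))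
  have lt : ∀ u ∈ A, (c u : ℕ) < 2 ^ k := fun u hu => by
    rw [c1 u hu]
    exact (e ⟨u, hu⟩).2
  have pos : ∀ u, (2 : ℤ) ^ n u ≠ 0 := fun u => by positivity
  refine ⟨c, fun u => (if u ∈ A then 0 else 2 ^ n u, ((c u : ℕ) : ℤ)), fun u v hp => ?_,
    fun u v ha hc => ?_⟩
  · obtain ⟨h1, h2⟩ := Prod.mk.inj hp
    by_cases hu : u ∈ A <;> by_cases hv : v ∈ A <;> simp only [hu, hv, if_true, if_false] at h1
    · exact inj u hu v hv (Fin.ext (by exact_mod_cast h2))
    · exact absurd h1.symm (pos v)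
    · exact absurd h1 (pos u)
    · exact hn (pow_right_injective₀ (by norm_num) (by norm_num) h1)
  · by_cases hu : u ∈ A <;> by_cases hv : v ∈ A
    · exact absurd (inj u hu v hv hc) ha.ne
    · refine ⟨lt u hu, n v * 2, ?_⟩
      simp only [hu, hv, if_true, if_false, hc, pow_mul]
      ring
    · refine ⟨hc ▸ lt v hv, n u * 2, ?_⟩
      simp only [hu, hv, if_true, if_false, hc, pow_mul]
      ring
    · rw [c2 u hu, c2 v hv] at hc
      exact absurd hc (col.valid (v := ⟨u, hu⟩) (w := ⟨v, hv⟩) ha)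

/-- degenerate graphs -/
theorem cover2_degen (h0 : CoverDegen) (W : Type) [Finite W] (k w : ℕ) (r : W → ℕ)
    (hr : Function.Injective r) : ∀ K : SimpleGraph W,
    (∀ v, {u | K.Adj v u ∧ r u < r v}.ncard < 2 * 2 ^ k + w) → Drawn2 K k w := by
  induction w with
  | zero => exact fun K h => cover2_zero (h0 W K k r hr h)
  | succ w ih =>
    intro K h
    obtain ⟨I, h1, h2⟩ := cover2_kernel K r hr
    refine cover2_step I h1 (ih _ fun v => ?_)
    by_cases hv : v ∈ I
    · have : {u | (cover2_off K I).Adj v u ∧ r u < r v} = ∅ :=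
        Set.eq_empty_of_forall_notMem fun u hu => hu.1.2.1 hv
      rw [this, Set.ncard_empty]
      positivity
    · obtain ⟨u, u1, u2, u3⟩ := h2 v hv
      have : {u | (cover2_off K I).Adj v u ∧ r u < r v} ⊂ {u | K.Adj v u ∧ r u < r v} :=
        ⟨fun x hx => ⟨hx.1.1, hx.2⟩, fun hs => (hs ⟨u2, u3⟩).1.2.2 u1⟩
      have h3 := Set.ncard_lt_ncard this (Set.toFinite _)
      have h4 := h v
      omega

/-- bounded degree -/
theorem cover2_deg (h0 : CoverDeg) (W : Type) [Finite W] (k w : ℕ) : ∀ K : SimpleGraph W,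
    (∀ v, (K.neighborSet v).ncard < 3 * 2 ^ k + w) → Drawn2 K k w := by
  obtain ⟨r, hr⟩ := Countable.exists_injective_nat W
  induction w with
  | zero => exact fun K h => cover2_zero (h0 W K k h)
  | succ w ih =>
    intro K h
    obtain ⟨I, h1, h2⟩ := cover2_kernel K r hr
    refine cover2_step I h1 (ih _ fun v => ?_)
    by_cases hv : v ∈ I
    · have : (cover2_off K I).neighborSet v = ∅ :=
        Set.eq_empty_of_forall_notMem fun u hu => hu.2.1 hv
      rw [this, Set.ncard_empty]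
      positivity
    · obtain ⟨u, u1, u2, -⟩ := h2 v hv
      have : (cover2_off K I).neighborSet v ⊂ K.neighborSet v :=
        ⟨fun x hx => hx.1, fun hs => (hs u2).2.2 u1⟩
      have h3 := Set.ncard_lt_ncard this (Set.toFinite _)
      have h4 := h v
      omega

end Pool.Agent.MP_257582_lc.E99
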