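import Pool.Agent.MP_257582_lc.E99.Cover

set_option autoImplicit false

namespace Pool.Agent.MP_257582_lc.E99

lemma cover_degen_step {W : Type} [Finite W] (K : SimpleGraph W) (k : ℕ) (r : W → ℕ)
    (hr : Function.Injective r) (h : ∀ v, {w | K.Adj v w ∧ r w < r v}.ncard < 2 * 2 ^ k) (n : ℕ) :
    ∃ (c : W → Fin (2 ^ k)) (X : W → ℕ), (∀ v, 2 ^ r v ≤ X v ∧ X v < 2 ^ (r v + 1)) ∧
      ∀ v w, r v < n → K.Adj v w → r w < r v → c v = c w → X v = X w + 2 ^ r v := by
  classical
  induction n with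
  | zero =>
    exact ⟨fun _ => ⟨0, by positivity⟩, fun v => 2 ^ r v,
      fun v => ⟨le_rfl, Nat.pow_lt_pow_right (by norm_num) (Nat.lt_succ_self _)⟩,
      fun v w hv => absurd hv (Nat.not_lt_zero _)⟩
  | succ n ih =>
    obtain ⟨c, X, h1, h2⟩ := ih
    by_cases hn : ∃ u, r u = n
    swap
    · exact ⟨c, X, h1, fun v w hv => h2 v w
        (lt_of_le_of_ne (Nat.lt_succ_iff.1 hv) fun e => hn ⟨v, e⟩)⟩
    obtain ⟨u, hu⟩ := hn
    have hf : {w | K.Adj u w ∧ r w < r u}.Finite := Set.toFinite _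
    obtain ⟨i, -, hi⟩ := Finset.exists_card_fiber_lt_of_card_lt_mul (s := hf.toFinset)
      (t := (Finset.univ : Finset (Fin (2 ^ k)))) (f := c) (n := 2) (by
        rw [Finset.card_univ, Fintype.card_fin, mul_comm, ← Set.ncard_eq_toFinset_card _ hf]
        exact h u)
    obtain ⟨a, ha, hb⟩ : ∃ a, a < 2 ^ r u ∧ ∀ w, K.Adj u w → r w < r u → c w = i → X w = a := by
      by_cases hw : ∃ w, K.Adj u w ∧ r w < r u ∧ c w = i
      · obtain ⟨w, w1, w2, w3⟩ := hw
        refine ⟨X w, (h1 w).2.trans_le (Nat.pow_le_pow_right (by norm_num) w2),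
          fun w' v1 v2 v3 => ?_⟩
        rw [Finset.card_le_one.1 (Nat.lt_succ_iff.1 hi) w' (by simp [v1, v2, v3]) w
          (by simp [w1, w2, w3])]
      · exact ⟨0, by positivity, fun w v1 v2 v3 => (hw ⟨w, v1, v2, v3⟩).elim⟩
    refine ⟨Function.update c u i, Function.update X u (a + 2 ^ r u), fun v => ?_,
      fun v w hv hvw hlt hc => ?_⟩
    · by_cases e : v = u
      · rw [e, Function.update_self, pow_succ]
        omega
      · rw [Function.update_of_ne e]
        exact h1 v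
    · have hwu : w ≠ u := fun e => by rw [e] at hlt; omega
      rw [Function.update_of_ne hwu] at hc ⊢
      by_cases e : v = u
      · rw [e, Function.update_self] at hc ⊢
        rw [e] at hvw hlt
        rw [hb w hvw hlt hc.symm]
      · rw [Function.update_of_ne e] at hc ⊢
        exact h2 v w (lt_of_le_of_ne (Nat.lt_succ_iff.1 hv) fun e' => e (hr (e'.trans hu.symm)))
          hvw hlt hc

theorem cover_degen : CoverDegen := by
  intro W _ K k r hr h
  obtain ⟨n, hn⟩ := (Set.finite_range r).bddAbove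
  obtain ⟨c, X, h1, h2⟩ := cover_degen_step K k r hr h (n + 1)
  have key : ∀ v w, K.Adj v w → r w < r v → c v = c w → (X v : ℤ) = X w + 2 ^ r v :=
    fun v w a b d => by
      exact_mod_cast h2 v w (Nat.lt_succ_of_le (hn ⟨v, rfl⟩)) a b d
  refine ⟨c, fun v => ((X v : ℤ), 0), fun v w e => hr ?_, fun v w hvw hc => ?_⟩
  · have e' : X v = X w := Int.natCast_inj.1 (congrArg Prod.fst e)
    have a1 := (Nat.pow_lt_pow_iff_right (by norm_num : 1 < 2)).1
      ((h1 v).1.trans_lt (e' ▸ (h1 w).2))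
    have a2 := (Nat.pow_lt_pow_iff_right (by norm_num : 1 < 2)).1
      ((h1 w).1.trans_lt (e' ▸ (h1 v).2))
    omega
  · rcases lt_trichotomy (r w) (r v) with hl | hl | hl
    · refine ⟨2 * r v, ?_⟩
      show ((X v : ℤ) - X w) ^ 2 + (0 - 0) ^ 2 = _
      rw [key v w hvw hl hc]
      ring
    · exact absurd (hr hl) hvw.ne'
    · refine ⟨2 * r w, ?_⟩
      show ((X v : ℤ) - X w) ^ 2 + (0 - 0) ^ 2 = _
      rw [key w v hvw.symm hl hc.symm]
      ring

end Pool.Agent.MP_257582_lc.E99
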