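import Pool.Agent.MP_257582_lc.H99.Top

/-! Forbidden subgraphs: node types, their algebra, and the statements of the steps. -/

set_option autoImplicit false

namespace Pool.Agent.MP_257582_lc.E99

open Finset SimpleGraph

variable {W : Type}

/-- the edges of `K` inside `A` -/
def res (K : SimpleGraph W) (A : Set W) : SimpleGraph W where
  Adj u v := K.Adj u v ∧ u ∈ A ∧ v ∈ A
  symm := ⟨fun _ _ h => ⟨h.1.symm, h.2.2, h.2.1⟩⟩
  loopless := ⟨fun _ h => h.1.ne rfl⟩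

/-- saturated node types -/
structure Good (T : Set (SimpleGraph W)) : Prop where
  bot : ⊥ ∈ T
  down : ∀ K K', K ≤ K' → K' ∈ T → K ∈ T
  sup : ∀ K K', K ∈ T → K' ∈ T → Disjoint K.support K'.support → K ⊔ K' ∈ T

/-- the type of the join of two nodes of type `T` -/
def jn (T : Set (SimpleGraph W)) : Set (SimpleGraph W) := {K | ∃ A, res K A ∈ T ∧ res K Aᶜ ∈ T}

/-- the graph with nodes of types `τ`, joined along `E`, contains `H` -/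
def Cont {X : Type} (H : SimpleGraph W) (E : SimpleGraph X) (τ : X → Set (SimpleGraph W)) : Prop :=
  ∃ ψ : W → X, (∀ u v, H.Adj u v → ψ u ≠ ψ v → E.Adj (ψ u) (ψ v)) ∧ ∀ t, res H (ψ ⁻¹' {t}) ∈ τ t

/-- parity of the number of free patterns -/
noncomputable def cnt (F : Set (SimpleGraph W)) {X : Type} (τ : X → Set (SimpleGraph W)) : ZMod 2 :=
  ({E : SimpleGraph X | ∀ H ∈ F, ¬ Cont H E τ}.ncard : ℕ)

/-- the type of a graph -/
def ty (W : Type) {Y : Type} (S : SimpleGraph Y) : Set (SimpleGraph W) := {K | K ⊑ S}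

/-- invariance under translations -/
def TI {Y : Type} [Add Y] (S : SimpleGraph Y) : Prop := ∀ c x y, S.Adj x y → S.Adj (x + c) (y + c)

def phi {B : Type} [CommRing B] (w : B) : B := w ^ 2 + w

/-- the graph built from a graph on the nodes and graphs inside the nodes -/
def glue {X : Type} {B : X → Type} (E : SimpleGraph X) (S : ∀ t, SimpleGraph (B t)) :
    SimpleGraph (Σ t, B t) where
  Adj x y := E.Adj x.1 y.1 ∨ ∃ t a b, x = ⟨t, a⟩ ∧ y = ⟨t, b⟩ ∧ (S t).Adj a b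
  symm := ⟨fun _ _ h => h.imp (fun h => h.symm) fun ⟨t, a, b, h1, h2, h3⟩ =>
    ⟨t, b, a, h2, h1, h3.symm⟩⟩
  loopless := ⟨fun _ h => h.elim (fun h => h.ne rfl) fun ⟨_, _, _, h1, h2, h3⟩ =>
    h3.ne (sigma_mk_injective (h1.symm.trans h2))⟩

lemma glue_same {X : Type} {B : X → Type} (E : SimpleGraph X) (S : ∀ t, SimpleGraph (B t)) (t : X)
    (a b : B t) : (glue E S).Adj ⟨t, a⟩ ⟨t, b⟩ ↔ (S t).Adj a b := by
  refine ⟨fun h => ?_, fun h => Or.inr ⟨t, a, b, rfl, rfl, h⟩⟩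
  rcases h with h | ⟨t', a', b', h1, h2, h3⟩
  · exact absurd rfl h.ne
  · cases h1
    cases h2
    exact h3

lemma glue_ne {X : Type} {B : X → Type} (E : SimpleGraph X) (S : ∀ t, SimpleGraph (B t))
    {x y : Σ t, B t} (h : x.1 ≠ y.1) : (glue E S).Adj x y ↔ E.Adj x.1 y.1 := by
  refine ⟨fun h' => ?_, Or.inl⟩
  rcases h' with h' | ⟨t, a, b, rfl, rfl, _⟩
  · exact h'
  · exact absurd rfl h

/-- the algebra of the node types -/
structure Alg (F : Set (SimpleGraph W)) {B : Type} [CommRing B] (y : Set (SimpleGraph W) → B)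
    (l : B →+ ZMod 2) : Prop where
  two : (2 : B) = 0
  join : ∀ T, Good T → y (jn T) = phi (y T)
  zero : ∀ T, Good T → ∀ H ∈ F, H ∈ T → y T = 0
  ev : ∀ (X : Type) [Fintype X] (τ : X → Set (SimpleGraph W)), (∀ t, Good (τ t)) →
    l (∏ t, y (τ t)) = cnt F τ

/-- the non-empty circulant graphs on `ZMod r` -/
noncomputable def zz {B : Type} [CommRing B] (y : Set (SimpleGraph W) → B) (r : ℕ) : B :=
  ∑ᶠ S ∈ {S : SimpleGraph (ZMod r) | TI S ∧ S ≠ ⊥}, y (ty W S)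

/-- Gaussian integers whose norm is a power of two become powers of one unit of two-power order -/
def Fer (r : ℕ) : Prop := ∃ (u : (ZMod r)ˣ) (b : ℕ) (I : ZMod r), u ^ 2 ^ b = 1 ∧ I * I = -1 ∧
  ∀ (x y : ℤ) (e : ℕ), x ^ 2 + y ^ 2 = 2 ^ e → ∃ c : ℕ, (x : ZMod r) + y * I = (u : ZMod r) ^ c

/-! ### rows -/

def SWAP : Prop := ∀ (W X : Type) [Finite W] [Finite X] (F : Set (SimpleGraph W))
  (τ : X → Set (SimpleGraph W)) (T : Set (SimpleGraph W)), (∀ t, Good (τ t)) → Good T →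
  cnt F (fun o : Option (Option X) => o.elim T fun o' => o'.elim T τ) =
    cnt F (fun o : Option X => o.elim T τ) + cnt F (fun o : Option X => o.elim (jn T) τ)

def JN : Prop := ∀ (W : Type), (∀ T : Set (SimpleGraph W), Good T → Good (jn T)) ∧
  Good ({⊥} : Set (SimpleGraph W)) ∧
  (∀ (d : ℕ) (T : Set (SimpleGraph W)) (K : SimpleGraph W) (c : W → ℕ), Good T → (∀ w, c w < 2 ^ d) →
    (∀ i, res K (c ⁻¹' {i}) ∈ T) → K ∈ jn^[d] T) ∧
  ∀ (d : ℕ) (K : SimpleGraph W), K ∈ jn^[d] {⊥} → K.Colorable (2 ^ d)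

def TY : Prop := ∀ (W Y : Type) [Finite W] [Finite Y] [AddCommGroup Y],
  Nat.card W ^ 2 < Nat.card Y → (∀ S : SimpleGraph Y, TI S → Good (ty W S)) ∧
    ty W (⊥ : SimpleGraph Y) = {⊥} ∧ ty W (⊤ : SimpleGraph Y) = Set.univ

def RING : Prop := ∀ (W : Type) [Finite W] (F : Set (SimpleGraph W)),
  ∃ (B : Type) (_ : CommRing B) (y : Set (SimpleGraph W) → B) (l : B →+ ZMod 2), Alg F y l

def ALG : Prop := ∀ (B : Type) [CommRing B], (2 : B) = 0 →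
  (∀ (s : ℕ) (a b : B), phi^[s] (a + b) = phi^[s] a + phi^[s] b) ∧
  (∀ (t : ℕ) (a : B), phi^[2 ^ t] a = a ^ 2 ^ 2 ^ t + a) ∧
  ∀ (l : B →+ ZMod 2) (x z : B) (s Q m k : ℕ), 0 < Q → x ^ (Q + 1) = x →
    (x + z) ^ (Q + 1) = x + z → phi^[s] z = 0 → l (phi^[s] x) = 1 → Q ∣ m → Q < k →
    ∃ j < Q, l (x ^ (k - j) * (x + z) ^ m) = 1

def FER : Prop := ∀ D a : ℕ, ∃ r : ℕ → ℕ, Function.Injective r ∧
  ∀ j, (r j).Prime ∧ D < r j ∧ r j ≡ 1 [MOD 2 ^ a] ∧ Fer (r j)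

def EMB : Prop := ∀ (W : Type) (K : SimpleGraph W) (p : W → ℤ × ℤ) (r : ℕ) (u : (ZMod r)ˣ)
  (I : ZMod r) (S : SimpleGraph (ZMod r)), r.Prime → Function.Injective p →
  (∀ v w, ((p v).1 - (p w).1) ^ 2 + ((p v).2 - (p w).2) ^ 2 < r) →
  (∀ v w, K.Adj v w → ∃ e : ℕ, ((p v).1 - (p w).1) ^ 2 + ((p v).2 - (p w).2) ^ 2 = 2 ^ e) →
  I * I = -1 → (∀ (x y : ℤ) (e : ℕ), x ^ 2 + y ^ 2 = 2 ^ e →
    ∃ c : ℕ, (x : ZMod r) + y * I = (u : ZMod r) ^ c) →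
  TI S → S ≠ ⊥ → (∀ a b, S.Adj a b → S.Adj (u * a) (u * b)) → K ⊑ S

/-- only the graphs invariant under a multiplier of two-power order count -/
def ZER : Prop := ∀ (W B : Type) [CommRing B] (g : Set (SimpleGraph W) → B) (r : ℕ) (u : (ZMod r)ˣ)
  (b : ℕ), (2 : B) = 0 → 0 < r → u ^ 2 ^ b = 1 →
  (∀ S : SimpleGraph (ZMod r), TI S → S ≠ ⊥ → (∀ a b, S.Adj a b → S.Adj (u * a) (u * b)) →
    g (ty W S) = 0) → zz g r = 0

def PIG : Prop := ∀ (W B : Type) [Finite W] [CommRing B] (y : Set (SimpleGraph W) → B) (r : ℕ → ℕ),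
  (2 : B) = 0 → (∀ j, 0 < r j) → ∃ z : B, {j | zz y (r j) = z}.Infinite

def TOP : Prop := ∀ (n d : ℕ) (f : SimpleGraph (Fin n) → Prop) (X : Type) [Fintype X]
  (B : X → Type) [∀ t, Field (B t)] [∀ t, Finite (B t)] (big : X → Prop), Setup n d f →
  d < n.choose 2 → ∑ t, Nat.card (B t) = n → (∀ t, big t → (2 : B t) = 0) →
  (∀ t, ¬ big t → ∀ c : B t, ∃ k : ℕ, (k : B t) = c) →
  (∀ t t', ¬ big t → ¬ big t' → t ≠ t' → ∀ (c : B t) (c' : B t'),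
    ∃ k : ℕ, (k : B t) = c ∧ (k : B t') = c') →
  (({p : SimpleGraph X × ∀ t, SimpleGraph (B t) |
    (∀ t, TI (p.2 t) ∧ (big t → p.2 t = ⊥ ∨ p.2 t = ⊤)) ∧ InG f (glue p.1 p.2)}.ncard : ℕ) :
      ZMod 2) = 0

def CONT : Prop := ∀ (W X : Type) [Finite W] (B : X → Type) [∀ t, Finite (B t)] (H : SimpleGraph W)
  (E : SimpleGraph X) (S : ∀ t, SimpleGraph (B t)), (∀ t, Nat.card W ≤ Nat.card (B t)) →
  (H ⊑ glue E S ↔ Cont H E fun t => ty W (S t))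

def SUM : Prop := ∀ (W X : Type) [Fintype X] (B : X → Type) [∀ t, Finite (B t)]
  (F : Set (SimpleGraph W)) (A : Type) [CommRing A] (y : Set (SimpleGraph W) → A)
  (l : A →+ ZMod 2) (I : ∀ t, Set (SimpleGraph (B t))), Alg F y l →
  (∀ t, ∀ S ∈ I t, Good (ty W S)) →
  (({p : SimpleGraph X × ∀ t, SimpleGraph (B t) |
    (∀ t, p.2 t ∈ I t) ∧ ∀ H ∈ F, ¬ Cont H p.1 fun t => ty W (p.2 t)}.ncard : ℕ) : ZMod 2) =
    l (∏ t, ∑ᶠ S ∈ I t, y (ty W S))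

/-- the necessary condition for a short strategy -/
def KEY : Prop := ∀ (W : Type) [Finite W] (F : Set (SimpleGraph W)) (A : Type) [CommRing A]
  (y : Set (SimpleGraph W) → A) (l : A →+ ZMod 2) (n d : ℕ) (f : SimpleGraph (Fin n) → Prop)
  (a k₁ k₂ : ℕ) (R : Finset ℕ), Alg F y l → F.Nonempty → Setup n d f → d < n.choose 2 →
  (∀ G, f G ↔ ∀ H ∈ F, ¬ H ⊑ G) → 0 < a → Nat.card W ^ 2 < 2 ^ a →
  (∀ r ∈ R, r.Prime ∧ Nat.card W ^ 2 < r) → n = k₁ * 2 ^ a + k₂ * 2 ^ (a + 1) + ∑ r ∈ R, r →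
  l (y {⊥} ^ (k₁ + k₂) * ∏ r ∈ R, (y {⊥} + zz y r)) = 0

def MAIN : Prop := ∀ (W : Type) [Finite W] (F : Set (SimpleGraph W)) (s : ℕ),
  (∀ H ∈ F, ¬ H.Colorable (2 ^ s)) → ∀ H₀ ∈ F, ∀ (c : W → Fin (2 ^ s)) (p : W → ℤ × ℤ),
  Function.Injective p → (∀ v w, H₀.Adj v w → c v = c w →
    ∃ e : ℕ, ((p v).1 - (p w).1) ^ 2 + ((p v).2 - (p w).2) ^ 2 = 2 ^ e) →
  ∃ N, Nat.card W ≤ N ∧ ∀ n ≥ N, ∀ (d : ℕ) (f : SimpleGraph (Fin n) → Prop), Setup n d f →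
    d < n.choose 2 → (∀ G, f G ↔ ∀ H ∈ F, ¬ H ⊑ G) → False

end Pool.Agent.MP_257582_lc.E99
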