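import Pool.Agent.MP_257582_lc.E99.Defs

/-! The theorem of Oliver modulo two. -/

set_option autoImplicit false

namespace Pool.Agent.MP_257582_lc.E99

open Finset
open Pool.Agent.MP_257582_lc.H99 (aut acyc_rat)

theorem face_even {V : Type} [Fintype V] [DecidableEq V] {κ : Type} [Fintype κ] [DecidableEq κ]
    {p : ℕ} [Fact p.Prime] {K : Set (Finset V)} {φ : (κ → ZMod p) → Equiv.Perm V} (h0 : φ 0 = 1)
    (hadd : ∀ a b, φ (a + b) = φ a * φ b) (hlow : IsLowerSet K)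
    (hK : ∀ a σ, σ.map (φ a).toEmbedding ∈ K ↔ σ ∈ K)
    {r : V → ℕ} (hr : Function.Injective r) (hA : Acyc (ZMod p) r K) {g : Equiv.Perm V}
    (hg : ∀ σ, σ.map g.toEmbedding ∈ K ↔ σ ∈ K) (hn : ∀ a, ∃ b, g * φ a = φ b * g) :
    (({σ | σ ∈ K ∧ ∀ v ∈ σ, (∀ a, φ a v ∈ σ) ∧ g v ∈ σ}.ncard : ℕ) : ZMod 2) = 0 := by
  classical
  have hn' : ∀ j a, ∃ b, g ^ j * φ a = φ b * g ^ j := fun j => by
    induction j with
    | zero => exact fun a => ⟨a, by simp⟩
    | succ j ih =>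
      intro a
      obtain ⟨b, hb⟩ := hn a
      obtain ⟨c, hc⟩ := ih b
      exact ⟨c, by rw [pow_succ, mul_assoc, hb, ← mul_assoc, hc, mul_assoc]⟩
  let H : Submonoid (Equiv.Perm V) :=
    { carrier := {h | ∃ a, ∃ j : ℕ, h = φ a * g ^ j}
      one_mem' := ⟨0, 0, by simp [h0]⟩
      mul_mem' := by
        rintro _ _ ⟨a, j, rfl⟩ ⟨b, l, rfl⟩
        obtain ⟨c, hc⟩ := hn' j b
        exact ⟨a + c, j + l, by
          rw [hadd, pow_add, mul_assoc, ← mul_assoc (g ^ j), hc]; simp only [mul_assoc]⟩ }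
  let s : Setoid V := ⟨fun x y => ∃ h ∈ H, h x = y, fun x => ⟨1, H.one_mem, rfl⟩, by
    rintro x _ ⟨h, hh, rfl⟩
    refine ⟨h ^ (orderOf h - 1), H.pow_mem hh _, ?_⟩
    rw [← Equiv.Perm.mul_apply, ← pow_succ, Nat.sub_add_cancel (orderOf_pos h), pow_orderOf_eq_one]
    rfl, by
    rintro x _ _ ⟨h, hh, rfl⟩ ⟨h', hh', rfl⟩
    exact ⟨h' * h, H.mul_mem hh' hh, rfl⟩⟩
  have e1 : ∀ a x, Quotient.mk s (φ a x) = Quotient.mk s x := fun a x =>
    Eq.symm (Quotient.sound ⟨φ a, ⟨a, 0, by simp⟩, rfl⟩)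
  have e2 : ∀ x, Quotient.mk s (g x) = Quotient.mk s x := fun x =>
    Eq.symm (Quotient.sound ⟨g, ⟨0, 1, by simp [h0]⟩, rfl⟩)
  obtain ⟨s0, hs0⟩ := exists_rank (Quotient (relS φ h0 hadd univ))
  obtain ⟨g', q'', a1, a2, a3, a4, _, a6⟩ := exists_induced (g := g) (K := K)
    (q := Quotient.mk (relS φ h0 hadd univ)) (q' := Quotient.mk s) Quotient.mk_surjective
    Quotient.mk_surjective hg
    (fun x y h => by
      obtain ⟨a, _, rfl⟩ := Quotient.exact h
      obtain ⟨b, hb⟩ := hn a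
      refine Quotient.sound ⟨b, fun i hi => absurd (mem_univ i) hi, ?_⟩
      rw [← Equiv.Perm.mul_apply, ← hb]; rfl)
    (fun x y h => by
      obtain ⟨a, _, rfl⟩ := Quotient.exact h
      exact (e1 a x).symm) e2
    (fun x y h => by
      obtain ⟨_, ⟨a, j, rfl⟩, rfl⟩ := Quotient.exact h
      exact ⟨j, Quotient.sound ⟨a, fun i hi => absurd (mem_univ i) hi, rfl⟩⟩)
  have hE := lefschetz_quo hs0 a1 (quo_lower _ hlow) a2 a3 a4 (acyc_rat hs0 (quo_lower _ hlow)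
    (acyc_relS h0 hadd hlow hK hr hA univ s0 hs0))
  rw [a6, ← sum_filter] at hE
  have hZ : ∑ A ∈ univ.filter (· ∈ quo (Quotient.mk s) K), (-1 : ℤ) ^ A.card = 0 := by
    exact_mod_cast hE
  have h2 := congrArg (Int.cast : ℤ → ZMod 2) hZ
  rw [Int.cast_sum, sum_congr rfl (g := fun _ => 1) fun A _ => by
    rw [Int.cast_pow, Int.cast_neg, Int.cast_one, show (-1 : ZMod 2) = 1 from rfl, one_pow],
    sum_const, nsmul_eq_mul, mul_one, Int.cast_zero] at h2
  rw [← h2, ← Set.ncard_coe_finset]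
  congr 1
  symm
  refine Set.ncard_congr (fun A _ => univ.filter fun x => Quotient.mk s x ∈ A)
    (fun A hA => ⟨(mem_filter.1 hA).2, fun v hv => ?_⟩) (fun A B _ _ e => ?_) fun σ hσ => ?_
  · simp only [mem_filter, mem_univ, true_and, e1, e2] at hv ⊢
    exact ⟨fun _ => hv, hv⟩
  · ext ω
    obtain ⟨x, rfl⟩ := Quotient.mk_surjective ω
    have := congrArg (x ∈ ·) e
    simpa using this
  · have k : ∀ j, ∀ v ∈ σ, (g ^ j) v ∈ σ := fun j => by
      induction j with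
      | zero => exact fun v hv => hv
      | succ j ih => exact fun v hv => by rw [pow_succ]; exact ih _ (hσ.2 v hv).2
    have e : (univ.filter fun x => Quotient.mk s x ∈ σ.image (Quotient.mk s)) = σ := by
      ext x
      rw [mem_filter, mem_image]
      refine ⟨fun ⟨_, y, hy, e⟩ => ?_, fun h => ⟨mem_univ _, x, h, rfl⟩⟩
      obtain ⟨_, ⟨a, j, rfl⟩, rfl⟩ := Quotient.exact e
      exact (hσ.2 _ (k j y hy)).1 a
    refine ⟨σ.image (Quotient.mk s), mem_coe.2 (mem_filter.2 ⟨mem_univ _, ?_⟩), e⟩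
    change _ ∈ K
    rw [e]
    exact hσ.1

theorem graph_even {n d : ℕ} {f : SimpleGraph (Fin n) → Prop} (hf : Setup n d f)
    (hd : d < n.choose 2) {X : Type} [Finite X] (hc : Nat.card X = n) {κ : Type} [Fintype κ]
    {p : ℕ} [Fact p.Prime] {φ : (κ → ZMod p) → Equiv.Perm X} (h0 : φ 0 = 1)
    (hadd : ∀ a b, φ (a + b) = φ a * φ b) {g : Equiv.Perm X}
    (hn : ∀ a, ∃ b, g * φ a = φ b * g) :
    (({G : SimpleGraph X | ((∀ a, φ a ∈ aut G) ∧ g ∈ aut G) ∧ InG f G}.ncard : ℕ) :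
      ZMod 2) = 0 := by
  classical
  have := Fintype.ofFinite X
  rw [Nat.card_eq_fintype_card] at hc
  let e : X ≃ Fin n := Fintype.equivFinOfCardEq hc
  let a : Equiv.Perm X →* Equiv.Perm (H49.Pr (id : X → X)) :=
    { toFun := fun σ => H49.act σ fun _ _ => σ.injective.eq_iff
      map_one' := Equiv.ext fun v => Subtype.ext (by simp [H49.act_val])
      map_mul' := fun σ τ => Equiv.ext fun v => Subtype.ext (by simp [H49.act_val, Sym2.map_map]) }
  let K : Set (Finset (H49.Pr (id : X → X))) := {A | InG f (H49.gr A)}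
  have hK : ∀ σ (A : Finset _), A.map (a σ).toEmbedding ∈ K ↔ A ∈ K := fun σ A => by
    have h : (H49.gr (A.map (a σ).toEmbedding)).comap σ = H49.gr A :=
      H49.gr_map (lab := id) σ (fun _ _ => σ.injective.eq_iff) A
    refine ⟨inG_of_le hf σ fun x y hxy => ?_, inG_of_le hf σ.symm fun x y hxy => ?_⟩
    · rwa [← h] at hxy
    · rw [← h]
      simpa using hxy
  obtain ⟨r, hr⟩ := exists_rank (H49.Pr (id : X → X))
  have hA : Acyc (ZMod p) r K := by
    have := inG_acyc hf e (ZMod p) (V := H49.Pr (id : X → X))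
      ⟨fun v => v.1, fun _ _ h => Subtype.ext h⟩ ∅ hr (by
        rw [← hc, ← Sym2.card_subtype_not_diag] at hd
        refine hd.trans_eq (Fintype.card_congr (Equiv.subtypeEquivRight fun v => by simp)))
    refine (congrArg (Acyc (ZMod p) r) ?_).mp this
    ext A
    refine iff_of_eq (congrArg (InG f) ?_)
    ext x y
    simp only [SimpleGraph.fromEdgeSet_adj, empty_union, coe_map, Set.mem_image, mem_coe]
    exact ⟨fun h => h.1, fun h => ⟨h, h.ne⟩⟩
  have h1 := face_even (K := K) (φ := fun c => a (φ c)) (g := a g) (by rw [h0, a.map_one])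
    (fun c c' => by rw [hadd, a.map_mul])
    (fun A B h hA => inG_of_le hf (Equiv.refl _) (fun x y hxy => H49.gr_mono h hxy) hA)
    (fun c => hK _) hr hA (hK _) (fun c => (hn c).imp fun c' h => by
      rw [← a.map_mul, ← a.map_mul, h])
  have haut : ∀ (σ : Finset (H49.Pr (id : X → X))) π, (∀ v ∈ σ, a π v ∈ σ) ↔ π ∈ aut (H49.gr σ) := by
    intro σ π
    refine ⟨fun h x y ⟨v, hv, e⟩ =>
      ⟨_, h v hv, by rw [show (a π v).1 = v.1.map π from rfl, e]; rfl⟩, fun h v hv => ?_⟩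
    obtain ⟨x, y, hxy, rfl⟩ := H49.exists_mkP v
    obtain ⟨w, hw, e⟩ := h x y ⟨_, hv, rfl⟩
    rwa [show a π (H49.mkP x y hxy) = w from Subtype.ext e.symm]
  have h2 : {σ | σ ∈ K ∧ ∀ v ∈ σ, (∀ c, a (φ c) v ∈ σ) ∧ a g v ∈ σ}.ncard =
      {G : SimpleGraph X | ((∀ c, φ c ∈ aut G) ∧ g ∈ aut G) ∧ InG f G}.ncard := by
    refine Set.ncard_congr (fun σ _ => H49.gr σ) (fun σ hσ => ⟨⟨fun c => (haut σ _).1 fun v hv =>
      (hσ.2 v hv).1 c, (haut σ _).1 fun v hv => (hσ.2 v hv).2⟩, hσ.1⟩) (fun σ σ' _ _ e => ?_)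
      fun G hG => ?_
    · have e' : H49.gr σ = H49.gr σ' := e
      ext v
      obtain ⟨x, y, hxy, rfl⟩ := H49.exists_mkP v
      have k1 := H49.gr_adj σ x y
      have k2 := H49.gr_adj σ' x y
      rw [e'] at k1
      exact ⟨fun h => (k2.1 (k1.2 ⟨hxy, h⟩)).2, fun h => (k1.1 (k2.2 ⟨hxy, h⟩)).2⟩
    · have e : H49.gr (univ.filter fun v : H49.Pr (id : X → X) => v.1 ∈ G.edgeSet) = G := by
        ext x y
        rw [H49.gr_adj]
        exact ⟨fun ⟨_, h⟩ => (mem_filter.1 h).2, fun h => ⟨h.ne, mem_filter.2 ⟨mem_univ _, h⟩⟩⟩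
      refine ⟨_, ⟨?_, fun v hv => ⟨fun c => (haut _ _).2 ?_ v hv, (haut _ _).2 ?_ v hv⟩⟩, e⟩
      · change InG f _
        rw [e]
        exact hG.2
      · rw [e]; exact hG.1.1 c
      · rw [e]; exact hG.1.2
  rwa [h2] at h1

end Pool.Agent.MP_257582_lc.E99
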