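import Pool.Agent.MP_257582_lc.E99.Defs

set_option autoImplicit false

namespace Pool.Agent.MP_257582_lc.E99

open Finset SimpleGraph

lemma swap_par {α : Type} [Finite α] (s : Set α) (g : α → α) (hg : ∀ x ∈ s, g x ∈ s)
    (hgg : ∀ x, g (g x) = x) :
    ((s.ncard : ℕ) : ZMod 2) = (({x | x ∈ s ∧ g x = x}.ncard : ℕ) : ZMod 2) := by
  classical
  have := Fintype.ofFinite α
  have e : ∀ t : Set α, ((t.ncard : ℕ) : ZMod 2) = ∑ x : α, if x ∈ t then 1 else 0 := fun t => by
    rw [Set.ncard_eq_toFinset_card', Finset.sum_ite, sum_const_zero, add_zero, sum_const,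
      nsmul_eq_mul, mul_one]
    congr 2
    ext x
    simp
  rw [e, e, ← sub_eq_zero, ← sum_sub_distrib]
  refine Finset.sum_involution (fun x _ => g x) (fun x _ => ?_) (fun x _ h hx => h ?_)
    (fun _ _ => mem_univ _) fun x _ => hgg x
  · have h1 : g x ∈ s ↔ x ∈ s := ⟨fun h => hgg x ▸ hg _ h, hg x⟩
    have h2 : g (g x) = g x ↔ g x = x := by rw [hgg]; exact eq_comm
    by_cases h : x ∈ s <;> by_cases h' : g x = x <;>
      simp [h1, h2, h, h', CharTwo.add_self_eq_zero]
  · simp [hx]

lemma swap_map {W X Y : Type} {H : SimpleGraph W} {E : SimpleGraph Y} {f : X → Y}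
    (hf : Function.Injective f) {τ : X → Set (SimpleGraph W)} {σ : Y → Set (SimpleGraph W)}
    (h1 : ∀ t, σ (f t) = τ t) (h2 : ∀ t, Good (σ t)) (h : Cont H (E.comap f) τ) : Cont H E σ := by
  obtain ⟨ψ, a, b⟩ := h
  refine ⟨f ∘ ψ, fun u v huv hne => a u v huv fun e => hne (congrArg f e), fun t => ?_⟩
  by_cases ht : ∃ s, f s = t
  · obtain ⟨s, rfl⟩ := ht
    rw [h1]
    have e : (f ∘ ψ) ⁻¹' {f s} = ψ ⁻¹' {s} := by
      ext w
      exact hf.eq_iff
    rw [e]
    exact b s
  · exact (h2 t).down _ _ (fun u v huv => (ht ⟨ψ u, huv.2.1⟩).elim) (h2 t).bot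

/-- doubling the distinguished node -/
def swapLift {X : Type} (b : Prop) (E : SimpleGraph (Option X)) :
    SimpleGraph (Option (Option X)) where
  Adj u v := E.Adj u.join v.join ∨ (b ∧ u.join = none ∧ v.join = none ∧ u ≠ v)
  symm := ⟨fun _ _ h => h.imp (fun h => h.symm) fun h => ⟨h.1, h.2.2.1, h.2.1, h.2.2.2.symm⟩⟩
  loopless := ⟨fun _ h => h.elim (fun h => h.ne rfl) fun h => h.2.2.2 rfl⟩

lemma swap_comap {X : Type} (b : Prop) (E : SimpleGraph (Option X)) :
    (swapLift b E).comap some = E := by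
  ext u v
  refine ⟨fun h => h.elim id fun h => ?_, Or.inl⟩
  have h1 : u = none := h.2.1
  have h2 : v = none := h.2.2.1
  exact absurd (congrArg some (h1.trans h2.symm)) h.2.2.2

lemma swap_adj {X : Type} (b : Prop) (E : SimpleGraph (Option X)) :
    (swapLift b E).Adj none (some none) ↔ b :=
  ⟨fun h => h.elim (fun h => absurd rfl h.ne) fun h => h.1,
    fun h => Or.inr ⟨h, rfl, rfl, by simp⟩⟩

/-- exchanging the two distinguished nodes -/
def swapS {X : Type} : Option (Option X) → Option (Option X)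
  | none => some none
  | some none => none
  | some (some t) => some (some t)

lemma swap_ss {X : Type} (u : Option (Option X)) : swapS (swapS u) = u := by
  rcases u with _ | _ | _ <;> rfl

lemma swap_inj {X : Type} : Function.Injective (swapS (X := X)) :=
  Function.LeftInverse.injective swap_ss

lemma swap_join {X : Type} (u : Option (Option X)) : (swapS u).join = u.join := by
  rcases u with _ | _ | _ <;> rfl

lemma swap_fix {X : Type} (b : Prop) (E : SimpleGraph (Option X)) :
    (swapLift b E).comap swapS = swapLift b E := by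
  ext u v
  show _ ∨ _ ↔ _ ∨ _
  rw [swap_join, swap_join, swap_inj.ne_iff]

lemma swap_eq {X : Type} {E : SimpleGraph (Option (Option X))} (h : E.comap swapS = E) :
    E = swapLift (E.Adj none (some none)) (E.comap some) := by
  have k : ∀ u v, E.Adj (swapS u) (swapS v) ↔ E.Adj u v := fun u v => by
    rw [← SimpleGraph.comap_adj, h]
  ext u v
  show _ ↔ E.Adj (some u.join) (some v.join) ∨ (_ ∧ u.join = none ∧ v.join = none ∧ u ≠ v)
  rcases u with _ | _ | u <;> rcases v with _ | _ | v
  · simp
  · simp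
  · simpa [swapS] using (k none (some (some v))).symm
  · simp [E.adj_comm]
  · simp
  · simp
  · simpa [swapS] using (k (some (some u)) none).symm
  · simp
  · simp

lemma swap_fold {W X : Type} {H : SimpleGraph W} {E : SimpleGraph (Option X)} {b : Prop}
    {τ : X → Set (SimpleGraph W)} {T T' : Set (SimpleGraph W)}
    (hT : ∀ A B : Set W, Disjoint A B → res H A ∈ T → res H B ∈ T →
      (¬ b → ∀ u ∈ A, ∀ v ∈ B, ¬ H.Adj u v) → res H (A ∪ B) ∈ T')
    (h : Cont H (swapLift b E) fun o => o.elim T fun o' => o'.elim T τ) :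
    Cont H E fun o => o.elim T' τ := by
  obtain ⟨ψ, a, c⟩ := h
  refine ⟨fun w => (ψ w).join, fun u v huv hne => ?_, fun t => ?_⟩
  · exact (a u v huv fun e => hne (congrArg Option.join e)).elim id
      fun h => absurd (h.2.1.trans h.2.2.1.symm) hne
  · cases t with
    | none =>
      have e : (fun w => (ψ w).join) ⁻¹' {none} = ψ ⁻¹' {none} ∪ ψ ⁻¹' {some none} := by
        ext w
        show (ψ w).join = none ↔ ψ w = none ∨ ψ w = some none
        rcases ψ w with _ | _ | _ <;> simp
      rw [e]
      refine hT _ _ (Set.disjoint_left.2 fun w h1 h2 => ?_) (c none) (c (some none))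
        fun hb u hu v hv huv => ?_
      · have h1' : ψ w = none := h1
        have h2' : ψ w = some none := h2
        rw [h1'] at h2'
        cases h2'
      · have h1 : ψ u = none := hu
        have h2 : ψ v = some none := hv
        have := a u v huv (by rw [h1, h2]; simp)
        rw [h1, h2, swap_adj] at this
        exact hb this
    | some t =>
      have e : (fun w => (ψ w).join) ⁻¹' {some t} = ψ ⁻¹' {some (some t)} := by
        ext w
        show (ψ w).join = some t ↔ ψ w = some (some t)
        rcases ψ w with _ | _ | _ <;> simp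
      rw [e]
      exact c (some (some t))

lemma swap_one {W X : Type} {H : SimpleGraph W} {E : SimpleGraph (Option X)}
    {τ : X → Set (SimpleGraph W)} {T : Set (SimpleGraph W)} (hτ : ∀ t, Good (τ t)) (hT : Good T) :
    (Cont H (swapLift False E) fun o => o.elim T fun o' => o'.elim T τ) ↔
      Cont H E fun o => o.elim T τ := by
  refine ⟨swap_fold fun A B hd hA hB hn => ?_, fun h => ?_⟩
  · refine hT.down _ _ (fun u v huv => ?_) (hT.sup _ _ hA hB ?_)
    · obtain ⟨h1, h2 | h2, h3 | h3⟩ := huv
      · exact Or.inl ⟨h1, h2, h3⟩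
      · exact absurd h1 (hn id u h2 v h3)
      · exact absurd h1.symm (hn id v h3 u h2)
      · exact Or.inr ⟨h1, h2, h3⟩
    · exact hd.mono (fun u ⟨_, h⟩ => h.2.1) fun u ⟨_, h⟩ => h.2.1
  · refine swap_map (Option.some_injective _) (fun _ => rfl) (fun t => ?_)
      ((swap_comap False E).symm ▸ h)
    rcases t with _ | _ | t
    exacts [hT, hT, hτ t]

lemma swap_two {W X : Type} {H : SimpleGraph W} {E : SimpleGraph (Option X)}
    {τ : X → Set (SimpleGraph W)} {T : Set (SimpleGraph W)} (hT : Good T) :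
    (Cont H (swapLift True E) fun o => o.elim T fun o' => o'.elim T τ) ↔
      Cont H E fun o => o.elim (jn T) τ := by
  classical
  refine ⟨swap_fold fun A B _ hA hB _ => ⟨A, hT.down _ (res H A)
    (fun u v h => ⟨h.1.1, h.2.1, h.2.2⟩) hA, hT.down _ (res H B)
    (fun u v h => ⟨h.1.1, h.1.2.1.resolve_left h.2.1, h.1.2.2.resolve_left h.2.2⟩) hB⟩,
    fun h => ?_⟩
  obtain ⟨ψ, a, c⟩ := h
  obtain ⟨A, hA, hB⟩ := c none
  obtain ⟨χ, hχ⟩ : ∃ χ : W → Option (Option X),
      ∀ w, χ w = if ψ w = none ∧ w ∈ A then none else some (ψ w) := ⟨_, fun _ => rfl⟩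
  have j : ∀ w, (χ w).join = ψ w := fun w => by
    rw [hχ]
    split_ifs with h
    · exact h.1.symm
    · rfl
  have k1 : ∀ w, χ w = none → ψ w = none ∧ w ∈ A := fun w h => by
    rw [hχ] at h
    split_ifs at h with h'
    exact h'
  have k2 : ∀ w, χ w = some none → ψ w = none ∧ w ∉ A := fun w h => by
    have h1 : ψ w = none := by rw [← j, h]; rfl
    refine ⟨h1, fun hw => ?_⟩
    rw [hχ, if_pos ⟨h1, hw⟩] at h
    cases h
  refine ⟨χ, fun u v huv hne => ?_, fun t => ?_⟩
  · show E.Adj _ _ ∨ _
    rw [j, j]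
    by_cases e : ψ u = ψ v
    · have h1 : ψ u = none := by
        by_contra h0
        apply hne
        rw [hχ, hχ, if_neg fun h => h0 h.1, if_neg fun h => h0 (e.trans h.1), e]
      exact Or.inr ⟨trivial, h1, e ▸ h1, hne⟩
    · exact Or.inl (a u v huv e)
  · rcases t with _ | _ | t
    · refine hT.down _ _ ?_ hA
      intro u v h
      exact ⟨⟨h.1, (k1 u h.2.1).1, (k1 v h.2.2).1⟩, (k1 u h.2.1).2, (k1 v h.2.2).2⟩
    · refine hT.down _ _ ?_ hB
      intro u v h
      exact ⟨⟨h.1, (k2 u h.2.1).1, (k2 v h.2.2).1⟩, (k2 u h.2.1).2, (k2 v h.2.2).2⟩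
    · have e : χ ⁻¹' {some (some t)} = ψ ⁻¹' {some t} := by
        ext w
        show χ w = some (some t) ↔ ψ w = some t
        refine ⟨fun h => by rw [← j, h]; rfl, fun h => ?_⟩
        rw [hχ, h, if_neg (by simp)]
      rw [e]
      exact c (some t)

theorem swap : SWAP := by
  intro W X _ _ F τ T hτ hT
  classical
  have good : ∀ t : Option (Option X), Good (t.elim T fun o' => o'.elim T τ) := fun t => by
    rcases t with _ | _ | t
    exacts [hT, hT, hτ t]
  have inj : ∀ b : Prop, Function.Injective (swapLift (X := X) b) := fun b E E' h => by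
    rw [← swap_comap b E, h, swap_comap]
  have par := swap_par {E : SimpleGraph (Option (Option X)) |
      ∀ H ∈ F, ¬ Cont H E fun o => o.elim T fun o' => o'.elim T τ} (fun E => E.comap swapS)
    (fun E hE H hH h => hE H hH (swap_map swap_inj
      (fun t => by rcases t with _ | _ | t <;> rfl) good h))
    (fun E => by ext u v; simp [swap_ss])
  unfold cnt
  rw [par, ← Set.ncard_image_of_injective _ (inj False),
    ← Set.ncard_image_of_injective _ (inj True), ← Nat.cast_add, ← Set.ncard_union_eq]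
  · congr 2
    ext E
    constructor
    · rintro ⟨h1, h2⟩
      have e := swap_eq h2
      by_cases hb : E.Adj none (some none)
      · rw [eq_true hb] at e
        exact Or.inr ⟨_, fun H hH h => h1 H hH (e ▸ (swap_two hT).2 h), e.symm⟩
      · rw [eq_false hb] at e
        exact Or.inl ⟨_, fun H hH h => h1 H hH (e ▸ (swap_one hτ hT).2 h), e.symm⟩
    · rintro (⟨E', h, rfl⟩ | ⟨E', h, rfl⟩)
      · exact ⟨fun H hH h' => h H hH ((swap_one hτ hT).1 h'), swap_fix _ _⟩
      · exact ⟨fun H hH h' => h H hH ((swap_two hT).1 h'), swap_fix _ _⟩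
  · refine Set.disjoint_left.2 ?_
    rintro _ ⟨E, _, rfl⟩ ⟨E', _, h⟩
    have := swap_adj True E'
    rw [h, swap_adj] at this
    exact this.2 trivial

end Pool.Agent.MP_257582_lc.E99
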