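import Pool.Agent.MP_257582_lc.E99.V2Defs

set_option autoImplicit false

namespace Pool.Agent.MP_257582_lc.E99

open Finset SimpleGraph

variable {W : Type}

theorem bas_le (K : SimpleGraph W) (A : Set W) : res K A ≤ K := fun _ _ h => h.1

theorem bas_res {K : SimpleGraph W} {A : Set W} {a : ℕ} (ha : 0 < a) :
    res K A ∈ col W a ↔ colOn K A a := by
  classical
  constructor
  · rintro ⟨c, h1, h2⟩
    exact ⟨c, fun v _ => h1 v trivial, fun u hu v hv h => h2 u trivial v trivial ⟨h, hu, hv⟩⟩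
  · rintro ⟨c, h1, h2⟩
    refine ⟨fun v => if v ∈ A then c v else 0, fun v _ => ?_, fun u _ v _ h => ?_⟩
    · by_cases hv : v ∈ A
      · simpa only [if_pos hv] using h1 v hv
      · simpa only [if_neg hv] using ha
    · simpa only [if_pos h.2.1, if_pos h.2.2] using h2 u h.2.1 v h.2.2 h.1

theorem bas_add {K : SimpleGraph W} {A B S : Set W} {a b : ℕ} (h1 : colOn (res K Bᶜ) A a)
    (h2 : colOn K B b) (hS : S ⊆ A ∪ B) : colOn K S (a + b) := by
  classical
  obtain ⟨c, c1, c2⟩ := h1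
  obtain ⟨d, d1, d2⟩ := h2
  refine ⟨fun v => if v ∈ B then a + d v else c v, fun v hv => ?_, fun u hu v hv h => ?_⟩
  · by_cases hB : v ∈ B
    · have := d1 v hB
      simp only [if_pos hB]
      omega
    · have := c1 v ((hS hv).resolve_right hB)
      simp only [if_neg hB]
      omega
  · by_cases hu' : u ∈ B <;> by_cases hv' : v ∈ B
    · have := d2 u hu' v hv' h
      simp only [if_pos hu', if_pos hv']
      omega
    · have := c1 v ((hS hv).resolve_right hv')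
      simp only [if_pos hu', if_neg hv']
      omega
    · have := c1 u ((hS hu).resolve_right hu')
      simp only [if_neg hu', if_pos hv']
      omega
    · simpa only [if_neg hu', if_neg hv'] using
        c2 u ((hS hu).resolve_right hu') v ((hS hv).resolve_right hv') ⟨h, hu', hv'⟩

theorem bas_split {K : SimpleGraph W} {S : Set W} {a b : ℕ} (h : colOn K S (a + b)) :
    ∃ A B : Set W, S ⊆ A ∪ B ∧ colOn K A a ∧ colOn K B b := by
  obtain ⟨c, c1, c2⟩ := h
  refine ⟨{v | v ∈ S ∧ c v < a}, {v | v ∈ S ∧ a ≤ c v}, fun v hv => ?_,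
    ⟨c, fun v hv => hv.2, fun u hu v hv h => c2 u hu.1 v hv.1 h⟩,
    ⟨fun v => c v - a, fun v hv => ?_, fun u hu v hv h => ?_⟩⟩
  · exact (lt_or_ge (c v) a).imp (fun h => ⟨hv, h⟩) fun h => ⟨hv, h⟩
  · have := c1 v hv.1
    have := hv.2
    show c v - a < b
    omega
  · have := c2 u hu.1 v hv.1 h
    have := hu.2
    have := hv.2
    show c u - a ≠ c v - a
    omega

theorem bas_mono {K K' : SimpleGraph W} {A A' : Set W} {a : ℕ} (hK : K ≤ K') (hA : A ⊆ A')
    (h : colOn K' A' a) : colOn K A a := by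
  obtain ⟨c, c1, c2⟩ := h
  exact ⟨c, fun v hv => c1 v (hA hv), fun u hu v hv h => c2 u (hA hu) v (hA hv) (hK h)⟩

theorem bas_sup {K K' : SimpleGraph W} {A A' : Set W} {a : ℕ} (h : colOn K A a) (h' : colOn K' A' a)
    (hd : Disjoint K.support K'.support) :
    colOn (K ⊔ K') ((A ∩ K.support) ∪ (A' \ K.support)) a := by
  classical
  obtain ⟨c, c1, c2⟩ := h
  obtain ⟨d, d1, d2⟩ := h'
  have m1 : ∀ v ∈ (A ∩ K.support) ∪ (A' \ K.support), v ∈ K.support → v ∈ A := fun v hv h =>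
    hv.elim (fun x => x.1) fun x => absurd h x.2
  have m2 : ∀ v ∈ (A ∩ K.support) ∪ (A' \ K.support), v ∉ K.support → v ∈ A' := fun v hv h =>
    hv.elim (fun x => absurd x.2 h) fun x => x.1
  refine ⟨fun v => if v ∈ K.support then c v else d v, fun v hv => ?_, fun u hu v hv h => ?_⟩
  · by_cases hs : v ∈ K.support
    · simpa only [if_pos hs] using c1 v (m1 v hv hs)
    · simpa only [if_neg hs] using d1 v (m2 v hv hs)
  · rcases h with h | h
    · have s1 : u ∈ K.support := ⟨v, h⟩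
      have s2 : v ∈ K.support := ⟨u, h.symm⟩
      simpa only [if_pos s1, if_pos s2] using c2 u (m1 u hu s1) v (m1 v hv s2) h
    · have s1 : u ∉ K.support := fun x => Set.disjoint_left.1 hd x ⟨v, h⟩
      have s2 : v ∉ K.support := fun x => Set.disjoint_left.1 hd x ⟨u, h.symm⟩
      simpa only [if_neg s1, if_neg s2] using d2 u (m2 u hu s1) v (m2 v hv s2) h

theorem bas_good {w : ℕ} (hw : 0 < w) : Good (col W w) where
  bot := ⟨fun _ => 0, fun _ _ => hw, fun _ _ _ _ h => h.elim⟩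
  down := fun _ _ hK h => bas_mono hK subset_rfl h
  sup := fun K _ h h' hd => bas_mono le_rfl
    (fun v _ => (em (v ∈ K.support)).imp (fun x => ⟨trivial, x⟩) fun x => ⟨trivial, x⟩)
    (bas_sup h h' hd)

theorem bas_one : col W 1 = {⊥} := by
  ext K
  refine ⟨fun ⟨c, c1, c2⟩ => ?_, fun h => h ▸ (bas_good Nat.one_pos).bot⟩
  refine eq_bot_iff.2 fun u v h => ?_
  have := c1 u trivial
  have := c1 v trivial
  have := c2 u trivial v trivial h
  omega

theorem bas_jw {a : ℕ} (ha : 0 < a) (w : ℕ) : jw (col W a) w = col W (a + w) := by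
  ext K
  constructor
  · rintro ⟨A, h1, h2⟩
    exact bas_add (A := Set.univ) h1 h2 fun _ _ => Or.inl trivial
  · intro h
    obtain ⟨A, B, hS, h1, h2⟩ := bas_split h
    exact ⟨B, (bas_res ha).2 (bas_mono le_rfl (fun v hv => (hS trivial).resolve_right hv) h1), h2⟩

theorem bas_jn {a : ℕ} (ha : 0 < a) : jn (col W a) = col W (2 * a) := by
  rw [two_mul, ← bas_jw ha]
  ext K
  exact ⟨fun ⟨A, h1, h2⟩ => ⟨A, h2, (bas_res ha).1 h1⟩, fun ⟨A, h1, h2⟩ => ⟨A, (bas_res ha).2 h2, h1⟩⟩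

theorem bas_empty (K : SimpleGraph W) (a : ℕ) : colOn K ∅ a :=
  ⟨fun _ => 0, fun _ h => h.elim, fun _ h => h.elim⟩

theorem bas_sub {T : Set (SimpleGraph W)} (hT : Good T) (a : ℕ) : T ⊆ jw T a := fun K h =>
  ⟨∅, hT.down _ _ (bas_le K _) h, bas_empty K a⟩

theorem bas_goodw {T : Set (SimpleGraph W)} (hT : Good T) (a : ℕ) : Good (jw T a) where
  bot := bas_sub hT a hT.bot
  down := fun K K' hK ⟨A, h1, h2⟩ =>
    ⟨A, hT.down _ (res K' Aᶜ) (fun _ _ h => ⟨hK h.1, h.2⟩) h1, bas_mono hK subset_rfl h2⟩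
  sup := fun K K' ⟨A, h1, h2⟩ ⟨A', h1', h2'⟩ hd => by
    refine ⟨_, hT.down _ _ ?_ (hT.sup _ _ h1 h1' (hd.mono (support_mono (bas_le _ _))
      (support_mono (bas_le _ _)))), bas_sup h2 h2' hd⟩
    rintro u v ⟨h | h, hu, hv⟩
    · exact Or.inl ⟨h, fun x => hu (Or.inl ⟨x, v, h⟩), fun x => hv (Or.inl ⟨x, u, h.symm⟩)⟩
    · exact Or.inr ⟨h, fun x => hu (Or.inr ⟨x, fun y => Set.disjoint_left.1 hd y ⟨v, h⟩⟩),
        fun x => hv (Or.inr ⟨x, fun y => Set.disjoint_left.1 hd y ⟨u, h.symm⟩⟩)⟩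

theorem bas_zero {T : Set (SimpleGraph W)} (hT : Good T) : jw T 0 = T := by
  refine Set.Subset.antisymm ?_ (bas_sub hT 0)
  rintro K ⟨A, h1, c, c1, -⟩
  exact hT.down _ (res K Aᶜ) (fun u v h => ⟨h, fun x => Nat.not_lt_zero _ (c1 u x),
    fun x => Nat.not_lt_zero _ (c1 v x)⟩) h1

theorem bas_jwjw {T : Set (SimpleGraph W)} (hT : Good T) (a b : ℕ) :
    jw (jw T a) b = jw T (a + b) := by
  ext K
  constructor
  · rintro ⟨B, ⟨A, h1, h2⟩, h3⟩
    exact ⟨A ∪ B, hT.down _ (res (res K Bᶜ) Aᶜ) (fun u v h => ⟨⟨h.1, fun x => h.2.1 (Or.inr x),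
      fun x => h.2.2 (Or.inr x)⟩, fun x => h.2.1 (Or.inl x), fun x => h.2.2 (Or.inl x)⟩) h1,
      bas_add h2 h3 subset_rfl⟩
  · rintro ⟨S, h1, h2⟩
    obtain ⟨A, B, hS, h3, h4⟩ := bas_split h2
    exact ⟨B, ⟨A, hT.down _ (res K Sᶜ) (fun u v h => ⟨h.1.1, fun x => (hS x).elim h.2.1 h.1.2.1,
      fun x => (hS x).elim h.2.2 h.1.2.2⟩) h1, bas_mono (bas_le _ _) subset_rfl h3⟩, h4⟩

theorem bas_iter {T : Set (SimpleGraph W)} (hT : Good T) (a : ℕ) : col W (2 ^ a) ⊆ jn^[a] T := by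
  induction a with
  | zero =>
    rw [pow_zero, bas_one]
    exact Set.singleton_subset_iff.2 hT.bot
  | succ a ih =>
    rw [Function.iterate_succ_apply', pow_succ', ← bas_jn (Nat.two_pow_pos a)]
    exact fun K ⟨A, h1, h2⟩ => ⟨A, ih h1, ih h2⟩

theorem bas_pow (s : ℕ) : jn^[s] ({⊥} : Set (SimpleGraph W)) = col W (2 ^ s) := by
  induction s with
  | zero => rw [pow_zero, bas_one, Function.iterate_zero_apply]
  | succ s ih => rw [Function.iterate_succ_apply', ih, pow_succ', bas_jn (Nat.two_pow_pos s)]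

theorem bas_col (K : SimpleGraph W) (n : ℕ) : K ∈ col W n ↔ K.Colorable n := by
  rw [colorable_iff_exists_bdd_nat_coloring]
  exact ⟨fun ⟨c, c1, c2⟩ => ⟨Coloring.mk c fun h => c2 _ trivial _ trivial h, fun v => c1 v trivial⟩,
    fun ⟨C, h⟩ => ⟨C, fun v _ => h v, fun _ _ _ _ h => C.valid h⟩⟩

theorem bas : BAS := fun _ =>
  ⟨fun _ => bas_good, bas_one, fun _ => bas_jn,
    fun _ a hT => ⟨bas_goodw hT a, bas_sub hT a, bas_zero hT, bas_jwjw hT a, bas_iter hT a⟩,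
    bas_pow, fun _ w K ha => by rw [bas_jw ha, bas_col]⟩

end Pool.Agent.MP_257582_lc.E99
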