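import Pool.Agent.MP_257582_lc.E99.V2Defs

set_option autoImplicit false

namespace Pool.Agent.MP_257582_lc.E99

open Finset SimpleGraph

lemma fold_par {α : Type} [Finite α] (s : Set α) (g : α → α) (hg : ∀ x ∈ s, g x ∈ s)
    (hgg : ∀ x, g (g x) = x) (hne : ∀ x, g x ≠ x) : ((s.ncard : ℕ) : ZMod 2) = 0 := by
  classical
  have := Fintype.ofFinite α
  have e : ((s.ncard : ℕ) : ZMod 2) = ∑ x : α, if x ∈ s then 1 else 0 := by
    rw [Set.ncard_eq_toFinset_card', Finset.sum_ite, sum_const_zero, add_zero, sum_const,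
      nsmul_eq_mul, mul_one]
    congr 2
    ext x
    simp
  rw [e]
  refine Finset.sum_involution (fun x _ => g x) (fun x _ => ?_) (fun x _ _ => hne x)
    (fun _ _ => mem_univ _) fun x _ => hgg x
  have h1 : g x ∈ s ↔ x ∈ s := ⟨fun h => hgg x ▸ hg _ h, hg x⟩
  by_cases h : x ∈ s <;> simp [h1, h, CharTwo.add_self_eq_zero]

lemma fold_sum {W X : Type} [Fintype X] {H : SimpleGraph W} {ψ : W → X} {w : X → ℕ} {a : ℕ}
    (M : Set X) (hw : ∑ t, w t ≤ a) (h : ∀ t ∈ M, res H (ψ ⁻¹' {t}) ∈ col W (w t)) :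
    colOn H (ψ ⁻¹' M) a := by
  classical
  choose c h1 h2 using h
  have hc : Fintype.card (Σ t, Fin (w t)) = ∑ t, w t := by simp
  let e := Fintype.equivFinOfCardEq hc
  refine ⟨fun v => if hv : ψ v ∈ M then (e ⟨ψ v, ⟨c _ hv v, h1 _ hv v trivial⟩⟩ : ℕ) else 0,
    fun v hv => ?_, fun u hu v hv huv => ?_⟩
  · have hv' : ψ v ∈ M := hv
    simp only [hv', dif_pos]
    exact (Fin.is_lt _).trans_le hw
  · have hu' : ψ u ∈ M := hu
    have hv' : ψ v ∈ M := hv
    simp only [hu', hv', dif_pos]
    intro k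
    have k1 := e.injective (Fin.ext k)
    have k2 : ψ u = ψ v := congrArg Sigma.fst k1
    have k3 : c _ hu' u = c _ hv' v := congrArg (fun q : Σ t, Fin (w t) => (q.2 : ℕ)) k1
    have k4 : ∀ (t : X) (ht : t ∈ M), t = ψ v → c t ht u = c _ hv' u := by
      rintro t ht rfl
      rfl
    rw [k4 _ hu' k2] at k3
    exact h2 _ hv' u trivial v trivial ⟨huv, k2, rfl⟩ k3

lemma fold_col {W : Type} {K K' : SimpleGraph W} {A : Set W} {a : ℕ} (ha : 0 < a)
    (h : colOn K A a) (hK : K' ≤ res K A) : K' ∈ col W a := by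
  classical
  obtain ⟨c, h1, h2⟩ := h
  refine ⟨fun v => if v ∈ A then c v else 0, fun v _ => ?_, fun u _ v _ huv => ?_⟩
  · by_cases hv : v ∈ A
    · simp only [hv, if_true]
      exact h1 v hv
    · simp only [hv, if_false]
      exact ha
  · obtain ⟨k1, k2, k3⟩ := hK huv
    simp only [k2, k3, if_true]
    exact h2 u k2 v k3 k1

lemma fold_gen {W X : Type} [Fintype X] {H : SimpleGraph W} {E : SimpleGraph X}
    {τ : X → Set (SimpleGraph W)} (hτ : ∀ t, Good (τ t)) (c : X) {w : X → ℕ} {a : ℕ} (ha : 0 < a)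
    (hw : ∑ t, w t ≤ a) (hc : col W a ⊆ τ c)
    (hm : ∀ m, m ≠ c → ¬ E.Adj c m → τ m ⊆ col W (w m)) (h : Cont H E τ) :
    ∃ ψ : W → X, (∀ u v, H.Adj u v → ψ u ≠ ψ v → E.Adj (ψ u) (ψ v)) ∧
      (∀ t, res H (ψ ⁻¹' {t}) ∈ τ t) ∧ ∀ v, ψ v = c ∨ E.Adj c (ψ v) := by
  classical
  obtain ⟨ψ, h1, h2⟩ := h
  refine ⟨fun v => if E.Adj c (ψ v) then ψ v else c, fun u v huv hne => ?_, fun t => ?_,
    fun v => ?_⟩
  · by_cases hu : E.Adj c (ψ u) <;> by_cases hv : E.Adj c (ψ v) <;>
      simp only [hu, hv, if_true, if_false] at hne ⊢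
    · exact h1 u v huv hne
    · exact hu.symm
    · exact absurd rfl hne
  · by_cases ht : t = c
    · subst ht
      have k := fold_sum (H := H) (ψ := ψ) {m | m ≠ t ∧ ¬ E.Adj t m} hw
        fun m hm' => hm m hm'.1 hm'.2 (h2 m)
      refine (hτ t).down _ _ ?_ ((hτ t).sup _ _ (h2 t) (hc (fold_col ha k le_rfl)) ?_)
      · rintro u v ⟨huv, hu, hv⟩
        have n : ∀ x, (if E.Adj t (ψ x) then ψ x else t) = t → ¬ E.Adj t (ψ x) := fun x hx k => by
          rw [if_pos k] at hx
          exact k.ne hx.symm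
        have hu' := n u hu
        have hv' := n v hv
        by_cases e1 : ψ u = t <;> by_cases e2 : ψ v = t
        · exact Or.inl ⟨huv, e1, e2⟩
        · exact absurd (e1 ▸ h1 u v huv (fun k => e2 (k.symm.trans e1))) hv'
        · exact absurd (e2 ▸ (h1 u v huv (fun k => e1 (k.trans e2))).symm) hu'
        · exact Or.inr ⟨huv, ⟨e1, hu'⟩, e2, hv'⟩
      · rw [Set.disjoint_left]
        rintro x ⟨_, k1⟩ ⟨_, k2⟩
        exact k2.2.1.1 k1.2.1
    · refine (hτ t).down _ _ ?_ (h2 t)
      have n : ∀ x, (if E.Adj c (ψ x) then ψ x else c) = t → ψ x = t := fun x hx => by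
        by_cases k : E.Adj c (ψ x)
        · rwa [if_pos k] at hx
        · rw [if_neg k] at hx
          exact absurd hx.symm ht
      rintro u v ⟨huv, hu, hv⟩
      exact ⟨huv, n u hu, n v hv⟩
  · by_cases hv : E.Adj c (ψ v)
    · simp only [hv, if_true, or_true]
    · simp only [hv, if_false, true_or]

lemma fold_toggle {W Y : Type} [Fintype Y] [Nontrivial Y] (F : Set (SimpleGraph W))
    {τ : Option Y → Set (SimpleGraph W)} (hτ : ∀ t, Good (τ t)) {w : Y → ℕ} {a : ℕ} (ha : 0 < a)
    (hw : ∑ t, w t ≤ a) (hc : col W a ⊆ τ none) (hm : ∀ m, τ (some m) ⊆ col W (w m)) :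
    ((({E : SimpleGraph (Option Y) | ∀ H ∈ F, ¬ Cont H E τ} \
      {E | ∀ t, E.Adj none (some t)}).ncard : ℕ) : ZMod 2) = 0 := by
  classical
  choose o ho using fun m : Y => exists_ne m
  let m : SimpleGraph (Option Y) → Y := fun E => Classical.epsilon fun t => ¬ E.Adj none (some t)
  let g : SimpleGraph (Option Y) → SimpleGraph (Option Y) := fun E =>
    symmDiff E (edge (some (m E)) (some (o (m E))))
  have adj : ∀ E u v, u ≠ some (m E) → v ≠ some (m E) → ((g E).Adj u v ↔ E.Adj u v) := by
    intro E u v hu hv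
    simp [g, symmDiff_def, edge_adj, hu, hv]
  have adj0 : ∀ E v, (g E).Adj none v ↔ E.Adj none v := by
    intro E v
    simp [g, symmDiff_def, edge_adj]
  have mg : ∀ E, m (g E) = m E := fun E => by
    simp only [m, adj0]
  refine fold_par _ g ?_ (fun E => ?_) fun E k => ?_
  · rintro E ⟨h1, h2⟩
    have h3 : ¬ E.Adj none (some (m E)) :=
      Classical.epsilon_spec (p := fun t => ¬ E.Adj none (some t)) (not_forall.1 h2)
    refine ⟨fun H hH k => h1 H hH ?_, fun k => h2 fun t => (adj0 E _).1 (k t)⟩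
    obtain ⟨ψ, k1, k2, k3⟩ := fold_gen hτ none (w := fun t => t.elim 0 w) ha
      (by simpa using hw) hc (fun t ht _ => by
        cases t with
        | none => exact absurd rfl ht
        | some t => exact hm t) k
    have n : ∀ v, ψ v ≠ some (m E) := fun v e => by
      rcases k3 v with k4 | k4
      · rw [k4] at e
        cases e
      · rw [adj0, e] at k4
        exact h3 k4
    exact ⟨ψ, fun u v huv hne => (adj E _ _ (n u) (n v)).1 (k1 u v huv hne), k2⟩
  · show symmDiff (g E) (edge (some (m (g E))) (some (o (m (g E))))) = E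
    rw [mg]
    exact symmDiff_symmDiff_cancel_right _ _
  · have k1 : edge (some (m E)) (some (o (m E))) = ⊥ := symmDiff_eq_left.1 k
    have k2 : (edge (some (m E)) (some (o (m E)))).Adj (some (m E)) (some (o (m E))) := by
      simp [edge_adj, (ho (m E)).symm]
    rw [k1] at k2
    exact k2

/-- adding a node joined to all others -/
def foldLift {Y : Type} (E : SimpleGraph Y) : SimpleGraph (Option Y) where
  Adj u v := u ≠ v ∧ ∀ a b, u = some a → v = some b → E.Adj a b
  symm := ⟨fun _ _ h => ⟨h.1.symm, fun a b h1 h2 => (h.2 b a h2 h1).symm⟩⟩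
  loopless := ⟨fun _ h => h.1 rfl⟩

lemma fold_some {Y : Type} (E : SimpleGraph Y) (a b : Y) :
    (foldLift E).Adj (some a) (some b) ↔ E.Adj a b :=
  ⟨fun h => h.2 a b rfl rfl, fun h => ⟨fun k => h.ne (Option.some.inj k), fun _ _ h1 h2 => by
    cases h1
    cases h2
    exact h⟩⟩

lemma fold_none {Y : Type} (E : SimpleGraph Y) (b : Y) : (foldLift E).Adj none (some b) :=
  ⟨fun k => (by cases k), fun _ _ h1 _ => (by cases h1)⟩

lemma fold_cont {W X : Type} [Fintype X] (hB : ∀ w, 0 < w → Good (col W w))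
    {T : Set (SimpleGraph W)} (hT : Good T) {a : ℕ} (ha : 0 < a) {w : X → ℕ} (h0 : ∀ t, 0 < w t)
    (hw : ∑ t, w t ≤ a) (H : SimpleGraph W) (E : SimpleGraph (Option X)) :
    Cont H (foldLift E) (fun o : Option (Option X) =>
      o.elim T fun o' => o'.elim (col W a) fun t => col W (w t)) ↔
    Cont H E (fun o : Option X => o.elim (jw T a) fun t => col W (w t)) := by
  classical
  constructor
  · intro h
    obtain ⟨ψ, k1, k2, k3⟩ := fold_gen (by
        rintro (_ | _ | t)
        · exact hT
        · exact hB a ha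
        · exact hB _ (h0 t)) (some none) (w := fun o => o.elim 0 fun o' => o'.elim 0 w) ha
      (by simpa using hw) subset_rfl (by
        rintro (_ | _ | t) h1 h2
        · exact absurd (fold_none E none).symm h2
        · exact absurd rfl h1
        · exact subset_rfl) h
    have n : ∀ v t, ψ v = some (some t) → E.Adj none (some t) := fun v t e => by
      rcases k3 v with k4 | k4
      · rw [k4] at e
        cases e
      · rwa [e, fold_some] at k4
    refine ⟨fun v => (ψ v).join, fun u v huv hne => ?_, ?_⟩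
    · have k4 := k1 u v huv fun e => hne (congrArg Option.join e)
      have nu := n u
      have nv := n v
      simp only at hne ⊢
      generalize ψ u = p at *
      generalize ψ v = q at *
      rcases p with _ | _ | p <;> rcases q with _ | _ | q
      all_goals first
        | exact absurd rfl hne
        | exact nv _ rfl
        | exact (nu _ rfl).symm
        | exact (fold_some _ _ _).1 k4
    · rintro (_ | t)
      · refine ⟨(ψ ⁻¹' {none})ᶜ, hT.down _ _ ?_ (k2 none), ?_⟩
        · rintro u v ⟨k4, k5, k6⟩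
          exact ⟨k4.1, not_not.1 k5, not_not.1 k6⟩
        · obtain ⟨c, c1, c2⟩ := k2 (some none)
          have n2 : ∀ v, (ψ v).join = none → ψ v ≠ none → ψ v = some none := fun v => by
            rcases ψ v with _ | _ | p <;> simp
          exact ⟨c, fun v _ => c1 v trivial, fun u hu v hv huv =>
            c2 u trivial v trivial ⟨huv.1, n2 u huv.2.1 hu, n2 v huv.2.2 hv⟩⟩
      · refine (hB _ (h0 t)).down _ _ ?_ (k2 (some (some t)))
        rintro u v ⟨k4, k5, k6⟩
        exact ⟨k4, Option.join_eq_some_iff.1 k5, Option.join_eq_some_iff.1 k6⟩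
  · rintro ⟨ψ, k1, k2⟩
    obtain ⟨A, a1, a2⟩ := k2 none
    refine ⟨fun v => if ψ v = none ∧ v ∉ A then none else some (ψ v), fun u v huv hne => ?_, ?_⟩
    · by_cases hu : ψ u = none ∧ u ∉ A <;> by_cases hv : ψ v = none ∧ v ∉ A
      · simp only [if_pos hu, if_pos hv] at hne
        exact absurd rfl hne
      · simp only [if_pos hu, if_neg hv]
        exact fold_none _ _
      · simp only [if_neg hu, if_pos hv]
        exact (fold_none _ _).symm
      · simp only [if_neg hu, if_neg hv] at hne ⊢
        exact (fold_some _ _ _).2 (k1 u v huv fun e => hne (congrArg some e))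
    · have n1 : ∀ v, (if ψ v = none ∧ v ∉ A then none else some (ψ v)) = none →
          ψ v = none ∧ v ∉ A := fun v h => by
        by_contra k
        rw [if_neg k] at h
        cases h
      have n2 : ∀ v q, (if ψ v = none ∧ v ∉ A then none else some (ψ v)) = some q →
          ψ v = q ∧ (ψ v = none → v ∈ A) := fun v q h => by
        by_cases k : ψ v = none ∧ v ∉ A
        · rw [if_pos k] at h
          cases h
        · rw [if_neg k] at h
          exact ⟨Option.some.inj h, fun e => by_contra fun e' => k ⟨e, e'⟩⟩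
      rintro (_ | _ | t)
      · refine hT.down _ _ ?_ a1
        rintro u v ⟨k4, k5, k6⟩
        exact ⟨⟨k4, (n1 u k5).1, (n1 v k6).1⟩, (n1 u k5).2, (n1 v k6).2⟩
      · refine fold_col ha a2 ?_
        rintro u v ⟨k4, k5, k6⟩
        exact ⟨⟨k4, (n2 u _ k5).1, (n2 v _ k6).1⟩, (n2 u _ k5).2 (n2 u _ k5).1,
          (n2 v _ k6).2 (n2 v _ k6).1⟩
      · refine (hB _ (h0 t)).down _ _ ?_ (k2 (some t))
        rintro u v ⟨k4, k5, k6⟩
        exact ⟨k4, (n2 u _ k5).1, (n2 v _ k6).1⟩

lemma fold_split {W Y : Type} [Finite Y] (F : Set (SimpleGraph W))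
    (τ : Option Y → Set (SimpleGraph W)) (σ : Y → Set (SimpleGraph W))
    (h : ∀ H E, Cont H (foldLift E) τ ↔ Cont H E σ) :
    cnt F τ = cnt F σ + (({E : SimpleGraph (Option Y) | ∀ H ∈ F, ¬ Cont H E τ} \
      {E | ∀ t, E.Adj none (some t)}).ncard : ℕ) := by
  have inj : Function.Injective (foldLift (Y := Y)) := fun E E' e => by
    ext a b
    rw [← fold_some, e, fold_some]
  have e : {E : SimpleGraph (Option Y) | ∀ H ∈ F, ¬ Cont H E τ} ∩ {E | ∀ t, E.Adj none (some t)} =
      foldLift '' {E : SimpleGraph Y | ∀ H ∈ F, ¬ Cont H E σ} := by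
    ext E
    constructor
    · rintro ⟨h1, h2⟩
      have e1 : foldLift (E.comap some) = E := by
        ext u v
        rcases u with _ | u <;> rcases v with _ | v
        · simp
        · exact iff_of_true (fold_none _ _) (h2 v)
        · exact iff_of_true (fold_none _ _).symm (h2 u).symm
        · exact fold_some _ _ _
      exact ⟨E.comap some, fun H hH k => h1 H hH (e1 ▸ (h H _).2 k), e1⟩
    · rintro ⟨E', h1, rfl⟩
      exact ⟨fun H hH k => h1 H hH ((h H _).1 k), fun t => fold_none _ _⟩
  rw [cnt, cnt, ← Set.ncard_image_of_injective _ inj, ← e, ← Nat.cast_add,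
    Set.ncard_inter_add_ncard_sdiff_eq_ncard]

theorem fold (hB : BAS) : FOLD := by
  intro W X _ _ _ F T a A w hT hA h0 hw hwA
  have b1 := (hB W).1
  obtain ⟨t0⟩ : Nonempty X := inferInstance
  have ha : 0 < a :=
    (h0 t0).trans_le ((single_le_sum (fun t _ => Nat.zero_le (w t)) (mem_univ t0)).trans hw)
  rw [fold_split F _ _ (fold_cont b1 hT ha h0 hw), fold_toggle F (w := fun o => o.elim a w) (a := A)
    (by
      rintro (_ | _ | t)
      · exact hT
      · exact b1 a ha
      · exact b1 _ (h0 t)) (by omega) (by simpa using hwA) hA (by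
      rintro (_ | t) <;> exact subset_rfl), add_zero]

theorem pair (hB : BAS) : PAIR := by
  intro W _ F T a hT ha hA
  have b1 := (hB W).1
  have e1 : (fun o : Option (Option Empty) => o.elim T fun _ => col W a) =
      fun o => o.elim T fun o' => o'.elim (col W a) fun t => col W ((fun _ => 1) t) := by
    funext o
    rcases o with _ | _ | ⟨⟨⟩⟩ <;> rfl
  have e2 : (fun _ : Option Empty => jw T a) =
      fun o => o.elim (jw T a) fun t => col W ((fun _ => 1) t) := by
    funext o
    rcases o with _ | ⟨⟨⟩⟩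
    rfl
  have hc := fold_cont (X := Empty) b1 hT ha (w := fun _ => 1) (fun _ => one_pos) (by simp)
  rw [← e1, ← e2] at hc
  rw [fold_split F _ _ hc, add_comm]
  congr 1
  have hs : ∀ u : Option Empty, u = none := by
    rintro (_ | ⟨⟨⟩⟩)
    rfl
  have inj : Function.Injective fun _ : SimpleGraph (Option Empty) =>
      (⊥ : SimpleGraph (Option (Option Empty))) := fun E E' _ => by
    ext u v
    rw [hs u, hs v]
    simp
  have key : ∀ (H : SimpleGraph W) (E : SimpleGraph (Option Empty)),
      Cont H (⊥ : SimpleGraph (Option (Option Empty))) (fun o => o.elim T fun _ => col W a) ↔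
        Cont H E fun _ => T := fun H E => by
    constructor
    · intro h
      obtain ⟨ψ, -, k2, k3⟩ := fold_gen (by
          rintro (_ | _)
          · exact hT
          · exact b1 a ha) none (w := fun o => o.elim 0 fun _ => a) ha (by simp) hA (by
          rintro (_ | _) h1 _
          · exact absurd rfl h1
          · exact subset_rfl) h
      refine ⟨fun _ => none, fun _ _ _ k => absurd rfl k, fun t => hT.down _ _ ?_ (k2 none)⟩
      exact fun u v k => ⟨k.1, (k3 u).resolve_right id, (k3 v).resolve_right id⟩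
    · rintro ⟨ψ, -, k2⟩
      refine ⟨fun _ => none, fun _ _ _ k => absurd rfl k, ?_⟩
      rintro (_ | t)
      · refine hT.down _ _ ?_ (k2 none)
        exact fun u v k => ⟨k.1, hs _, hs _⟩
      · refine (b1 a ha).down _ _ ?_ (b1 a ha).bot
        rintro u v ⟨_, k, _⟩
        cases k
  rw [cnt, ← Set.ncard_image_of_injective _ inj]
  congr 2
  ext E
  constructor
  · rintro ⟨h1, h2⟩
    have e : E = ⊥ := by
      ext u v
      refine iff_of_false (fun k => h2 fun t => ?_) id
      rw [hs t]
      rcases u with _ | u <;> rcases v with _ | v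
      · exact absurd rfl k.ne
      · rwa [hs v] at k
      · rw [hs u] at k
        exact k.symm
      · rw [hs u, hs v] at k
        exact absurd rfl k.ne
    subst e
    exact ⟨⊥, fun H hH k => h1 H hH ((key H _).2 k), rfl⟩
  · rintro ⟨E', h1, rfl⟩
    exact ⟨fun H hH k => h1 H hH ((key H _).1 k), fun k => k none⟩

end Pool.Agent.MP_257582_lc.E99
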