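import Pool.Agent.MP_257582_lc.E99.V2Defs

set_option autoImplicit false

namespace Pool.Agent.MP_257582_lc.E99

open Finset SimpleGraph

lemma pol_mul {B : Type} [CommRing B] (x : B) {a b : B}
    (ha : a ∈ AddSubgroup.closure {b : B | ∃ k, 0 < k ∧ b = x ^ k})
    (hb : b ∈ AddSubgroup.closure {b : B | ∃ k, 0 < k ∧ b = x ^ k}) :
    a * b ∈ AddSubgroup.closure {b : B | ∃ k, 0 < k ∧ b = x ^ k} := by
  induction ha using AddSubgroup.closure_induction with
  | mem a ha =>
    induction hb using AddSubgroup.closure_induction with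
    | mem b hb =>
      obtain ⟨i, hi, rfl⟩ := ha
      obtain ⟨j, _, rfl⟩ := hb
      exact AddSubgroup.subset_closure ⟨i + j, by omega, (pow_add _ _ _).symm⟩
    | zero => rw [mul_zero]; exact zero_mem _
    | add b c _ _ h1 h2 => rw [mul_add]; exact add_mem h1 h2
    | neg b _ h => rw [mul_neg]; exact neg_mem h
  | zero => rw [zero_mul]; exact zero_mem _
  | add a c _ _ h1 h2 => rw [add_mul]; exact add_mem h1 h2
  | neg a _ h => rw [neg_mul]; exact neg_mem h

lemma pol_mono {W : Type} {a b : ℕ} (h : a ≤ b) : col W a ⊆ col W b :=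
  fun _ ⟨c, h1, h2⟩ => ⟨c, fun v hv => (h1 v hv).trans_le h, h2⟩

theorem pol (hB : BAS) (hP : PAIR) (hF : FOLD) : POL := by
  intro W _ F B _ y l hA s w hw
  classical
  obtain ⟨b1, b2, b3, b4, _, _⟩ := hB W
  have two : ∀ z : ZMod 2, z + z = 0 := by decide
  have g2 : ∀ i : ℕ, Good (col W (2 ^ i)) := fun i => b1 _ (by positivity)
  have m1 : ∀ i : ℕ, y (col W (2 ^ i)) ∈
      AddSubgroup.closure {b : B | ∃ k, 0 < k ∧ b = y {⊥} ^ k} := fun i => by
    induction i with
    | zero =>
      rw [pow_zero, b2]
      exact AddSubgroup.subset_closure ⟨1, one_pos, (pow_one _).symm⟩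
    | succ i ih =>
      rw [pow_succ', ← b3 _ (by positivity), hA.join _ (g2 i), phi, sq]
      exact add_mem (pol_mul _ ih ih) ih
  have m2 : ∀ D : Finset ℕ, D.Nonempty → ∏ i ∈ D, y (col W (2 ^ i)) ∈
      AddSubgroup.closure {b : B | ∃ k, 0 < k ∧ b = y {⊥} ^ k} := fun D hD =>
    prod_induction_nonempty _ _ (fun _ _ => pol_mul _) hD fun i _ => m1 i
  have one : ∀ T, Good T → cnt F (fun _ : Option Empty => T) = l (y T) := fun T hT => by
    rw [← hA.ev _ _ fun _ => hT, Fintype.prod_option, Fintype.prod_empty, mul_one]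
  have key : ∀ D : Finset ℕ, D.Nonempty → ∃ w' < ∑ i ∈ D, 2 ^ i, ∀ T A, Good T → col W A ⊆ T →
      ∑ i ∈ D, 2 ^ i ≤ A → l (y T * ∏ i ∈ D, y (col W (2 ^ i))) =
        l (y (jw T (∑ i ∈ D, 2 ^ i))) + l (y (jw T w')) := by
    intro D
    induction D using Finset.induction_on_max with
    | empty => exact fun h => absurd h not_nonempty_empty
    | insert a D ha ih =>
      intro _
      have hn : a ∉ D := fun h => lt_irrefl _ (ha a h)
      rw [sum_insert hn, prod_insert hn]
      rcases D.eq_empty_or_nonempty with rfl | hD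
      · refine ⟨0, by positivity, fun T A hT h1 h2 => ?_⟩
        rw [sum_empty, add_zero] at h2
        have h3 := hP W F T (2 ^ a) hT (by positivity) ((pol_mono h2).trans h1)
        rw [← hA.ev _ _ (fun o => by
          cases o with
          | none => exact hT
          | some _ => exact g2 a), Fintype.prod_option, Fintype.prod_option, Fintype.prod_empty,
          one T hT, one _ (b4 T _ hT).1] at h3
        rw [sum_empty, add_zero, prod_empty, (b4 T 0 hT).2.2.1, add_comm]
        exact h3
      · obtain ⟨w', h1, h2⟩ := ih hD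
        refine ⟨2 ^ a + w', by omega, fun T A hT h3 h4 => ?_⟩
        have : Nonempty D := hD.to_subtype
        have h5 := hF W D F T (2 ^ a) A (fun t => 2 ^ t.1) hT h3 (fun _ => by positivity)
          (by rw [sum_coe_sort D fun i => 2 ^ i]; exact (Nat.geomSum_lt le_rfl ha).le)
          (by rw [sum_coe_sort D fun i => 2 ^ i]; exact h4)
        obtain ⟨c1, c2, _, c4, _⟩ := b4 T (2 ^ a) hT
        rw [← hA.ev _ _ (fun o => by
          rcases o with _ | _ | t
          · exact hT
          · exact g2 a
          · exact g2 t.1), ← hA.ev _ _ (fun o => by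
          rcases o with _ | t
          · exact c1
          · exact g2 t.1), Fintype.prod_option, Fintype.prod_option, Fintype.prod_option] at h5
        have h6 := h2 _ A c1 (h3.trans c2) ((Nat.le_add_left _ _).trans h4)
        rw [c4, c4, ← prod_coe_sort D fun i => y (col W (2 ^ i))] at h6
        rw [← prod_coe_sort D fun i => y (col W (2 ^ i))]
        exact h5.trans h6
  induction w using Nat.strong_induction_on with
  | _ w ih =>
    rcases Nat.eq_zero_or_pos w with rfl | h0
    · exact ⟨0, zero_mem _, fun T hT _ => by rw [mul_zero, map_zero, (b4 T 0 hT).2.2.1, two]⟩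
    · have e : ∑ i ∈ w.bitIndices.toFinset, 2 ^ i = w := sum_toFinset_bitIndices_two_pow w
      have hD : w.bitIndices.toFinset.Nonempty := nonempty_iff_ne_empty.2 fun h => by
        rw [h, sum_empty] at e
        omega
      obtain ⟨w', h1, h2⟩ := key _ hD
      rw [e] at h1 h2
      obtain ⟨P, p1, p2⟩ := ih w' h1 (by omega)
      refine ⟨_ + P, add_mem (m2 _ hD) p1, fun T hT h3 => ?_⟩
      rw [mul_add, map_add, h2 T _ hT h3 hw, p2 T hT h3, add_assoc, ← add_assoc (l (y (jw T w'))),
        two, zero_add]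

end Pool.Agent.MP_257582_lc.E99
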