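import Pool.Agent.MP_257582_lc.E99.V2Defs

set_option autoImplicit false

namespace Pool.Agent.MP_257582_lc.E99

open Finset SimpleGraph

theorem vis_poly {B : Type} [CommRing B] (x : B) (s : ℕ) :
    ∃ p : Polynomial ℤ, phi^[s] x = x * Polynomial.aeval x p := by
  induction s with
  | zero => exact ⟨1, by simp⟩
  | succ s ih =>
    obtain ⟨p, hp⟩ := ih
    refine ⟨Polynomial.X * p ^ 2 + p, ?_⟩
    rw [Function.iterate_succ_apply', hp, phi, map_add, map_mul, map_pow, Polynomial.aeval_X]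
    ring

theorem vis_one {W : Type} (F : Set (SimpleGraph W)) (T : Set (SimpleGraph W))
    (h : ∀ H ∈ F, H ∉ T) : cnt F (fun _ : Unit => T) = 1 := by
  have e : {E : SimpleGraph Unit | ∀ H ∈ F, ¬ Cont H E fun _ => T} = {⊥} := by
    ext E
    refine ⟨fun _ => Subsingleton.elim _ _, fun _ H hH ⟨ψ, _, h2⟩ => h H hH ?_⟩
    have e' : res H (ψ ⁻¹' {()}) = H := by
      ext u v
      exact ⟨fun k => k.1, fun k => ⟨k, rfl, rfl⟩⟩
    exact e' ▸ h2 ()
  rw [cnt, e, Set.ncard_singleton, Nat.cast_one]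

theorem vis_alg {B : Type} [CommRing B] (l : B →+ ZMod 2) (x g P : B) (s : ℕ)
    (hP : P ∈ AddSubgroup.closure {b : B | ∃ k, 0 < k ∧ b = x ^ k})
    (h : l (phi^[s] g * P) = 1) : ∃ j k : ℕ, 0 < j ∧ 0 < k ∧ l (x ^ k * g ^ j) = 1 := by
  by_contra hn
  have h0 : ∀ j k : ℕ, 0 < k → l (x ^ k * g ^ (j + 1)) = 0 := fun j k hk => by
    have h : l (x ^ k * g ^ (j + 1)) ≠ 1 := fun e => hn ⟨j + 1, k, j.succ_pos, hk, e⟩
    revert h
    generalize l (x ^ k * g ^ (j + 1)) = v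
    revert v
    decide
  have h1 : ∀ j : ℕ, l (P * g ^ (j + 1)) = 0 := fun j => by
    clear h
    induction hP using AddSubgroup.closure_induction with
    | mem b hb =>
      obtain ⟨k, hk, rfl⟩ := hb
      exact h0 j k hk
    | zero => rw [zero_mul, map_zero]
    | add a b _ _ i1 i2 => rw [add_mul, map_add, i1, i2, add_zero]
    | neg a _ i1 => rw [neg_mul, map_neg, i1, neg_zero]
  have h3 : ∀ r : Polynomial ℤ, l (g * Polynomial.aeval g r * P) = 0 := fun r => by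
    induction r using Polynomial.induction_on' with
    | add r r' i1 i2 => rw [map_add, mul_add, add_mul, map_add, i1, i2, add_zero]
    | monomial n a =>
      rw [Polynomial.aeval_monomial, show g * (algebraMap ℤ B a * g ^ n) * P =
        a • (P * g ^ (n + 1)) by rw [Algebra.smul_def]; ring, map_zsmul, h1, smul_zero]
  obtain ⟨p, hp⟩ := vis_poly g s
  rw [hp, h3] at h
  exact zero_ne_one h

theorem vis (hB : BAS) (hJ : JN) (hY : TY) (hA : ALG) (hE : EMB) (hZ : ZER) (hP : POL) : VIS := by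
  intro W _ F B _ y l ha s w hcol H₀ hH c p hp hadj r hr hF hrW hrp
  classical
  obtain ⟨j1, j2, j3, -⟩ := hJ W
  obtain ⟨-, -, -, b4, b5, b6⟩ := hB W
  obtain ⟨a1, -, -⟩ := hA B ha.two
  have jg : ∀ (d : ℕ) (T : Set (SimpleGraph W)), Good T → Good (jn^[d] T) := fun d T hT => by
    induction d with
    | zero => exact hT
    | succ d ih => rw [Function.iterate_succ_apply']; exact j1 _ ih
  have yj : ∀ (d : ℕ) (T : Set (SimpleGraph W)), Good T → phi^[d] (y T) = y (jn^[d] T) :=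
    fun d T hT => by
      induction d with
      | zero => rfl
      | succ d ih =>
        rw [Function.iterate_succ_apply', Function.iterate_succ_apply', ih, ha.join _ (jg d T hT)]
  have := Fintype.ofFinite W
  have hex : ∃ m, ∃ H ∈ F, H.Colorable m := ⟨_, H₀, hH, H₀.colorable_of_fintype⟩
  obtain ⟨H₁, hH₁, m1⟩ := Nat.find_spec hex
  have m2 : ∀ m < Nat.find hex, ∀ H ∈ F, ¬ H.Colorable m := fun m hm H k1 k2 =>
    Nat.find_min hex hm ⟨H, k1, k2⟩
  have m3 : 2 ^ s + w < Nat.find hex := by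
    by_contra k
    exact hcol H₁ hH₁ (m1.mono (not_lt.1 k))
  obtain ⟨t, ht⟩ : ∃ t, Nat.find hex = t + 1 :=
    Nat.exists_eq_succ_of_ne_zero (Nat.ne_zero_of_lt m3)
  rw [ht] at m1 m2 m3
  have p0 : 0 < 2 ^ s := by positivity
  have t1 : 2 ^ Nat.log 2 t ≤ t := Nat.pow_log_le_self 2 (by omega)
  have t2 : t < 2 ^ (Nat.log 2 t + 1) := Nat.lt_pow_succ_log_self one_lt_two t
  have t0 : 2 ^ s ≤ t := le_trans (Nat.le_add_right _ w) (Nat.lt_succ_iff.1 m3)
  have t3 : 2 ^ s ≤ 2 ^ Nat.log 2 t :=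
    Nat.pow_le_pow_right two_pos (Nat.le_log_of_pow_le one_lt_two t0)
  generalize Nat.log 2 t = d at t1 t2 t3
  obtain ⟨v, rfl⟩ := Nat.exists_eq_add_of_le t1
  rw [pow_succ] at t2
  obtain ⟨P₁, q1, q2⟩ := hP W F B y l ha d v (by omega)
  obtain ⟨P₂, q3, q4⟩ := hP W F B y l ha d (v + 1) (by omega)
  have key : ∀ T, Good T → l (phi^[d] (y T) * (P₁ + P₂)) =
      l (y (jw (jn^[d] T) v)) + l (y (jw (jn^[d] T) (v + 1))) := fun T hT => by
    have k1 := (b4 T d hT).2.2.2.2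
    rw [yj d T hT, mul_add, map_add, q2 _ (jg d T hT) k1, q4 _ (jg d T hT) k1]
    have k2 : ∀ a b e : ZMod 2, a + e + (b + e) = a + b := by decide
    exact k2 _ _ _
  refine vis_alg l _ _ (P₁ + P₂) d (add_mem q1 q3) ?_
  have e1 : l (phi^[d] (y {⊥}) * (P₁ + P₂)) = 1 := by
    have g1 := (b4 _ v (jg d _ j2)).1
    have g2 := (b4 _ (v + 1) (jg d _ j2)).1
    have e := ha.ev Unit (fun _ => jw (jn^[d] {⊥}) v) fun _ => g1
    rw [Fintype.prod_unique, vis_one F _ fun H k1 k2 => m2 _ (Nat.lt_succ_self _) H k1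
      ((b6 _ v H (by positivity)).1 (b5 d ▸ k2))] at e
    rw [key _ j2, e, ha.zero _ g2 H₁ hH₁ (b5 d ▸ (b6 _ (v + 1) H₁ (by positivity)).2 m1), map_zero,
      add_zero]
  have e2 : l (phi^[d] (zz y r) * (P₁ + P₂)) = 0 := by
    obtain ⟨u, b, I, u1, u2, u3⟩ := hF
    have : NeZero r := ⟨hr.ne_zero⟩
    have e := (AddMonoidHom.mk' (fun z : B => l (phi^[d] z * (P₁ + P₂))) fun z z' => by
      rw [a1, add_mul, map_add]).map_finsum_mem (fun S => y (ty W S))
      (Set.toFinite {S : SimpleGraph (ZMod r) | TI S ∧ S ≠ ⊥})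
    refine Eq.trans e (hZ W (ZMod 2) (fun T => l (phi^[d] (y T) * (P₁ + P₂))) r u b rfl hr.pos u1
      fun S s1 s2 s3 => ?_)
    have g : Good (ty W S) := (hY W _ (by rwa [Nat.card_zmod])).1 S s1
    have g0 := jg d _ g
    have g1 := (b4 _ v g0).1
    have k1 : H₀ ∈ jw (jn^[d] (ty W S)) v := by
      refine ⟨{a | 2 ^ d ≤ (c a : ℕ)}, j3 d _ _ (fun a => (c a : ℕ) % 2 ^ d) g
        (fun a => Nat.mod_lt _ (by positivity)) fun i => hE W _ p r u I S hr hp hrp ?_ u2 u3 s1 s2 s3,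
        fun a => (c a : ℕ) - 2 ^ d, fun a k => ?_, fun a k a' k' k1 k2 => ?_⟩
      · rintro a a' ⟨⟨k1, k2, k3⟩, k4, k5⟩
        have k6 : (c a : ℕ) % 2 ^ d = (c a' : ℕ) % 2 ^ d := Eq.trans k4 (Eq.symm k5)
        rw [Nat.mod_eq_of_lt (not_le.1 k2), Nat.mod_eq_of_lt (not_le.1 k3)] at k6
        exact (hadj a a' k1 (Fin.ext k6)).2
      · have k1 := (c a).2
        have k2 : 2 ^ d ≤ (c a : ℕ) := k
        change (c a : ℕ) - 2 ^ d < v
        omega
      · have k3 : 2 ^ d ≤ (c a : ℕ) := k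
        have k4 : 2 ^ d ≤ (c a' : ℕ) := k'
        have k5 : (c a : ℕ) - 2 ^ d = (c a' : ℕ) - 2 ^ d := k2
        have k6 := (hadj a a' k1 (Fin.ext (by omega))).1
        omega
    have k2 : H₀ ∈ jw (jn^[d] (ty W S)) (v + 1) :=
      (b4 _ v g0).2.2.2.1 1 ▸ (b4 _ 1 g1).2.1 k1
    change l (phi^[d] (y (ty W S)) * (P₁ + P₂)) = 0
    rw [key _ g, ha.zero _ g1 H₀ hH k1, ha.zero _ (b4 _ (v + 1) g0).1 H₀ hH k2, map_zero, add_zero]
  rw [a1, add_mul, map_add, e1, e2, add_zero]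

end Pool.Agent.MP_257582_lc.E99
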