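import Pool.Agent.MP_257582_lc.E99.All
import Pool.Agent.MP_257582_lc.E99.Cover2
import Pool.Agent.MP_257582_lc.E99.V2BAS
import Pool.Agent.MP_257582_lc.E99.V2FOLD
import Pool.Agent.MP_257582_lc.E99.V2POL
import Pool.Agent.MP_257582_lc.E99.V2VIS
import Pool.Agent.MP_257582_lc.E99.V2MAIN

set_option autoImplicit false

namespace Pool.Agent.MP_257582_lc.E99

theorem all2 : MAIN2 :=
  main2 jnrow tyrow (ring swap jnrow) alg fer zer pig (key top cont sum tyrow)
    (vis bas jnrow tyrow alg emb zer (pol bas (pair bas) (fold bas)))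

/-- degenerate graphs satisfy the drawing hypothesis -/
theorem drawn2_degen (W : Type) [Finite W] (k w : ℕ) (r : W → ℕ) (hr : Function.Injective r)
    (K : SimpleGraph W) (h : ∀ v, {u | K.Adj v u ∧ r u < r v}.ncard < 2 * 2 ^ k + w) :
    Drawn2 K k w := cover2_degen cover_degen W k w r hr K h

/-- graphs of small maximum degree satisfy the drawing hypothesis -/
theorem drawn2_deg (W : Type) [Finite W] (k w : ℕ) (K : SimpleGraph W)
    (h : ∀ v, (K.neighborSet v).ncard < 3 * 2 ^ k + w) : Drawn2 K k w :=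
  cover2_deg cover_deg W k w K h

end Pool.Agent.MP_257582_lc.E99
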