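import Pool.Agent.MP_257582_lc.E99.Defs

/-! Joining a node with independent blocks: statements of the steps. -/

set_option autoImplicit false

namespace Pool.Agent.MP_257582_lc.E99

open Finset SimpleGraph

variable {W : Type}

/-- `K` is properly coloured on `A` with `w` colours -/
def colOn (K : SimpleGraph W) (A : Set W) (w : ℕ) : Prop :=
  ∃ c : W → ℕ, (∀ v ∈ A, c v < w) ∧ ∀ u ∈ A, ∀ v ∈ A, K.Adj u v → c u ≠ c v

/-- the type of a complete `w`-partite node -/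
def col (W : Type) (w : ℕ) : Set (SimpleGraph W) := {K | colOn K Set.univ w}

/-- the type of the join of a node of type `T` with `w` independent blocks -/
def jw (T : Set (SimpleGraph W)) (w : ℕ) : Set (SimpleGraph W) :=
  {K | ∃ A, res K Aᶜ ∈ T ∧ colOn K A w}

def BAS : Prop := ∀ (W : Type), (∀ w, 0 < w → Good (col W w)) ∧ col W 1 = {⊥} ∧
  (∀ a, 0 < a → jn (col W a) = col W (2 * a)) ∧
  (∀ (T : Set (SimpleGraph W)) (a : ℕ), Good T → Good (jw T a) ∧ T ⊆ jw T a ∧ jw T 0 = T ∧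
    (∀ b, jw (jw T a) b = jw T (a + b)) ∧ col W (2 ^ a) ⊆ jn^[a] T) ∧
  (∀ s, jn^[s] ({⊥} : Set (SimpleGraph W)) = col W (2 ^ s)) ∧
  ∀ (a w : ℕ) (K : SimpleGraph W), 0 < a → (K ∈ jw (col W a) w ↔ K.Colorable (a + w))

def PAIR : Prop := ∀ (W : Type) [Finite W] (F : Set (SimpleGraph W)) (T : Set (SimpleGraph W))
  (a : ℕ), Good T → 0 < a → col W a ⊆ T →
  cnt F (fun o : Option (Option Empty) => o.elim T fun _ => col W a) =
    cnt F (fun _ : Option Empty => T) + cnt F (fun _ : Option Empty => jw T a)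

def FOLD : Prop := ∀ (W X : Type) [Finite W] [Fintype X] [Nonempty X] (F : Set (SimpleGraph W))
  (T : Set (SimpleGraph W)) (a A : ℕ) (w : X → ℕ), Good T → col W A ⊆ T → (∀ t, 0 < w t) →
  ∑ t, w t ≤ a → a + ∑ t, w t ≤ A →
  cnt F (fun o : Option (Option X) => o.elim T fun o' => o'.elim (col W a) fun t => col W (w t)) =
    cnt F (fun o : Option X => o.elim (jw T a) fun t => col W (w t))

/-- joins with independent blocks are seen by polynomials in `y {⊥}` without constant term -/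
def POL : Prop := ∀ (W : Type) [Finite W] (F : Set (SimpleGraph W)) (B : Type) [CommRing B]
  (y : Set (SimpleGraph W) → B) (l : B →+ ZMod 2), Alg F y l → ∀ s w : ℕ, w ≤ 2 ^ s →
  ∃ P ∈ AddSubgroup.closure {b : B | ∃ k, 0 < k ∧ b = y {⊥} ^ k},
    ∀ T, Good T → col W (2 ^ s) ⊆ T → l (y T * P) = l (y (jw T w)) + l (y T)

/-- some monomial with both exponents positive is seen -/
def VIS : Prop := ∀ (W : Type) [Finite W] (F : Set (SimpleGraph W)) (B : Type) [CommRing B]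
  (y : Set (SimpleGraph W) → B) (l : B →+ ZMod 2), Alg F y l → ∀ s w : ℕ,
  (∀ H ∈ F, ¬ H.Colorable (2 ^ s + w)) → ∀ H₀ ∈ F, ∀ (c : W → Fin (2 ^ s + w)) (p : W → ℤ × ℤ),
  Function.Injective p → (∀ u v, H₀.Adj u v → c u = c v → (c u : ℕ) < 2 ^ s ∧
    ∃ e : ℕ, ((p u).1 - (p v).1) ^ 2 + ((p u).2 - (p v).2) ^ 2 = 2 ^ e) →
  ∀ r : ℕ, r.Prime → Fer r → Nat.card W ^ 2 < r →
  (∀ v w, ((p v).1 - (p w).1) ^ 2 + ((p v).2 - (p w).2) ^ 2 < r) →
  ∃ j k : ℕ, 0 < j ∧ 0 < k ∧ l (y {⊥} ^ k * (y {⊥} + zz y r) ^ j) = 1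

def MAIN2 : Prop := ∀ (W : Type) [Finite W] (F : Set (SimpleGraph W)) (s w : ℕ),
  (∀ H ∈ F, ¬ H.Colorable (2 ^ s + w)) → ∀ H₀ ∈ F, ∀ (c : W → Fin (2 ^ s + w)) (p : W → ℤ × ℤ),
  Function.Injective p → (∀ u v, H₀.Adj u v → c u = c v → (c u : ℕ) < 2 ^ s ∧
    ∃ e : ℕ, ((p u).1 - (p v).1) ^ 2 + ((p u).2 - (p v).2) ^ 2 = 2 ^ e) →
  ∃ N, Nat.card W ≤ N ∧ ∀ n ≥ N, ∀ (d : ℕ) (f : SimpleGraph (Fin n) → Prop), Setup n d f →
    d < n.choose 2 → (∀ G, f G ↔ ∀ H ∈ F, ¬ H ⊑ G) → False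

end Pool.Agent.MP_257582_lc.E99
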